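import Pool.Agent.P.MP_7e7371_lc.Champ

/-! The epoch-based collect algorithm and its correctness. -/

namespace Pool.Agent.P.MP_7e7371_lc

open Finset

/-- shared knowledge record: epoch, freshness certificate and entries of the running scan,
certificate and values of the last completed scan -/
structure Rec (n : ℕ) (V : Type) where
  ep : ℕ
  lo : Fin n → ℕ
  K : Fin n → Option (V × ℕ)
  llo : Fin n → ℕ
  lval : Fin n → V

/-- local state -/
structure St (n : ℕ) (V : Type) where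
  ts : ℕ
  flag : Bool
  cnt : ℕ
  rc : Rec n V

variable {n : ℕ} {V : Type}

namespace Rec

def dom (ρ : Rec n V) : Finset (Fin n) := univ.filter (fun r => (ρ.K r).isSome)

def close (ρ : Rec n V) : Rec n V :=
  if h : ∀ s, (ρ.K s).isSome then
    ⟨ρ.ep + 1, fun s => ((ρ.K s).get (h s)).2, fun _ => none, ρ.lo, fun s => ((ρ.K s).get (h s)).1⟩
  else ρ

def join (ρ a : Rec n V) : Rec n V :=
  if a.ep = ρ.ep then
    ⟨ρ.ep, fun s => min (ρ.lo s) (a.lo s), fun s => (ρ.K s).or (a.K s), ρ.llo, ρ.lval⟩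
  else ρ

def put (ρ : Rec n V) (r : Fin n) (x : V × ℕ) : Rec n V :=
  ⟨ρ.ep, ρ.lo, Function.update ρ.K r (some x), ρ.llo, ρ.lval⟩

def absorb (ρ : Rec n V) (r : Fin n) (v : V) (a : ℕ × Rec n V) : Rec n V :=
  if ρ.ep < a.2.ep then a.2 else ((ρ.join a.2).put r (v, a.1)).close

def know (e : ℕ) (ρ : Rec n V) : Finset (Fin n) :=
  if ρ.ep < e then ∅ else if ρ.ep = e then ρ.dom else univ

@[simp] lemma join_ep (ρ a : Rec n V) : (ρ.join a).ep = ρ.ep := by
  unfold join; split_ifs <;> rfl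

@[simp] lemma put_ep (ρ : Rec n V) (r : Fin n) (x : V × ℕ) : (ρ.put r x).ep = ρ.ep := rfl

lemma mem_dom (ρ : Rec n V) (s : Fin n) : s ∈ ρ.dom ↔ (ρ.K s).isSome := by simp [dom]

lemma dom_put (ρ : Rec n V) (r : Fin n) (x : V × ℕ) : (ρ.put r x).dom = insert r ρ.dom := by
  ext s
  by_cases h : s = r
  · subst h; rw [mem_dom]; simp [put]
  · rw [mem_dom, mem_insert, mem_dom]; simp [put, h]

lemma dom_join (ρ a : Rec n V) :
    (ρ.join a).dom = if a.ep = ρ.ep then ρ.dom ∪ a.dom else ρ.dom := by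
  unfold join
  split_ifs
  · ext s; simp [dom]
  · rfl

lemma close_cases (ρ : Rec n V) : (ρ.close = ρ ∧ ρ.dom ≠ univ) ∨
    (ρ.dom = univ ∧ ρ.close.ep = ρ.ep + 1 ∧ ρ.close.K = (fun _ => none) ∧ ρ.close.llo = ρ.lo ∧
      ∀ s, ρ.K s = some (ρ.close.lval s, ρ.close.lo s)) := by
  unfold close
  split_ifs with h
  · right
    exact ⟨by ext s; simp [dom, h s], rfl, rfl, rfl, fun s => by simp⟩
  · left
    refine ⟨rfl, fun h' => h fun s => ?_⟩
    have : s ∈ ρ.dom := h' ▸ mem_univ s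
    simpa [dom] using this

lemma absorb_know (ρ : Rec n V) (r : Fin n) (v : V) (a : ℕ × Rec n V) :
    ρ.ep ≤ (ρ.absorb r v a).ep ∧ (∀ e, ρ.know e ⊆ (ρ.absorb r v a).know e) ∧
      r ∈ (ρ.absorb r v a).know ρ.ep ∧ a.2.know ρ.ep ⊆ (ρ.absorb r v a).know ρ.ep := by
  unfold absorb
  split_ifs with h
  · refine ⟨h.le, fun e => ?_, ?_, Subset.refl _⟩
    · unfold know; split_ifs <;> first | omega | simp
    · unfold know; split_ifs <;> first | omega | simp
  · rcases close_cases ((ρ.join a.2).put r (v, a.1)) with ⟨h1, _⟩ | ⟨_, h1, _⟩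
    · rw [h1]
      refine ⟨by simp, fun e => ?_, ?_, ?_⟩
      · simp only [know, put_ep, join_ep, dom_put, dom_join]
        split_ifs <;> first | exact Subset.refl _ | (intro x hx; simp [hx])
      · simp [know, dom_put]
      · simp only [know, put_ep, join_ep, dom_put, dom_join]
        split_ifs <;> first | omega | (intro x hx; simp_all)
    · simp only [put_ep, join_ep] at h1
      refine ⟨by omega, fun e => ?_, ?_, ?_⟩
      · unfold know; split_ifs <;> first | omega | simp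
      · unfold know; split_ifs <;> first | omega | simp
      · unfold know; split_ifs <;> first | omega | simp

lemma absorb_ep_le (ρ : Rec n V) (r : Fin n) (v : V) (a : ℕ × Rec n V) {k : ℕ} (h1 : ρ.ep ≤ k)
    (h2 : a.2.ep ≤ k) : (ρ.absorb r v a).ep ≤ k + 1 := by
  unfold absorb
  split_ifs with h
  · omega
  · rcases close_cases ((ρ.join a.2).put r (v, a.1)) with ⟨h3, _⟩ | ⟨_, h3, _⟩ <;>
      rw [h3] <;> simp <;> omega

end Rec

variable (v0 : V) (g : Fin n → ℕ → Fin n) (L : Fin n → List (Fin n))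

/-- the register read next -/
def target (p : Fin n) (S : St n V) : Fin n :=
  if S.cnt % 3 = 0 then g p (S.cnt / 3)
  else ((L p).find? (fun r => decide (r ∉ S.rc.dom))).getD p

/-- the empty record -/
def rec0 : Rec n V := ⟨0, fun _ => 0, fun _ => none, fun _ => 0, fun _ => v0⟩

/-- The algorithm. -/
def alg : Alg n V where
  S := St n V
  R := ℕ × Rec n V
  init := fun _ => ⟨0, false, 0, rec0 v0⟩
  initR := fun _ => (0, rec0 v0)
  onStart := fun _ S => ⟨S.ts + 1, true, S.cnt, S.rc⟩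
  onWrite := fun _ S _ => (⟨S.ts, false, S.cnt, S.rc⟩, (S.ts, S.rc))
  next := fun p S => if S.flag = true ∨ S.cnt % 3 = 2 then Sum.inr (S.ts, S.rc)
    else Sum.inl (target g L p S)
  afterRead := fun p S x => ⟨S.ts, S.flag,
    if (S.rc.absorb (target g L p S) x.1 x.2).ep = S.rc.ep then S.cnt + 1 else 0,
    S.rc.absorb (target g L p S) x.1 x.2⟩
  afterWrite := fun _ S => ⟨S.ts, false, if S.flag = true then S.cnt else S.cnt + 1, S.rc⟩
  ret := fun p S => if S.ts ≤ S.rc.llo p then some S.rc.lval else none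

variable {v0 g L}

/-- local state of a process -/
def lc (c : Config (alg v0 g L)) (q : Fin n) : St n V := c.loc q
/-- auxiliary register contents -/
def ax (c : Config (alg v0 g L)) (q : Fin n) : ℕ × Rec n V := c.aux q

/-- the record obtained by `p` from its next read -/
def newRec (c : Config (alg v0 g L)) (p : Fin n) : Rec n V :=
  (lc c p).rc.absorb (target g L p (lc c p)) (c.val (target g L p (lc c p)))
    (ax c (target g L p (lc c p)))

/-- the event is a scan step of `q` -/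
def IsScan (c : Config (alg v0 g L)) (e : Event n V) (q : Fin n) : Prop :=
  e = Event.step q ∧ c.busy q = true ∧ (lc c q).flag = false

/-- effect of an event on process `q` -/
lemma effect (c : Config (alg v0 g L)) (e : Event n V) (q : Fin n) :
    (¬ IsScan c e q ∧ e ≠ Event.start q ∧ lc ((alg v0 g L).exec c e) q = lc c q ∧
      ax ((alg v0 g L).exec c e) q = ax c q ∧ ((alg v0 g L).exec c e).busy q = c.busy q ∧
      (e.owner = q → c.busy q = false ∧ e = Event.step q)) ∨
    (e = Event.start q ∧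
      lc ((alg v0 g L).exec c e) q = ⟨(lc c q).ts + 1, true, (lc c q).cnt, (lc c q).rc⟩ ∧
      ax ((alg v0 g L).exec c e) q = ax c q) ∨
    (¬ IsScan c e q ∧ e ≠ Event.start q ∧
      lc ((alg v0 g L).exec c e) q = ⟨(lc c q).ts, false, (lc c q).cnt, (lc c q).rc⟩ ∧
      ax ((alg v0 g L).exec c e) q = ((lc c q).ts, (lc c q).rc) ∧
      (((alg v0 g L).exec c e).busy q = true → c.busy q = true)) ∨
    (IsScan c e q ∧ (lc c q).cnt % 3 = 2 ∧
      lc ((alg v0 g L).exec c e) q = ⟨(lc c q).ts, false, (lc c q).cnt + 1, (lc c q).rc⟩ ∧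
      ax ((alg v0 g L).exec c e) q = ((lc c q).ts, (lc c q).rc)) ∨
    (IsScan c e q ∧ (lc c q).cnt % 3 ≠ 2 ∧
      lc ((alg v0 g L).exec c e) q = ⟨(lc c q).ts, false,
        if (newRec c q).ep = (lc c q).rc.ep then (lc c q).cnt + 1 else 0, newRec c q⟩ ∧
      ax ((alg v0 g L).exec c e) q = ax c q ∧
      (((alg v0 g L).exec c e).busy q = true → (newRec c q).llo q < (lc c q).ts)) := by
  by_cases he : e.owner = q
  swap
  · left
    obtain ⟨_, a2, a3, a4⟩ := Alg.exec_other c he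
    refine ⟨fun h => he (by rw [h.1]; rfl), fun h => he (by rw [h]; rfl), a3, a2, a4,
      fun h => absurd h he⟩
  cases e <;> simp only [Event.owner] at he <;> subst he
  · right; left
    exact ⟨rfl, by simp [lc, Alg.exec, alg], rfl⟩
  · rename_i q
    by_cases hb : c.busy q = true
    swap
    · left
      simp [IsScan, Alg.exec, hb]
    by_cases hf : (lc c q).flag = true
    · right; right; left
      have hf' : (c.loc q).flag = true := hf
      refine ⟨by simp [IsScan, hf], by simp, ?_, ?_, fun _ => hb⟩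
      · simp [lc, Alg.exec, hb, Alg.stepLoc, alg, hf']
      · simp [lc, ax, Alg.exec, hb, Alg.stepAux, alg, hf']
    have hf' : (c.loc q).flag = false := by simpa [lc] using hf
    by_cases h3 : (lc c q).cnt % 3 = 2
    · right; right; right; left
      have h3' : (c.loc q).cnt % 3 = 2 := h3
      refine ⟨⟨rfl, hb, hf'⟩, h3, ?_, ?_⟩
      · simp [lc, Alg.exec, hb, Alg.stepLoc, alg, hf', h3']
      · simp [lc, ax, Alg.exec, hb, Alg.stepAux, alg, h3']
    · right; right; right; right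
      have h3' : ¬ (c.loc q).cnt % 3 = 2 := h3
      refine ⟨⟨rfl, hb, hf'⟩, h3, ?_, ?_, ?_⟩
      · simp [lc, ax, newRec, Alg.exec, hb, Alg.stepLoc, alg, hf', h3']
      · simp [ax, Alg.exec, hb, Alg.stepAux, alg, hf', h3']
      · simp [lc, ax, newRec, Alg.exec, hb, Alg.stepLoc, alg, hf', h3']
  · right; right; left
    refine ⟨by simp [IsScan], by simp, by simp [lc, Alg.exec, alg],
      by simp [lc, ax, Alg.exec, alg], by simp [Alg.exec]⟩

/-- records present in a configuration -/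
def IsRec (c : Config (alg v0 g L)) (ρ : Rec n V) : Prop :=
  ∃ q, ρ = (lc c q).rc ∨ ρ = (ax c q).2

lemma isRec_exec {c : Config (alg v0 g L)} {e : Event n V} {ρ : Rec n V}
    (h : IsRec ((alg v0 g L).exec c e) ρ) :
    IsRec c ρ ∨ ∃ q, IsScan c e q ∧ ρ = newRec c q := by
  obtain ⟨q, h⟩ := h
  rcases effect c e q with ⟨_, _, h1, h2, _⟩ | ⟨_, h1, h2⟩ | ⟨_, _, h1, h2, _⟩ | ⟨_, _, h1, h2⟩ |
    ⟨h0, _, h1, h2, _⟩ <;> rw [h1, h2] at h
  · exact Or.inl ⟨q, h⟩
  · exact Or.inl ⟨q, h⟩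
  · exact Or.inl ⟨q, Or.inl (h.elim id id)⟩
  · exact Or.inl ⟨q, Or.inl (h.elim id id)⟩
  · exact h.elim (fun h => Or.inr ⟨q, h0, h⟩) (fun h => Or.inl ⟨q, Or.inr h⟩)

/-- soundness of a record with respect to timestamps `ts` and acceptable values `ok` -/
structure Sound (ts : Fin n → ℕ) (ok : Fin n → Fin n → Set V) (ρ : Rec n V) : Prop where
  lo : ∀ p, ρ.lo p ≤ ts p
  llo : ∀ p, ρ.llo p ≤ ts p
  ent : ∀ r v τ, ρ.K r = some (v, τ) → τ ≤ ts r ∧ ∀ p, ts p ≤ ρ.lo p → v ∈ ok p r
  last : ∀ p, ts p ≤ ρ.llo p → ∀ r, ρ.lval r ∈ ok p r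

lemma Sound.mono {ts ts' : Fin n → ℕ} {ok ok' : Fin n → Fin n → Set V} {ρ : Rec n V}
    (h : Sound ts ok ρ) (h1 : ∀ p, ts p < ts' p ∨ (ts p = ts' p ∧ ∀ r, ok p r ⊆ ok' p r)) :
    Sound ts' ok' ρ := by
  have h2 : ∀ p, ts p ≤ ts' p := fun p => by rcases h1 p with h | h <;> omega
  refine ⟨fun p => (h.lo p).trans (h2 p), fun p => (h.llo p).trans (h2 p),
    fun r v τ e => ⟨(h.ent r v τ e).1.trans (h2 r), fun p hp => ?_⟩, fun p hp r => ?_⟩
  · have := h.lo p
    rcases h1 p with h3 | h3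
    · omega
    · exact h3.2 r ((h.ent r v τ e).2 p (by omega))
  · have := h.llo p
    rcases h1 p with h3 | h3
    · omega
    · exact h3.2 r (h.last p (by omega) r)

lemma Sound.absorb {ts : Fin n → ℕ} {ok : Fin n → Fin n → Set V} {ρ : Rec n V} {r : Fin n} {v : V}
    {a : ℕ × Rec n V} (h : Sound ts ok ρ) (ha : Sound ts ok a.2) (h1 : a.1 ≤ ts r)
    (h2 : ∀ p, v ∈ ok p r) : Sound ts ok (ρ.absorb r v a) := by
  unfold Rec.absorb
  split_ifs
  · exact ha
  have j : Sound ts ok (ρ.join a.2) := by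
    unfold Rec.join
    split_ifs
    · refine ⟨fun p => (min_le_left _ _).trans (h.lo p), h.llo, fun s w τ e => ?_, h.last⟩
      simp only [Option.or_eq_some_iff] at e
      rcases e with e | ⟨_, e⟩
      · exact ⟨(h.ent s w τ e).1, fun p hp => (h.ent s w τ e).2 p (hp.trans (min_le_left _ _))⟩
      · exact ⟨(ha.ent s w τ e).1, fun p hp => (ha.ent s w τ e).2 p (hp.trans (min_le_right _ _))⟩
    · exact h
  have k : Sound ts ok ((ρ.join a.2).put r (v, a.1)) := by
    refine ⟨j.lo, j.llo, fun s w τ e => ?_, j.last⟩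
    by_cases hs : s = r
    · subst hs
      simp only [Rec.put, Function.update_self, Option.some.injEq, Prod.mk.injEq] at e
      exact ⟨e.2 ▸ h1, fun p _ => e.1 ▸ h2 p⟩
    · simp only [Rec.put, Function.update_of_ne hs] at e
      exact j.ent s w τ e
  rcases Rec.close_cases ((ρ.join a.2).put r (v, a.1)) with ⟨e, _⟩ | ⟨_, _, e1, e2, e3⟩
  · rw [e]; exact k
  · refine ⟨fun p => (k.ent _ _ _ (e3 p)).1, e2 ▸ k.lo, fun s w τ e => by simp [e1] at e,
      fun p hp s => (k.ent _ _ _ (e3 s)).2 p (e2 ▸ hp)⟩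

lemma absorb_ne {ρ : Rec n V} {r : Fin n} {v : V} {a : ℕ × Rec n V} (ha : a.2.dom ≠ univ) :
    (ρ.absorb r v a).dom ≠ univ := by
  unfold Rec.absorb
  split_ifs
  · exact ha
  rcases Rec.close_cases ((ρ.join a.2).put r (v, a.1)) with ⟨e, e'⟩ | ⟨_, _, e1, _⟩
  · rw [e]; exact e'
  · intro h
    have : r ∈ ((ρ.join a.2).put r (v, a.1)).close.dom := h ▸ mem_univ r
    simp [Rec.dom, e1] at this

/-- the basic invariant -/
structure Inv (c : Config (alg v0 g L)) : Prop where
  val : ∀ p r, c.val r ∈ c.ok p r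
  axle : ∀ q, (ax c q).1 ≤ (lc c q).ts
  axeq : ∀ q, (lc c q).flag = false → (ax c q).1 = (lc c q).ts
  sound : ∀ ρ, IsRec c ρ → Sound (fun p => (lc c p).ts) c.ok ρ
  ne : ∀ ρ, IsRec c ρ → ρ.dom = univ → n = 0
  busy : ∀ q, c.busy q = true → (lc c q).rc.llo q < (lc c q).ts
  le : ∀ q e, (ax c q).2.know e ⊆ (lc c q).rc.know e

lemma inv_init : Inv ((alg v0 g L).initial v0) := by
  have h : ∀ ρ, IsRec ((alg v0 g L).initial v0) ρ → ρ = rec0 v0 := by
    rintro ρ ⟨q, h | h⟩ <;> exact h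
  refine ⟨fun _ _ => rfl, fun _ => le_rfl, fun _ _ => rfl, fun ρ hρ => ?_, fun ρ hρ => ?_,
    fun q h => by simp [Alg.initial] at h, fun _ _ => Subset.refl _⟩
  · rw [h ρ hρ]
    exact ⟨fun _ => le_rfl, fun _ => le_rfl, fun r v τ e => by simp [rec0] at e, fun _ _ _ => rfl⟩
  · rw [h ρ hρ]
    intro e
    have : (rec0 v0 : Rec n V).dom = ∅ := by simp [Rec.dom, rec0]
    rw [this] at e
    have := congrArg card e
    simpa using this.symm

lemma Inv.newRec_sound {c : Config (alg v0 g L)} (h : Inv c) (q : Fin n) :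
    Sound (fun p => (lc c p).ts) c.ok (newRec c q) :=
  (h.sound _ ⟨q, Or.inl rfl⟩).absorb (h.sound _ ⟨_, Or.inr rfl⟩) (h.axle _) (fun p => h.val p _)

lemma ok_mono (c : Config (alg v0 g L)) (e : Event n V) (p : Fin n) (he : e ≠ Event.start p)
    (r : Fin n) : c.ok p r ⊆ ((alg v0 g L).exec c e).ok p r := by
  cases e with
  | start q =>
    have : p ≠ q := fun h => he (by rw [h])
    simp [Alg.exec, this]
  | step q => simp only [Alg.exec]; split_ifs <;> exact Set.Subset.refl _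
  | write q v =>
    simp only [Alg.exec]
    split_ifs
    · exact Set.subset_insert _ _
    · exact Set.Subset.refl _

lemma Inv.exec {c : Config (alg v0 g L)} (h : Inv c) (e : Event n V) :
    Inv ((alg v0 g L).exec c e) := by
  refine ⟨fun p r => ?_, fun q => ?_, fun q => ?_, fun ρ hρ => ?_, fun ρ hρ => ?_, fun q => ?_,
    fun q k => ?_⟩
  · cases e with
    | start q =>
      by_cases e : p = q
      · subst e; simp [Alg.exec]
      · simpa [Alg.exec, e] using h.val p r
    | step q => simp only [Alg.exec]; split_ifs <;> exact h.val p r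
    | write q v =>
      by_cases e : r = q
      · subst e; simp [Alg.exec]
      · simpa [Alg.exec, e] using h.val p r
  · have := h.axle q
    rcases effect c e q with ⟨_, _, h1, h2, _⟩ | ⟨_, h1, h2⟩ | ⟨_, _, h1, h2, _⟩ | ⟨_, _, h1, h2⟩ |
      ⟨h0, _, h1, h2, _⟩ <;> rw [h1, h2] <;> (try simp only) <;> omega
  · have := h.axeq q
    rcases effect c e q with ⟨_, _, h1, h2, _⟩ | ⟨_, h1, h2⟩ | ⟨_, _, h1, h2, _⟩ | ⟨_, _, h1, h2⟩ |
      ⟨h0, _, h1, h2, _⟩ <;> rw [h1, h2]
    · exact this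
    · simp
    · simp
    · simp
    · exact fun _ => this h0.2.2
  · have h0 : Sound (fun p => (lc c p).ts) c.ok ρ := by
      rcases isRec_exec hρ with h1 | ⟨q, _, rfl⟩
      · exact h.sound ρ h1
      · exact h.newRec_sound q
    refine h0.mono fun p => ?_
    rcases effect c e p with ⟨_, h0, h1, _⟩ | ⟨_, h1, h2⟩ | ⟨_, h0, h1, _⟩ | ⟨h0, _, h1, h2⟩ |
      ⟨h0, _, h1, h2, _⟩ <;> simp only [h1]
    · exact Or.inr ⟨trivial, ok_mono c e p h0⟩
    · exact Or.inl (Nat.lt_succ_self _)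
    · exact Or.inr ⟨trivial, ok_mono c e p h0⟩
    · exact Or.inr ⟨trivial, ok_mono c e p (by rw [h0.1]; simp)⟩
    · exact Or.inr ⟨trivial, ok_mono c e p (by rw [h0.1]; simp)⟩
  · rcases isRec_exec hρ with h1 | ⟨q, _, rfl⟩
    · exact h.ne ρ h1
    · intro hd
      by_contra hn
      exact absorb_ne (fun h' => hn (h.ne _ ⟨_, Or.inr rfl⟩ h')) hd
  · have := h.busy q
    have h5 := (h.sound _ ⟨q, Or.inl rfl⟩).llo q
    rcases effect c e q with ⟨_, _, h1, h2, h3, _⟩ | ⟨_, h1, h2⟩ | ⟨_, _, h1, h2, h3⟩ |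
      ⟨h0, _, h1, h2⟩ | ⟨h0, _, h1, h2, h3⟩ <;> rw [h1]
    · rw [h3]; exact this
    · exact fun _ => Nat.lt_succ_of_le h5
    · exact fun hb => this (h3 hb)
    · exact fun _ => this h0.2.1
    · exact h3
  · have := h.le q k
    rcases effect c e q with ⟨_, _, h1, h2, _⟩ | ⟨_, h1, h2⟩ | ⟨_, _, h1, h2, _⟩ | ⟨_, _, h1, h2⟩ |
      ⟨h0, _, h1, h2, _⟩ <;> rw [h1, h2]
    · exact this
    · exact this
    · exact this.trans ((Rec.absorb_know _ _ _ _).2.1 k)

lemma inv_run (σ : List (Event n V)) : Inv ((alg v0 g L).run v0 σ) := by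
  induction σ using List.reverseRecOn with
  | nil => exact inv_init
  | append_singleton σ e ih => rw [Alg.run_snoc]; exact ih.exec e

theorem alg_correct : (alg v0 g L).Correct v0 := by
  intro σ p X hb hX r
  have h := inv_run (v0 := v0) (g := g) (L := L) (σ ++ [Event.step p])
  rw [Alg.run_snoc] at h
  have h1 := (h.sound _ ⟨p, Or.inl rfl⟩).last p
  have e1 : lc ((alg v0 g L).exec ((alg v0 g L).run v0 σ) (Event.step p)) p
      = (alg v0 g L).stepLoc ((alg v0 g L).run v0 σ) p := by simp [lc, Alg.exec, hb]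
  have e2 : ((alg v0 g L).exec ((alg v0 g L).run v0 σ) (Event.step p)).ok
      = ((alg v0 g L).run v0 σ).ok := by simp [Alg.exec, hb]
  simp only [e1, e2] at h1
  generalize (alg v0 g L).stepLoc ((alg v0 g L).run v0 σ) p = S at h1 hX
  simp only [alg] at hX
  split_ifs at hX with h2
  rw [← Option.some.inj hX]
  exact h1 h2 r

lemma flag_fresh (σ : List (Event n V)) (q : Fin n) :
    (lc ((alg v0 g L).run v0 σ) q).flag = true → Fresh σ q := by
  induction σ using List.reverseRecOn with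
  | nil => intro h; simp [Alg.run, Alg.initial, lc, alg] at h
  | append_singleton σ e ih =>
    rw [Alg.run_snoc]
    rcases effect ((alg v0 g L).run v0 σ) e q with ⟨_, _, h1, _, _, h3⟩ | ⟨h0, h1, h2⟩ |
      ⟨_, _, h1, _⟩ | ⟨_, _, h1, _⟩ | ⟨_, _, h1, _⟩ <;> rw [h1]
    · intro hf
      obtain ⟨α, β, rfl, hβ⟩ := ih hf
      refine ⟨α, β ++ [e], by simp, fun e' he' => ?_⟩
      rcases List.mem_append.1 he' with h | h
      · exact hβ e' h
      · rw [List.mem_singleton.1 h]
        intro ho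
        have := Alg.Fresh_busy (A := alg v0 g L) (v0 := v0) ⟨α, β, rfl, hβ⟩
        rw [(h3 ho).1] at this
        exact absurd this (by simp)
    · exact fun _ => ⟨σ, [], by simp [h0], by simp⟩
    all_goals simp

end Pool.Agent.P.MP_7e7371_lc
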