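import Pool.Agent.P.MP_7e7371_lc.Defs

/-! Lower bound for any correct algorithm: a collect needs reads of all other registers. -/

namespace Pool.Agent.P.MP_7e7371_lc

open Finset

variable {n : ℕ} {V : Type}

/-- the process an event belongs to -/
def Event.owner : Event n V → Fin n
  | Event.start p => p
  | Event.step p => p
  | Event.write p _ => p

/-- the last event of `p` in `σ` is a start -/
def Fresh (σ : List (Event n V)) (p : Fin n) : Prop :=
  ∃ α β, σ = α ++ Event.start p :: β ∧ ∀ e ∈ β, e.owner ≠ p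

namespace Alg

variable (A : Alg n V)

lemma run_append (v0 : V) (σ γ : List (Event n V)) :
    A.run v0 (σ ++ γ) = γ.foldl A.exec (A.run v0 σ) := by simp [run]

lemma run_snoc (v0 : V) (σ : List (Event n V)) (e : Event n V) :
    A.run v0 (σ ++ [e]) = A.exec (A.run v0 σ) e := by simp [run]

lemma costFrom_append (σ γ : List (Event n V)) : ∀ c,
    A.costFrom c (σ ++ γ) = A.costFrom c σ + A.costFrom (σ.foldl A.exec c) γ := by
  induction σ with
  | nil => intro c; simp [costFrom]
  | cons e σ ih => intro c; simp [costFrom, ih, add_assoc]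

lemma costFrom_snoc (σ : List (Event n V)) (e : Event n V) (c : Config A) :
    A.costFrom c (σ ++ [e]) = A.costFrom c σ + A.charge (σ.foldl A.exec c) e := by
  simp [costFrom_append, costFrom]

lemma seqFrom_append (σ γ : List (Event n V)) : ∀ c,
    A.SeqFrom c (σ ++ γ) ↔ A.SeqFrom c σ ∧ A.SeqFrom (σ.foldl A.exec c) γ := by
  induction σ with
  | nil => intro c; simp [SeqFrom]
  | cons e σ ih => intro c; simp [SeqFrom, ih, and_assoc]

lemma seq_append (v0 : V) (σ γ : List (Event n V)) :
    A.Seq v0 (σ ++ γ) ↔ A.Seq v0 σ ∧ A.SeqFrom (A.run v0 σ) γ := A.seqFrom_append σ γ _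

lemma charge_le (c : Config A) (e : Event n V) : A.charge c e ≤ 1 := by
  cases e <;> simp [charge]
  split_ifs <;> simp

/-- the register read by an event, if any -/
def rd (c : Config A) : Event n V → Finset (Fin n)
  | Event.step p => if c.busy p then (match A.next p (c.loc p) with
      | Sum.inl r => {r}
      | Sum.inr _ => ∅) else ∅
  | _ => ∅

/-- registers read along a schedule -/
def reads : Config A → List (Event n V) → Finset (Fin n)
  | _, [] => ∅
  | c, e :: σ => A.rd c e ∪ reads (A.exec c e) σ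

lemma card_reads (σ : List (Event n V)) : ∀ c, (A.reads c σ).card ≤ A.costFrom c σ := by
  induction σ with
  | nil => intro c; simp [reads]
  | cons e σ ih =>
    intro c
    refine (card_union_le _ _).trans (Nat.add_le_add ?_ (ih _))
    cases e <;> simp only [rd, charge, card_empty, le_refl]
    split_ifs
    · split <;> simp
    · simp

lemma reads_append (σ γ : List (Event n V)) : ∀ c,
    A.reads c (σ ++ γ) = A.reads c σ ∪ A.reads (σ.foldl A.exec c) γ := by
  induction σ with
  | nil => intro c; simp [reads]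
  | cons e σ ih => intro c; simp [reads, ih]

/-- equality of two configurations away from process `r` -/
def Agree (r : Fin n) (c c' : Config A) : Prop :=
  ∀ q, q ≠ r → c.loc q = c'.loc q ∧ c.val q = c'.val q ∧ c.aux q = c'.aux q ∧ c.busy q = c'.busy q

variable {A}

lemma Agree.own {r : Fin n} (c : Config A) {e : Event n V} (he : e.owner = r) :
    A.Agree r (A.exec c e) c := by
  intro q hq
  cases e <;> simp only [Event.owner] at he <;> subst he <;> simp only [exec]
  · simp [hq]
  · split_ifs <;> simp [hq]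
  · simp [hq]

lemma Agree.trans {r : Fin n} {c c' c'' : Config A} (h : A.Agree r c c') (h' : A.Agree r c' c'') :
    A.Agree r c c'' := by
  intro q hq
  obtain ⟨a1, a2, a3, a4⟩ := h q hq
  obtain ⟨b1, b2, b3, b4⟩ := h' q hq
  exact ⟨a1.trans b1, a2.trans b2, a3.trans b3, a4.trans b4⟩

lemma Agree.symm {r : Fin n} {c c' : Config A} (h : A.Agree r c c') : A.Agree r c' c := by
  intro q hq
  obtain ⟨a1, a2, a3, a4⟩ := h q hq
  exact ⟨a1.symm, a2.symm, a3.symm, a4.symm⟩

lemma Agree.stepLoc {r p : Fin n} {c c' : Config A} (h : A.Agree r c c') (hp : p ≠ r)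
    (hb : c.busy p = true) (hr : r ∉ A.rd c (Event.step p)) :
    A.stepLoc c p = A.stepLoc c' p ∧ A.stepAux c p = A.stepAux c' p := by
  obtain ⟨a1, _, a3, _⟩ := h p hp
  simp only [rd, hb, if_true] at hr
  unfold Alg.stepLoc Alg.stepAux
  rw [← a1, ← a3]
  cases e : A.next p (c.loc p) with
  | inl s =>
    rw [e] at hr
    have hs : s ≠ r := fun h => hr (by simp [h])
    obtain ⟨_, b2, b3, _⟩ := h s hs
    simp [b2, b3]
  | inr a => simp

lemma Agree.exec {r : Fin n} {c c' : Config A} (h : A.Agree r c c') {e : Event n V}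
    (he : e.owner ≠ r) (hr : r ∉ A.rd c e) : A.Agree r (A.exec c e) (A.exec c' e) := by
  intro q hq
  obtain ⟨a1, a2, a3, a4⟩ := h q hq
  obtain ⟨b1, b2, b3, b4⟩ := h _ he
  cases e with
  | start p =>
    simp only [Event.owner] at b1
    by_cases e : q = p
    · subst e; simp [Alg.exec, a1, a2, a3]
    · simp [Alg.exec, e, a1, a2, a3, a4]
  | step p =>
    simp only [Event.owner] at b4 he
    by_cases hb : c.busy p = true
    · obtain ⟨e1, e2⟩ := h.stepLoc he hb hr
      have hb' : c'.busy p = true := b4 ▸ hb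
      by_cases e : q = p
      · subst e; simp [Alg.exec, hb, hb', a2, e1, e2]
      · simp [Alg.exec, hb, hb', e, a1, a2, a3, a4]
    · have hb' : ¬ c'.busy p = true := b4 ▸ hb
      simp [Alg.exec, hb, hb', a1, a2, a3, a4]
  | write p v =>
    by_cases e : q = p
    · subst e; simp [Alg.exec, a1, a4]
    · simp [Alg.exec, e, a1, a2, a3, a4]

lemma Agree.allowed {r : Fin n} {c c' : Config A} (h : A.Agree r c c') {e : Event n V}
    (he : e.owner ≠ r) (ha : A.Allowed c e) : A.Allowed c' e := by
  obtain ⟨_, _, _, b4⟩ := h _ he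
  cases e <;> simp_all [Allowed, Event.owner]

lemma sim (r : Fin n) (γ : List (Event n V)) : ∀ c c' : Config A, A.Agree r c c' →
    r ∉ A.reads c γ → A.Agree r (γ.foldl A.exec c)
      ((γ.filter (fun e => decide (e.owner ≠ r))).foldl A.exec c') ∧
    (A.SeqFrom c γ → A.SeqFrom c' (γ.filter (fun e => decide (e.owner ≠ r)))) := by
  induction γ with
  | nil => intro c c' h _; exact ⟨h, fun _ => trivial⟩
  | cons e γ ih =>
    intro c c' h hr
    simp only [reads, mem_union, not_or] at hr
    by_cases he : e.owner = r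
    · rw [List.filter_cons_of_neg (by simp [he])]
      obtain ⟨h1, h2⟩ := ih _ c' ((Agree.own c he).trans h) hr.2
      exact ⟨h1, fun hs => h2 hs.2⟩
    · rw [List.filter_cons_of_pos (by simp [he])]
      obtain ⟨h1, h2⟩ := ih _ _ (h.exec he hr.1) hr.2
      exact ⟨h1, fun hs => ⟨h.allowed he hs.1, h2 hs.2⟩⟩

lemma frozen (r p : Fin n) (v : V) (γ : List (Event n V)) (hγ : ∀ e ∈ γ, e.owner ≠ r) :
    ∀ c : Config A, c.val r = v → c.ok p r ⊆ {v} → (γ.foldl A.exec c).ok p r ⊆ {v} := by
  induction γ with
  | nil => intro c _ h; exact h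
  | cons e γ ih =>
    intro c h1 h2
    have he := hγ e (by simp)
    refine ih (fun e he => hγ e (by simp [he])) _ ?_ ?_
    · cases e <;> simp only [Event.owner] at he <;> simp only [exec]
      · exact h1
      · split_ifs <;> exact h1
      · simp [Ne.symm he, h1]
    · cases e with
      | start q =>
        by_cases e : p = q
        · subst e; simp [exec, h1]
        · simpa [exec, e] using h2
      | step q => simp only [exec]; split_ifs <;> exact h2
      | write q w =>
        simp only [Event.owner] at he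
        simpa [exec, Ne.symm he] using h2

/-- `c` is `c'` with a start of `p` already performed -/
def Ahead (p : Fin n) (c c' : Config A) : Prop :=
  A.Agree p c c' ∧ c.val p = c'.val p ∧ c.aux p = c'.aux p ∧
    c.loc p = A.onStart p (c'.loc p) ∧ c.busy p = true

lemma exec_other (c : Config A) {e : Event n V} {p : Fin n} (he : e.owner ≠ p) :
    (A.exec c e).val p = c.val p ∧ (A.exec c e).aux p = c.aux p ∧
      (A.exec c e).loc p = c.loc p ∧ (A.exec c e).busy p = c.busy p := by
  obtain ⟨a1, a2, a3, a4⟩ := Agree.own c (rfl : e.owner = e.owner) p (Ne.symm he)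
  exact ⟨a2, a3, a1, a4⟩

lemma Ahead.exec {p : Fin n} {c c' : Config A} (h : Ahead p c c') {e : Event n V}
    (he : e.owner ≠ p) : Ahead p (A.exec c e) (A.exec c' e) := by
  obtain ⟨h1, h2, h3, h4, h5⟩ := h
  obtain ⟨a1, a2, a3, a4⟩ := exec_other c he
  obtain ⟨b1, b2, b3, b4⟩ := exec_other c' he
  refine ⟨?_, by rw [a1, b1, h2], by rw [a2, b2, h3], by rw [a3, b3, h4], by rw [a4, h5]⟩
  by_cases hr : p ∉ A.rd c e
  · exact h1.exec he hr
  · cases e with
    | start q => simp [rd] at hr
    | write q w => simp [rd] at hr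
    | step q =>
      simp only [Event.owner] at he
      obtain ⟨d1, d2, d3, d4⟩ := h1 q he
      have hb : c.busy q = true := by
        by_contra hb
        simp [rd, hb] at hr
      have hb' : c'.busy q = true := d4 ▸ hb
      have hn : A.next q (c.loc q) = Sum.inl p := by
        simp only [rd, hb, if_true, not_not] at hr
        cases e : A.next q (c.loc q) with
        | inl s => rw [e] at hr; simp at hr; rw [hr]
        | inr s => rw [e] at hr; simp at hr
      have e1 : A.stepLoc c q = A.stepLoc c' q := by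
        unfold stepLoc; rw [← d1, hn]; simp [h2, h3]
      have e2 : A.stepAux c q = A.stepAux c' q := by
        unfold stepAux; rw [← d1, hn]; simp [d3]
      intro s hs
      obtain ⟨f1, f2, f3, f4⟩ := h1 s hs
      by_cases e : s = q
      · subst e; simp [Alg.exec, hb, hb', f2, e1, e2]
      · simp [Alg.exec, hb, hb', e, f1, f2, f3, f4]

lemma ahead_fold (p : Fin n) (β : List (Event n V)) (hβ : ∀ e ∈ β, e.owner ≠ p) :
    ∀ c c' : Config A, Ahead p c c' → Ahead p (β.foldl A.exec c) (β.foldl A.exec c') ∧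
      (β.foldl A.exec c').busy p = c'.busy p ∧ (A.SeqFrom c β → A.SeqFrom c' β) := by
  induction β with
  | nil => intro c c' h; exact ⟨h, rfl, fun _ => trivial⟩
  | cons e β ih =>
    intro c c' h
    have he := hβ e (by simp)
    obtain ⟨h1, h2, h3⟩ := ih (fun e he => hβ e (by simp [he])) _ _ (h.exec he)
    exact ⟨h1, h2.trans (exec_other c' he).2.2.2, fun hs => ⟨h.1.allowed he hs.1, h3 hs.2⟩⟩

lemma fold_own (r : Fin n) (δ : List (Event n V)) (hδ : ∀ e ∈ δ, e.owner = r) :
    ∀ c : Config A, A.Agree r (δ.foldl A.exec c) c := by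
  induction δ with
  | nil => intro c q _; simp
  | cons e δ ih =>
    intro c
    exact (ih (fun e he => hδ e (by simp [he])) _).trans (Agree.own c (hδ e (by simp)))

lemma seqFrom_steps (r : Fin n) (k : ℕ) :
    ∀ c : Config A, A.SeqFrom c (List.replicate k (Event.step r)) := by
  induction k with
  | zero => intro c; trivial
  | succ k ih => intro c; exact ⟨trivial, ih _⟩

variable (A)

/-- `A` may serve as champion on `σ` -/
def Champ (v0 : V) (σ : List (Event n V)) : Prop :=
  A.Correct v0 ∨ (A.SeqCorrect v0 ∧ A.Seq v0 σ)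

variable {A}

lemma Champ.init {v0 : V} {σ γ : List (Event n V)} (h : A.Champ v0 (σ ++ γ)) : A.Champ v0 σ :=
  h.imp id fun h => ⟨h.1, ((A.seq_append v0 σ γ).1 h.2).1⟩

lemma Fresh_busy {v0 : V} {σ : List (Event n V)} {p : Fin n} (hF : Fresh σ p) :
    (A.run v0 σ).busy p = true := by
  obtain ⟨α, β, rfl, hβ⟩ := hF
  rw [run_append]
  refine (ahead_fold p β hβ (A.exec (A.run v0 α) (Event.start p)) (A.run v0 α)
    ⟨Agree.own _ rfl, ?_⟩).1.2.2.2.2
  simp [exec]

lemma no_quick [Nontrivial V] {v0 : V} {σ γ : List (Event n V)} {p : Fin n}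
    (hB : A.Champ v0 (σ ++ γ)) (hF : Fresh σ p)
    (hc : A.costFrom (A.run v0 σ) (γ ++ [Event.step p]) + 1 < n)
    (hb : (A.run v0 (σ ++ γ)).busy p = true) :
    A.ret p (A.stepLoc (A.run v0 (σ ++ γ)) p) = none := by
  by_contra hX
  obtain ⟨X, hX⟩ := Option.ne_none_iff_exists'.1 hX
  obtain ⟨r, hr⟩ : ∃ r, r ∉ insert p (A.reads (A.run v0 σ) (γ ++ [Event.step p])) := by
    by_contra h
    push Not at h
    have h1 := card_le_card (show univ ⊆ _ from fun r _ => h r)
    have h2 := card_insert_le p (A.reads (A.run v0 σ) (γ ++ [Event.step p]))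
    have h3 := A.card_reads (γ ++ [Event.step p]) (A.run v0 σ)
    rw [card_univ, Fintype.card_fin] at h1
    omega
  rw [mem_insert, not_or, reads_append, mem_union, not_or, ← run_append] at hr
  obtain ⟨hrp, hr1, hr2⟩ := hr
  simp only [reads, union_empty] at hr2
  obtain ⟨v, hv⟩ := exists_ne (X r)
  obtain ⟨α, β, rfl, hβ⟩ := hF
  obtain ⟨g1, g2, g3⟩ := ahead_fold p β hβ (A.exec (A.run v0 α) (Event.start p)) (A.run v0 α)
    ⟨Agree.own _ rfl, by simp [exec]⟩
  rw [← run_append] at g1 g2
  have e0 : β.foldl A.exec (A.exec (A.run v0 α) (Event.start p))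
      = A.run v0 (α ++ Event.start p :: β) := by rw [run_append]; rfl
  rw [e0] at g1
  have main : ∀ k, ∃ σ', (A.FreshAfter v0 σ' → False) ∧
      (A.Seq v0 (α ++ Event.start p :: β ++ γ) →
        (A.run v0 (α ++ β ++ List.replicate k (Event.step r))).busy r = false → A.Seq v0 σ') := by
    intro k
    set c1 := A.run v0 (α ++ β ++ List.replicate k (Event.step r)) with hc1
    have a1 : A.Agree r c1 (A.run v0 (α ++ β)) := by
      rw [hc1, run_append]
      exact fold_own r _ (fun e he => by rw [List.eq_of_mem_replicate he]; rfl) _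
    set c2 := A.exec (A.exec c1 (Event.write r v)) (Event.start p) with hc2
    have a2 : A.Agree r (A.run v0 (α ++ Event.start p :: β)) c2 := by
      intro q hq
      obtain ⟨b1, b2, b3, b4⟩ := a1 q hq
      by_cases e : q = p
      · subst e
        obtain ⟨_, d1, d2, d3, d4⟩ := g1
        simp [hc2, exec, hq, b1, b2, b3, d1, d2, d3, d4]
      · obtain ⟨d1, d2, d3, d4⟩ := g1.1 q e
        simp [hc2, exec, hq, e, b1, b2, b3, b4, d1, d2, d3, d4]
    obtain ⟨s1, s2⟩ := sim r γ _ _ a2 hr1
    rw [← run_append] at s1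
    have e1 : A.run v0 (α ++ β ++ List.replicate k (Event.step r) ++
        [Event.write r v, Event.start p]) = c2 := by rw [run_append]; rfl
    refine ⟨α ++ β ++ List.replicate k (Event.step r) ++ [Event.write r v, Event.start p] ++
      γ.filter (fun e => decide (e.owner ≠ r)), fun hf => ?_, fun hs hk => ?_⟩
    · unfold FreshAfter at hf
      rw [run_append, e1] at hf
      have h1 := hf p X ((s1 p (Ne.symm hrp)).2.2.2 ▸ hb)
        ((s1.stepLoc (Ne.symm hrp) hb hr2).1 ▸ hX) r
      have h2 := frozen r p v (γ.filter (fun e => decide (e.owner ≠ r)))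
        (fun e he => by simpa using (List.mem_filter.1 he).2) c2 (by simp [hc2, exec])
        (by simp [hc2, exec]) h1
      exact hv (Set.mem_singleton_iff.1 h2).symm
    · rw [seq_append, seq_append] at hs
      obtain ⟨⟨t1, t2, t3⟩, t4⟩ := hs
      rw [seq_append, seq_append, seq_append, seq_append, e1]
      refine ⟨⟨⟨⟨t1, g3 t3⟩, seqFrom_steps _ _ _⟩, hk, ?_, trivial⟩, s2 t4⟩
      have b4 := (a1 p (Ne.symm hrp)).2.2.2
      simp only [Allowed] at t2 ⊢
      simp only [exec]
      rw [← hc1, b4, g2, t2]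
  rcases hB with hB | ⟨hB, hs⟩
  · obtain ⟨σ', h, _⟩ := main 0
    exact h (hB σ')
  · have hs' : A.Seq v0 (α ++ β) := by
      rw [seq_append, seq_append] at hs
      exact (A.seq_append v0 _ _).2 ⟨hs.1.1, g3 hs.1.2.2⟩
    obtain ⟨k, hk⟩ := (hB _ hs').2 r
    obtain ⟨σ', h, h'⟩ := main k
    exact h (hB σ' (h' hs hk)).1

lemma busy_of_fresh [Nontrivial V] {v0 : V} {σ : List (Event n V)} {p : Fin n} (hF : Fresh σ p)
    (γ : List (Event n V)) : A.Champ v0 (σ ++ γ) → A.costFrom (A.run v0 σ) γ + 1 < n →
    (A.run v0 (σ ++ γ)).busy p = true := by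
  induction γ using List.reverseRecOn with
  | nil => intro _ _; rw [List.append_nil]; exact Fresh_busy hF
  | append_singleton γ e ih =>
    intro hB hc
    rw [← List.append_assoc] at hB ⊢
    have hb := ih hB.init (by rw [costFrom_snoc] at hc; omega)
    rw [run_snoc]
    by_cases he : e.owner = p
    · cases e <;> simp only [Event.owner] at he <;> subst he
      · simp [exec]
      · simp [exec, hb, no_quick hB.init hF hc hb]
      · simp [exec, hb]
    · rw [(exec_other _ he).2.2.2, hb]

theorem busy_of_new [Nontrivial V] {v0 : V} {σ γ : List (Event n V)} {p : Fin n}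
    (hF : Fresh σ p ∨ Event.start p ∈ γ) (hB : A.Champ v0 (σ ++ γ))
    (hc : A.costFrom (A.run v0 σ) γ + 1 < n) : (A.run v0 (σ ++ γ)).busy p = true := by
  rcases hF with hF | hF
  · exact busy_of_fresh hF γ hB hc
  · obtain ⟨γ1, γ2, rfl⟩ := List.append_of_mem hF
    have e : σ ++ (γ1 ++ Event.start p :: γ2) = (σ ++ γ1 ++ [Event.start p]) ++ γ2 := by simp
    rw [e] at hB ⊢
    refine busy_of_fresh ⟨σ ++ γ1, [], rfl, by simp⟩ γ2 hB ?_
    rw [costFrom_append] at hc
    simp only [costFrom] at hc
    rw [run_snoc, run_append]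
    omega

end Alg

end Pool.Agent.P.MP_7e7371_lc
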