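import Mathlib

/-! Counting lemmas (union bounds). -/

namespace Pool.Agent.P.MP_7e7371_lc

open Finset

lemma card_forall_mem {ι Ω : Type} [Fintype ι] [Fintype Ω] [DecidableEq ι] [DecidableEq Ω]
    (P : Finset ι) (Z : Finset Ω) (p : ℝ) (hp : (Z.card : ℝ) ≤ p * Fintype.card Ω) :
    ((univ.filter (fun f : ι → Ω => ∀ k ∈ P, f k ∈ Z)).card : ℝ)
      ≤ p ^ P.card * (Fintype.card Ω : ℝ) ^ Fintype.card ι := by
  have e : univ.filter (fun f : ι → Ω => ∀ k ∈ P, f k ∈ Z)
      = Fintype.piFinset (fun k => if k ∈ P then Z else univ) := by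
    ext f
    simp only [mem_filter, mem_univ, true_and, Fintype.mem_piFinset]
    constructor
    · intro h k
      split_ifs with hk
      · exact h k hk
      · exact mem_univ _
    · intro h k hk
      simpa [hk] using h k
  rw [e, Fintype.card_piFinset]
  push_cast
  calc ∏ k, (((if k ∈ P then Z else univ).card : ℕ) : ℝ)
      ≤ ∏ k, ((if k ∈ P then p else 1) * (Fintype.card Ω : ℝ)) := by
        refine prod_le_prod (fun _ _ => Nat.cast_nonneg _) fun k _ => ?_
        split_ifs
        · exact hp
        · simp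
    _ = p ^ P.card * (Fintype.card Ω : ℝ) ^ Fintype.card ι := by
        rw [prod_mul_distrib, prod_const, card_univ, prod_ite_mem, univ_inter, prod_const]

lemma exists_good {n : ℕ} {Ω J : Type} [Fintype Ω] [Nonempty Ω] [DecidableEq Ω]
    (Js : Finset J) (Bad : J → Finset Ω) (x : J → ℕ) (p : J → ℝ)
    (hp : ∀ j ∈ Js, ((Bad j).card : ℝ) ≤ p j * Fintype.card Ω)
    (hsum : ∑ j ∈ Js, (n.choose (x j) : ℝ) * p j ^ x j < 1) :
    ∃ F : Fin n → Ω, ∀ j ∈ Js, (univ.filter (fun q => F q ∈ Bad j)).card < x j := by
  classical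
  by_contra h
  push Not at h
  have h1 : (univ : Finset (Fin n → Ω)) ⊆ Js.biUnion (fun j =>
      (powersetCard (x j) (univ : Finset (Fin n))).biUnion (fun X =>
        univ.filter (fun f : Fin n → Ω => ∀ k ∈ X, f k ∈ Bad j))) := by
    intro F _
    obtain ⟨j, hj, hc⟩ := h F
    obtain ⟨X, hX, hXc⟩ := exists_subset_card_eq hc
    refine mem_biUnion.2 ⟨j, hj, mem_biUnion.2 ⟨X, mem_powersetCard.2 ⟨subset_univ _, hXc⟩, ?_⟩⟩
    exact mem_filter.2 ⟨mem_univ _, fun k hk => (mem_filter.1 (hX hk)).2⟩
  have h2 := (card_le_card h1).trans card_biUnion_le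
  have hN : (0 : ℝ) < (Fintype.card Ω : ℝ) ^ n := pow_pos (by exact_mod_cast Fintype.card_pos) _
  have h3 : ((Fintype.card Ω : ℝ)) ^ n ≤ ∑ j ∈ Js, (n.choose (x j) : ℝ) * p j ^ x j
      * (Fintype.card Ω : ℝ) ^ n := by
    calc ((Fintype.card Ω : ℝ)) ^ n = ((univ : Finset (Fin n → Ω)).card : ℝ) := by simp
      _ ≤ _ := Nat.cast_le.2 h2
      _ ≤ _ := by
        rw [Nat.cast_sum]
        refine sum_le_sum fun j hj => ?_
        refine le_trans (Nat.cast_le.2 card_biUnion_le) ?_
        push_cast
        calc _ ≤ ∑ X ∈ powersetCard (x j) (univ : Finset (Fin n)),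
              p j ^ x j * (Fintype.card Ω : ℝ) ^ n := by
              refine sum_le_sum fun X hX => ?_
              have := card_forall_mem X (Bad j) (p j) (hp j hj)
              rw [(mem_powersetCard.1 hX).2, Fintype.card_fin] at this
              exact le_trans (le_of_eq (by congr)) this
          _ = _ := by
              rw [sum_const, card_powersetCard, card_univ, Fintype.card_fin, nsmul_eq_mul,
                mul_assoc]
  rw [← sum_mul] at h3
  nlinarith

lemma card_small_sets (n y : ℕ) (s : ℝ) (hs : 1 ≤ s) :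
    (((univ : Finset (Finset (Fin n))).filter (fun T => T.card ≤ y)).card : ℝ)
      ≤ s ^ y * Real.exp (n / s) := by
  have hs0 : 0 < s := by linarith
  have h1 : ∑ T : Finset (Fin n), (1 / s) ^ T.card = (1 / s + 1) ^ n := by
    have := Finset.sum_pow_mul_eq_add_pow (1 / s) 1 (univ : Finset (Fin n))
    simpa using this
  have h2 : (1 / s + 1) ^ n ≤ Real.exp (n / s) := by
    calc (1 / s + 1) ^ n ≤ (Real.exp (1 / s)) ^ n :=
          pow_le_pow_left₀ (by positivity) (Real.add_one_le_exp _) _
      _ = _ := by rw [← Real.exp_nat_mul]; congr 1; ring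
  calc _ = ∑ T ∈ (univ : Finset (Finset (Fin n))).filter (fun T => T.card ≤ y), (1 : ℝ) := by simp
    _ ≤ ∑ T ∈ (univ : Finset (Finset (Fin n))).filter (fun T => T.card ≤ y),
          s ^ y * (1 / s) ^ T.card := by
        refine sum_le_sum fun T hT => ?_
        rw [one_div, inv_pow, ← div_eq_mul_inv, le_div_iff₀ (by positivity), one_mul]
        exact pow_le_pow_right₀ hs (mem_filter.1 hT).2
    _ ≤ ∑ T : Finset (Fin n), s ^ y * (1 / s) ^ T.card :=
        sum_le_sum_of_subset_of_nonneg (filter_subset _ _) (fun _ _ _ => by positivity)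
    _ ≤ _ := by rw [← mul_sum, h1]; gcongr

lemma choose_le (n y : ℕ) (s : ℝ) (hs : 1 ≤ s) :
    (n.choose y : ℝ) ≤ s ^ y * Real.exp (n / s) := by
  refine le_trans ?_ (card_small_sets n y s hs)
  have : n.choose y = (powersetCard y (univ : Finset (Fin n))).card := by simp
  rw [this]
  refine Nat.cast_le.2 (card_le_card fun T hT => mem_filter.2 ⟨mem_univ _, ?_⟩)
  exact (mem_powersetCard.1 hT).2.le

/-- the first `s` entries of `l` lying in `T` -/
def hits {n : ℕ} (l : List (Fin n)) (s : ℕ) (T : Finset (Fin n)) : Finset (Fin n) :=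
  ((l.filter (fun r => decide (r ∈ T))).take s).toFinset

lemma card_avoid {n : ℕ} (T Y : Finset (Fin n)) (hY : Y ⊆ T) (hT : 0 < T.card) :
    ∀ (k s : ℕ), ((univ.filter (fun f : Fin k → Fin n =>
      Disjoint (hits (List.ofFn f) s T) Y)).card : ℝ)
      ≤ ((1 - (Y.card : ℝ) / T.card) ^ s + (1 - (Y.card : ℝ) / n) ^ k) * (n : ℝ) ^ k := by
  have hyu : (Y.card : ℝ) ≤ T.card := by exact_mod_cast card_le_card hY
  have hun : (T.card : ℝ) ≤ n := by exact_mod_cast (by simpa using card_le_univ T)
  have hu : (0 : ℝ) < T.card := by exact_mod_cast hT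
  have hn : (0 : ℝ) < n := by linarith
  have ha : 0 ≤ 1 - (Y.card : ℝ) / T.card := by rw [sub_nonneg, div_le_one hu]; exact hyu
  have hb : 0 ≤ 1 - (Y.card : ℝ) / n := by rw [sub_nonneg, div_le_one hn]; linarith
  have triv : ∀ (k s : ℕ), ((univ.filter (fun f : Fin k → Fin n =>
      Disjoint (hits (List.ofFn f) s T) Y)).card : ℝ) ≤ (n : ℝ) ^ k := by
    intro k s
    have := card_le_univ (univ.filter (fun f : Fin k → Fin n =>
      Disjoint (hits (List.ofFn f) s T) Y))
    simp only [Fintype.card_pi, Fintype.card_fin, prod_const, card_univ] at this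
    exact_mod_cast this
  intro k
  induction k with
  | zero =>
    intro s
    refine (triv 0 s).trans ?_
    have := pow_nonneg ha s
    simp only [pow_zero]
    linarith
  | succ k ih =>
    intro s
    cases s with
    | zero =>
      refine (triv _ 0).trans ?_
      have := pow_nonneg hb (k + 1)
      have := pow_pos hn (k + 1)
      simp only [pow_zero]
      nlinarith
    | succ s =>
      set N : ℕ → ℝ := fun s => ((univ.filter (fun f : Fin k → Fin n =>
        Disjoint (hits (List.ofFn f) s T) Y)).card : ℝ) with hN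
      have e : ((univ.filter (fun f : Fin (k + 1) → Fin n =>
          Disjoint (hits (List.ofFn f) (s + 1) T) Y)).card : ℝ)
          = ∑ a : Fin n, (if a ∈ T then (if a ∈ Y then 0 else N s) else N (s + 1)) := by
        rw [card_filter]
        push_cast
        rw [← (Fin.consEquiv (fun _ : Fin (k + 1) => Fin n)).sum_comp, Fintype.sum_prod_type]
        refine sum_congr rfl fun a _ => ?_
        have e2 : ∀ f : Fin k → Fin n,
            List.ofFn ((Fin.consEquiv (fun _ : Fin (k + 1) => Fin n)) (a, f))
            = a :: List.ofFn f := by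
          intro f
          simp [List.ofFn_succ]
        simp only [e2, hN, card_filter]
        push_cast
        by_cases h1 : a ∈ T
        · by_cases h2 : a ∈ Y
          · simp [hits, h1, h2]
          · have : ∀ l : List (Fin n), Disjoint (hits (a :: l) (s + 1) T) Y
                ↔ Disjoint (hits l s T) Y := by
              intro l; simp [hits, h1, h2]
            simp only [this, h1, h2, if_true, if_false]
        · have : ∀ l : List (Fin n), hits (a :: l) (s + 1) T = hits l (s + 1) T := by
            intro l; simp [hits, h1]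
          simp only [this, h1, if_false]
      rw [e]
      have e3 : ∑ a : Fin n, (if a ∈ T then (if a ∈ Y then 0 else N s) else N (s + 1))
          = ((T.card : ℝ) - Y.card) * N s + ((n : ℝ) - T.card) * N (s + 1) := by
        rw [sum_ite, sum_ite]
        simp only [sum_const, smul_zero, zero_add, nsmul_eq_mul]
        have c1 : ((univ.filter (fun a => a ∈ T)).filter (fun a => a ∉ Y)) = T \ Y := by
          ext a; simp
        have c2 : (univ.filter (fun a : Fin n => a ∉ T)) = Tᶜ := by ext a; simp
        rw [c1, c2, card_sdiff_of_subset hY, card_compl, Nat.cast_sub (card_le_card hY),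
          Nat.cast_sub (card_le_univ T), Fintype.card_fin]
      rw [e3]
      have i1 := ih s
      have i2 := ih (s + 1)
      calc _ ≤ ((T.card : ℝ) - Y.card) * (((1 - (Y.card : ℝ) / T.card) ^ s
            + (1 - (Y.card : ℝ) / n) ^ k) * (n : ℝ) ^ k) + ((n : ℝ) - T.card) *
            (((1 - (Y.card : ℝ) / T.card) ^ (s + 1) + (1 - (Y.card : ℝ) / n) ^ k) * (n : ℝ) ^ k) := by
            gcongr
        _ = _ := by
            rw [pow_succ, pow_succ, pow_succ]
            field_simp
            ring

end Pool.Agent.P.MP_7e7371_lc
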