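import Mathlib

/-! Model of repeated cooperative collect over single-writer registers, latency measure. -/

namespace Pool.Agent.P.MP_7e7371_lc

/-- A deterministic repeated-collect algorithm for `n` processes with values in `V`.
The register of process `p` holds its current value (in `V`) together with arbitrary
auxiliary data (in `R`); `S` is the type of local states. -/
structure Alg (n : ℕ) (V : Type) where
  /-- local states -/
  S : Type
  /-- auxiliary register contents -/
  R : Type
  /-- initial local states -/
  init : Fin n → S
  /-- initial auxiliary register contents -/
  initR : Fin n → R
  /-- local reaction to the start of a collect -/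
  onStart : Fin n → S → S
  /-- a write of a new value: new local state and new auxiliary contents of the own register -/
  onWrite : Fin n → S → V → S × R
  /-- the next operation inside a collect: read register `r` (`inl r`) or write `a` to the
  auxiliary part of the own register (`inr a`) -/
  next : Fin n → S → Fin n ⊕ R
  /-- local state after a read that returned the given register contents -/
  afterRead : Fin n → S → V × R → S
  /-- local state after a write -/
  afterWrite : Fin n → S → S
  /-- after an operation the collect either finishes with a vector or goes on -/
  ret : Fin n → S → Option (Fin n → V)

/-- Schedule events: a collect of `p` starts, `p` is offered a step, `p` writes value `v`. -/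
inductive Event (n : ℕ) (V : Type) where
  | start (p : Fin n) : Event n V
  | step (p : Fin n) : Event n V
  | write (p : Fin n) (v : V) : Event n V

/-- Global configurations. `busy p` says that `p` has a collect in progress; `ok p r` is
bookkeeping invisible to the algorithm: the value of register `r` at the latest start of a
collect of `p` together with all values written to `r` since then. -/
structure Config {n : ℕ} {V : Type} (A : Alg n V) where
  loc : Fin n → A.S
  val : Fin n → V
  aux : Fin n → A.R
  busy : Fin n → Bool
  ok : Fin n → Fin n → Set V

namespace Alg

variable {n : ℕ} {V : Type} (A : Alg n V)

/-- The initial configuration: every register holds `v0`, nobody is collecting. -/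
def initial (v0 : V) : Config A :=
  ⟨A.init, fun _ => v0, A.initR, fun _ => false, fun _ _ => {v0}⟩

/-- Local state of `p` after its next operation. -/
def stepLoc (c : Config A) (p : Fin n) : A.S :=
  match A.next p (c.loc p) with
  | Sum.inl r => A.afterRead p (c.loc p) (c.val r, c.aux r)
  | Sum.inr _ => A.afterWrite p (c.loc p)

/-- Auxiliary contents of the register of `p` after its next operation. -/
def stepAux (c : Config A) (p : Fin n) : A.R :=
  match A.next p (c.loc p) with
  | Sum.inl _ => c.aux p
  | Sum.inr a => a

/-- Effect of one event. A step offered to an idle process does nothing. A start always begins
a new collect (an unfinished one is superseded). -/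
def exec (c : Config A) : Event n V → Config A
  | Event.start p =>
      ⟨Function.update c.loc p (A.onStart p (c.loc p)), c.val, c.aux,
        Function.update c.busy p true, Function.update c.ok p (fun r => {c.val r})⟩
  | Event.step p =>
      if c.busy p then
        ⟨Function.update c.loc p (A.stepLoc c p), c.val, Function.update c.aux p (A.stepAux c p),
          Function.update c.busy p (A.ret p (A.stepLoc c p)).isNone, c.ok⟩
      else c
  | Event.write p v =>
      ⟨Function.update c.loc p (A.onWrite p (c.loc p) v).1, Function.update c.val p v,
        Function.update c.aux p (A.onWrite p (c.loc p) v).2, c.busy,
        fun q r => if r = p then insert v (c.ok q r) else c.ok q r⟩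

/-- The configuration reached after a schedule. -/
def run (v0 : V) (σ : List (Event n V)) : Config A := σ.foldl A.exec (A.initial v0)

/-- An event costs one operation exactly if it is a step of a process with a collect in
progress. -/
def charge (c : Config A) : Event n V → ℕ
  | Event.step p => if c.busy p then 1 else 0
  | _ => 0

/-- Number of operations performed on a schedule from a configuration. -/
def costFrom : Config A → List (Event n V) → ℕ
  | _, [] => 0
  | c, e :: σ => A.charge c e + costFrom (A.exec c e) σ

/-- The cost of `A` on the schedule `σ`. -/
def cost (v0 : V) (σ : List (Event n V)) : ℕ := A.costFrom (A.initial v0) σ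

/-- If the next step of `p` after `σ` finishes its collect, every returned value is fresh. -/
def FreshAfter (v0 : V) (σ : List (Event n V)) : Prop :=
  ∀ (p : Fin n) (X : Fin n → V), (A.run v0 σ).busy p = true →
    A.ret p (A.stepLoc (A.run v0 σ) p) = some X → ∀ r, X r ∈ (A.run v0 σ).ok p r

/-- Correct under every schedule. -/
def Correct (v0 : V) : Prop := ∀ σ, A.FreshAfter v0 σ

/-- A process may start a collect or write a value only when it has no collect in progress. -/
def Allowed (c : Config A) : Event n V → Prop
  | Event.start p => c.busy p = false
  | Event.step _ => True
  | Event.write p _ => c.busy p = false

/-- Every event of the schedule is allowed when it happens. -/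
def SeqFrom : Config A → List (Event n V) → Prop
  | _, [] => True
  | c, e :: σ => A.Allowed c e ∧ SeqFrom (A.exec c e) σ

/-- In the run of `A` on `σ` each process finishes a collect before its next call. -/
def Seq (v0 : V) (σ : List (Event n V)) : Prop := A.SeqFrom (A.initial v0) σ

/-- Correct on the schedules with sequential calls, and on these a process running alone
finishes its collect. -/
def SeqCorrect (v0 : V) : Prop :=
  ∀ σ, A.Seq v0 σ → A.FreshAfter v0 σ ∧
    ∀ p, ∃ k, (A.run v0 (σ ++ List.replicate k (Event.step p))).busy p = false

end Alg

end Pool.Agent.P.MP_7e7371_lc
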