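import Pool.Agent.P.MP_7e7371_lc.Algo

/-! Epochs advance by a bounded amount while a champion performs `n - 1` operations. -/

namespace Pool.Agent.P.MP_7e7371_lc

open Finset

variable {n : ℕ} {V : Type} {v0 : V} {g : Fin n → ℕ → Fin n} {L : Fin n → List (Fin n)}

/-- all epochs are at most `k` -/
def EpLe (c : Config (alg v0 g L)) (k : ℕ) : Prop := ∀ ρ, IsRec c ρ → ρ.ep ≤ k

lemma EpLe.exec {c : Config (alg v0 g L)} {k : ℕ} (h : EpLe c k) (e : Event n V) :
    EpLe ((alg v0 g L).exec c e) (k + 1) := by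
  intro ρ hρ
  rcases isRec_exec hρ with h1 | ⟨q, _, rfl⟩
  · exact (h ρ h1).trans (Nat.le_succ _)
  · exact Rec.absorb_ep_le _ _ _ _ (h _ ⟨q, Or.inl rfl⟩) (h _ ⟨_, Or.inr rfl⟩)

/-- timestamp `τ` of `p` is certified in late epochs -/
def Prog (k : ℕ) (p : Fin n) (τ : ℕ) (ρ : Rec n V) : Prop :=
  (k + 1 ≤ ρ.ep → ∀ v σ, ρ.K p = some (v, σ) → τ ≤ σ) ∧ (k + 2 ≤ ρ.ep → τ ≤ ρ.lo p) ∧
    (k + 3 ≤ ρ.ep → τ ≤ ρ.llo p)

lemma Prog.absorb {k τ : ℕ} {p r : Fin n} {ρ : Rec n V} {v : V} {a : ℕ × Rec n V}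
    (h : Prog k p τ ρ) (ha : Prog k p τ a.2) (h1 : r = p → τ ≤ a.1) :
    Prog k p τ (ρ.absorb r v a) := by
  unfold Rec.absorb
  split_ifs
  · exact ha
  have j : Prog k p τ (ρ.join a.2) := by
    unfold Rec.join
    split_ifs with e
    · refine ⟨fun hk w s e' => ?_, fun hk => le_min (h.2.1 hk) (ha.2.1 (e ▸ hk)), h.2.2⟩
      simp only [Option.or_eq_some_iff] at e'
      rcases e' with e' | ⟨_, e'⟩
      · exact h.1 hk w s e'
      · exact ha.1 (e ▸ hk) w s e'
    · exact h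
  have m : Prog k p τ ((ρ.join a.2).put r (v, a.1)) := by
    refine ⟨fun hk w s e => ?_, j.2.1, j.2.2⟩
    by_cases hs : p = r
    · subst hs
      simp only [Rec.put, Function.update_self, Option.some.injEq, Prod.mk.injEq] at e
      exact e.2 ▸ h1 rfl
    · simp only [Rec.put, Function.update_of_ne hs] at e
      exact j.1 hk w s e
  rcases Rec.close_cases ((ρ.join a.2).put r (v, a.1)) with ⟨e, _⟩ | ⟨_, e0, e1, e2, e3⟩
  · rw [e]; exact m
  · exact ⟨fun _ w s e => by simp [e1] at e, fun hk => m.1 (by omega) _ _ (e3 p),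
      fun hk => e2 ▸ m.2.1 (by omega)⟩

/-- epoch at most `k`, and the scan of epoch `k` has only reached `D` -/
def Bd (k : ℕ) (D : Finset (Fin n)) (ρ : Rec n V) : Prop := ρ.ep ≤ k ∧ (ρ.ep = k → ρ.dom ⊆ D)

lemma Bd.absorb_lt {k : ℕ} {D : Finset (Fin n)} {r : Fin n} {ρ : Rec n V} {v : V}
    {a : ℕ × Rec n V} (h : ρ.ep < k) (ha : Bd k D a.2) : Bd k D (ρ.absorb r v a) := by
  unfold Rec.absorb
  split_ifs
  · exact ha
  rcases Rec.close_cases ((ρ.join a.2).put r (v, a.1)) with ⟨e, _⟩ | ⟨_, e0, e1, _⟩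
  · rw [e]
    exact ⟨by simp; omega, by simp; omega⟩
  · simp only [Rec.put_ep, Rec.join_ep] at e0
    refine ⟨by omega, fun _ s hs => ?_⟩
    simp [Rec.mem_dom, e1] at hs

lemma Bd.absorb_eq {k : ℕ} {D : Finset (Fin n)} {r : Fin n} {ρ : Rec n V} {v : V}
    {a : ℕ × Rec n V} (he : ρ.ep = k) (h : Bd k D ρ) (ha : Bd k D a.2) (hD : D.card + 1 < n) :
    Bd k (insert r D) (ρ.absorb r v a) := by
  unfold Rec.absorb
  split_ifs with h1
  · have := ha.1; omega
  have hd : ((ρ.join a.2).put r (v, a.1)).dom ⊆ insert r D := by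
    rw [Rec.dom_put, Rec.dom_join]
    refine insert_subset_insert _ ?_
    split_ifs with h2
    · exact union_subset (h.2 he) (ha.2 (h2.trans he))
    · exact h.2 he
  rcases Rec.close_cases ((ρ.join a.2).put r (v, a.1)) with ⟨e, _⟩ | ⟨e, _⟩
  · rw [e]
    exact ⟨by simp [he], fun _ => hd⟩
  · rw [e] at hd
    have := (card_le_card hd).trans (card_insert_le _ _)
    simp at this
    omega

lemma interval [Nontrivial V] {B : Alg n V} (σ : List (Event n V)) {k : ℕ}
    (h0 : EpLe ((alg v0 g L).run v0 σ) k) (γ : List (Event n V)) :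
    B.Champ v0 (σ ++ γ) → B.costFrom (B.run v0 σ) γ + 1 < n →
    (∀ p, (lc ((alg v0 g L).run v0 σ) p).flag = false →
      (lc ((alg v0 g L).run v0 σ) p).ts ≤ (ax ((alg v0 g L).run v0 (σ ++ γ)) p).1 ∧
      ∀ ρ, IsRec ((alg v0 g L).run v0 (σ ++ γ)) ρ →
        Prog k p (lc ((alg v0 g L).run v0 σ) p).ts ρ) ∧
    (∀ p, (lc ((alg v0 g L).run v0 (σ ++ γ)) p).ts = (lc ((alg v0 g L).run v0 σ) p).ts ∨
      Event.start p ∈ γ) ∧
    ∃ D : Finset (Fin n), D.card ≤ B.costFrom (B.run v0 σ) γ ∧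
      ∀ ρ, IsRec ((alg v0 g L).run v0 (σ ++ γ)) ρ → Bd (k + 3) D ρ := by
  induction γ using List.reverseRecOn with
  | nil =>
    intro _ _
    rw [List.append_nil]
    refine ⟨fun p hp => ⟨((inv_run σ).axeq p hp).ge, fun ρ hρ => ?_⟩, fun p => Or.inl rfl,
      ∅, by simp, fun ρ hρ => ?_⟩
    · have := h0 ρ hρ
      exact ⟨fun _ => by omega, fun _ => by omega, fun _ => by omega⟩
    · have := h0 ρ hρ
      exact ⟨by omega, fun _ => by omega⟩
  | append_singleton γ e ih =>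
    intro hB hc
    rw [← List.append_assoc] at hB ⊢
    rw [Alg.costFrom_snoc, ← Alg.run_append] at hc ⊢
    obtain ⟨i1, i2, D, hD, i3⟩ := ih hB.init (by omega)
    have hI := inv_run (v0 := v0) (g := g) (L := L) (σ ++ γ)
    rw [Alg.run_snoc]
    set c := (alg v0 g L).run v0 (σ ++ γ) with hcdef
    refine ⟨fun p hp => ⟨?_, fun ρ hρ => ?_⟩, fun p => ?_, ?_⟩
    · have a1 := (i1 p hp).1
      have a2 := hI.axle p
      rcases effect c e p with ⟨_, _, _, h2, _⟩ | ⟨_, _, h2⟩ | ⟨_, _, _, h2, _⟩ | ⟨_, _, _, h2⟩ |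
        ⟨_, _, _, h2, _⟩ <;> rw [h2] <;> (try simp only) <;> omega
    · rcases isRec_exec hρ with h1 | ⟨q, _, rfl⟩
      · exact (i1 p hp).2 ρ h1
      · exact ((i1 p hp).2 _ ⟨q, Or.inl rfl⟩).absorb ((i1 p hp).2 _ ⟨_, Or.inr rfl⟩)
          (fun e => e ▸ (i1 p hp).1)
    · rcases i2 p with a | a
      swap
      · exact Or.inr (List.mem_append_left _ a)
      rcases effect c e p with ⟨_, _, h1, _⟩ | ⟨h1, _⟩ | ⟨_, _, h1, _⟩ | ⟨_, _, h1, _⟩ |
        ⟨_, _, h1, _⟩
      · left; rw [h1]; exact a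
      · right; simp [h1]
      · left; rw [h1]; exact a
      · left; rw [h1]; exact a
      · left; rw [h1]; exact a
    · by_cases hs : ∃ q, IsScan c e q ∧ (lc c q).rc.ep = k + 3
      · obtain ⟨q, hq, hk⟩ := hs
        have hnew : Fresh σ q ∨ Event.start q ∈ γ := by
          rcases i2 q with a | a
          swap
          · exact Or.inr a
          left
          apply flag_fresh (v0 := v0) (g := g) (L := L)
          by_contra hf
          have a1 := ((i1 q (by simpa using hf)).2 _ ⟨q, Or.inl rfl⟩).2.2 hk.ge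
          have a2 := hI.busy q hq.2.1
          omega
        have hb := Alg.busy_of_new hnew hB.init (by omega)
        have hch : B.charge (B.run v0 (σ ++ γ)) e = 1 := by rw [hq.1]; simp [Alg.charge, hb]
        refine ⟨insert (target g L q (lc c q)) D, (card_insert_le _ _).trans (by omega),
          fun ρ hρ => ?_⟩
        rcases isRec_exec hρ with h1 | ⟨q', hq', rfl⟩
        · exact ⟨(i3 ρ h1).1, fun e => ((i3 ρ h1).2 e).trans (subset_insert _ _)⟩
        · obtain rfl : q' = q := by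
            have := hq'.1.symm.trans hq.1
            simpa using this
          exact Bd.absorb_eq hk (i3 _ ⟨q', Or.inl rfl⟩) (i3 _ ⟨_, Or.inr rfl⟩) (by omega)
      · refine ⟨D, by omega, fun ρ hρ => ?_⟩
        rcases isRec_exec hρ with h1 | ⟨q, hq, rfl⟩
        · exact i3 ρ h1
        · have a1 := (i3 _ ⟨q, Or.inl rfl⟩).1
          have a2 : (lc c q).rc.ep ≠ k + 3 := fun h => hs ⟨q, hq, h⟩
          exact Bd.absorb_lt (by omega) (i3 _ ⟨_, Or.inr rfl⟩)

lemma split_cost (B : Alg n V) (σ : List (Event n V)) : ∀ (c : Config B) (a : ℕ),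
    a < B.costFrom c σ → ∃ α e γ, σ = α ++ [e] ++ γ ∧ B.costFrom c α = a ∧
      B.costFrom c σ = a + 1 + B.costFrom ((α ++ [e]).foldl B.exec c) γ := by
  induction σ with
  | nil => intro c a h; simp [Alg.costFrom] at h
  | cons e σ ih =>
    intro c a h
    have h1 := B.charge_le c e
    simp only [Alg.costFrom] at h
    by_cases h2 : a < B.charge c e
    · exact ⟨[], e, σ, rfl, by simp [Alg.costFrom]; omega, by simp [Alg.costFrom]; omega⟩
    · obtain ⟨α, e', γ, rfl, h3, h4⟩ := ih (B.exec c e) (a - B.charge c e) (by omega)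
      refine ⟨e :: α, e', γ, rfl, by simp only [Alg.costFrom]; omega, ?_⟩
      simp only [Alg.costFrom, List.cons_append, List.foldl_cons]
      omega

theorem epochs_le [Nontrivial V] {B : Alg n V} (hn : 2 ≤ n) : ∀ (j : ℕ) (σ : List (Event n V)),
    B.Champ v0 σ → B.cost v0 σ < (j + 1) * (n - 1) → EpLe ((alg v0 g L).run v0 σ) (4 * j + 3) := by
  have base : ∀ σ : List (Event n V), B.Champ v0 σ → B.cost v0 σ + 1 < n →
      EpLe ((alg v0 g L).run v0 σ) 3 := by
    intro σ hB hc ρ hρ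
    have h0 : EpLe ((alg v0 g L).run v0 []) 0 := by
      rintro ρ ⟨q, h | h⟩ <;> rw [h] <;> exact le_rfl
    obtain ⟨_, _, D, _, h⟩ := interval [] h0 σ hB hc
    exact (h ρ hρ).1
  intro j
  induction j with
  | zero => intro σ hB hc; exact base σ hB (by omega)
  | succ j ih =>
    intro σ hB hc
    by_cases h1 : B.cost v0 σ + 1 < n
    · exact fun ρ hρ => (base σ hB h1 ρ hρ).trans (by omega)
    obtain ⟨α, e, γ, rfl, h2, h3⟩ := split_cost B σ (B.initial v0) (B.cost v0 σ - (n - 1))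
      (by unfold Alg.cost at *; omega)
    have h4 := (ih α hB.init.init (by
      rw [add_mul (j + 1) 1] at hc
      unfold Alg.cost at *
      omega)).exec e
    rw [← Alg.run_snoc] at h4
    obtain ⟨_, _, D, _, h⟩ := interval (α ++ [e]) h4 γ hB (by
      unfold Alg.cost Alg.run at *
      omega)
    exact fun ρ hρ => (h ρ hρ).1.trans (by omega)

end Pool.Agent.P.MP_7e7371_lc
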