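import Pool.Agent.P.MP_7e7371_lc.Count

/-! Existence of good gossip sequences and good work lists. -/

namespace Pool.Agent.P.MP_7e7371_lc

open Finset

/-- size parameter at scale `4 ^ i` -/
def xs (n i : ℕ) : ℕ := 20 * i * n / 4 ^ i + 1

lemma xs_pos (n i : ℕ) : 0 < xs n i := Nat.succ_pos _

lemma xs_lower (n i : ℕ) : 20 * i * n < xs n i * 4 ^ i := by
  unfold xs
  exact (Nat.div_lt_iff_lt_mul (by positivity)).1 (Nat.lt_succ_self _)

lemma xs_upper (n i : ℕ) : xs n i * 4 ^ i ≤ 20 * i * n + 4 ^ i := by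
  unfold xs
  have := Nat.div_mul_le_self (20 * i * n) (4 ^ i)
  nlinarith

lemma four_pow_le (i : ℕ) : (4 : ℝ) ^ i ≤ Real.exp (2 * i) := by
  have h : (4 : ℝ) ≤ Real.exp 2 := by
    have h1 := Real.add_one_le_exp (1 : ℝ)
    have : Real.exp 2 = Real.exp 1 * Real.exp 1 := by rw [← Real.exp_add]; norm_num
    nlinarith
  calc (4 : ℝ) ^ i ≤ (Real.exp 2) ^ i := by gcongr
    _ = _ := by rw [← Real.exp_nat_mul]; congr 1; ring

lemma sets_le (n i y : ℕ) (hi : 1 ≤ i) :
    ((4 : ℝ) ^ i) ^ y * Real.exp (n / 4 ^ i) ≤ Real.exp (2 * i * y + xs n i) := by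
  have h1 : (n : ℝ) / 4 ^ i ≤ xs n i := by
    rw [div_le_iff₀ (by positivity)]
    have h := xs_lower n i
    have : n ≤ xs n i * 4 ^ i := by nlinarith
    exact_mod_cast this
  rw [Real.exp_add]
  gcongr
  calc ((4 : ℝ) ^ i) ^ y ≤ (Real.exp (2 * i)) ^ y := by gcongr; exact four_pow_le i
    _ = _ := by rw [← Real.exp_nat_mul]; congr 1; ring

lemma geom_small (a b : ℕ) (t : ℕ → ℝ) (ht : ∀ i ∈ Icc a b, t i ≤ Real.exp (-2 - i)) :
    ∑ i ∈ Icc a b, t i < 1 := by
  have h1 : ∀ i : ℕ, Real.exp (-2 - i) ≤ (1 / 4) * (1 / 2) ^ i := by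
    intro i
    have h2 : Real.exp (-1) ≤ 1 / 2 := by
      rw [Real.exp_neg, one_div]
      have := Real.add_one_le_exp (1 : ℝ)
      exact inv_anti₀ (by norm_num) (by linarith)
    have : Real.exp (-2 - i) = Real.exp (-1) ^ (i + 2) := by
      rw [← Real.exp_nat_mul]; congr 1; push_cast; ring
    rw [this]
    calc Real.exp (-1) ^ (i + 2) ≤ (1 / 2) ^ (i + 2) := by gcongr
      _ = _ := by ring
  calc ∑ i ∈ Icc a b, t i ≤ ∑ i ∈ Icc a b, (1 / 4 : ℝ) * (1 / 2) ^ i :=
        sum_le_sum fun i hi => (ht i hi).trans (h1 i)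
    _ ≤ ∑ i ∈ range (b + 1), (1 / 4 : ℝ) * (1 / 2) ^ i := by
        refine sum_le_sum_of_subset_of_nonneg ?_ (fun _ _ _ => by positivity)
        intro i hi
        simp only [mem_Icc, mem_range] at hi ⊢
        omega
    _ < 1 := by
        rw [← mul_sum]
        have := sum_geometric_two_le (b + 1)
        linarith

lemma exp_pow_le {a : ℝ} {x : ℕ} (hx : 0 < x) (ha : a ≤ 0) : Real.exp (a * x) ≤ Real.exp a := by
  have : (1 : ℝ) ≤ x := by exact_mod_cast hx
  exact Real.exp_le_exp.2 (by nlinarith)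

lemma hits_append {n : ℕ} (l l' : List (Fin n)) (s : ℕ) (T : Finset (Fin n)) :
    hits l s T ⊆ hits (l ++ l') s T := by
  intro r hr
  simp only [hits, List.mem_toFinset, List.filter_append, List.take_append, List.mem_append] at hr ⊢
  exact Or.inl hr

lemma two_pow_big (i : ℕ) (hi : 7 ≤ i) : 16 + 14 * i ≤ 2 ^ i := by
  induction i, hi using Nat.le_induction with
  | base => norm_num
  | succ i hi ih => rw [pow_succ]; omega

theorem exists_work (n l : ℕ) (hn : 0 < n) : ∃ L : Fin n → List (Fin n), (∀ q r, r ∈ L q) ∧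
    ∀ i, 7 ≤ i → i ≤ l → ∀ T Y : Finset (Fin n), Y ⊆ T → T.card ≤ 2 * xs n i →
      T.card < Y.card * (2 * 2 ^ i) →
      (univ.filter (fun q => Disjoint (hits (L q) (4 ^ i) T) Y)).card < xs n i := by
  classical
  set N := n * 4 ^ l with hN
  have : Nonempty (Fin n) := ⟨⟨0, hn⟩⟩
  let Bad : (Σ _ : ℕ, Σ _ : Finset (Fin n), Finset (Fin n)) → Finset (Fin N → Fin n) := fun j =>
    univ.filter (fun f => Disjoint (hits (List.ofFn f) (4 ^ j.1) j.2.1) j.2.2)
  have hnR : (0 : ℝ) < n := by exact_mod_cast hn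
  obtain ⟨F, hF⟩ := exists_good (n := n)
    ((Icc 7 l).sigma (fun i => (univ.filter (fun T : Finset (Fin n) => T.card ≤ 2 * xs n i)).sigma
      (fun T => T.powerset.filter (fun Y => T.card < Y.card * (2 * 2 ^ i))))) Bad
    (fun j => xs n j.1) (fun j => Real.exp (1 - 2 ^ j.1 / 2)) (by
      rintro ⟨i, T, Y⟩ hj
      obtain ⟨hi, hj⟩ := mem_sigma.1 hj
      obtain ⟨_, hY⟩ := mem_sigma.1 hj
      obtain ⟨hYT, hY⟩ := mem_filter.1 hY
      simp only [mem_Icc, mem_powerset] at hi hYT hY
      have hy0 : 0 < Y.card := by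
        rcases Nat.eq_zero_or_pos Y.card with h | h
        · simp [h] at hY
        · exact h
      have hT0 : 0 < T.card := hy0.trans_le (card_le_card hYT)
      have h1 := card_avoid T Y hYT hT0 N (4 ^ i)
      have hyu : (Y.card : ℝ) ≤ T.card := by exact_mod_cast card_le_card hYT
      have hun : (T.card : ℝ) ≤ n := by exact_mod_cast (by simpa using card_le_univ T)
      have hu : (0 : ℝ) < T.card := by exact_mod_cast hT0
      have hy : (1 : ℝ) ≤ Y.card := by exact_mod_cast hy0
      have hY' : (T.card : ℝ) ≤ Y.card * (2 * 2 ^ i) := by exact_mod_cast hY.le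
      have h4 : (4 : ℝ) ^ i = 2 ^ i * 2 ^ i := by rw [← mul_pow]; norm_num
      have h2p : (1 : ℝ) ≤ 2 ^ i := one_le_pow₀ (by norm_num)
      have ha : (1 - (Y.card : ℝ) / T.card) ^ 4 ^ i ≤ Real.exp (- 2 ^ i / 2) := by
        calc _ ≤ (Real.exp (-((Y.card : ℝ) / T.card))) ^ 4 ^ i := by
              gcongr
              · rw [sub_nonneg, div_le_one hu]; exact hyu
              · exact Real.one_sub_le_exp_neg _
          _ ≤ _ := by
              rw [← Real.exp_nat_mul]
              refine Real.exp_le_exp.2 ?_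
              push_cast
              rw [h4, mul_neg, neg_div, neg_le_neg_iff, ← mul_div_assoc, le_div_iff₀ hu]
              nlinarith
      have hb : (1 - (Y.card : ℝ) / n) ^ N ≤ Real.exp (- 2 ^ i / 2) := by
        calc _ ≤ (Real.exp (-((Y.card : ℝ) / n))) ^ N := by
              gcongr
              · rw [sub_nonneg, div_le_one hnR]; linarith
              · exact Real.one_sub_le_exp_neg _
          _ ≤ _ := by
              rw [← Real.exp_nat_mul]
              refine Real.exp_le_exp.2 ?_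
              have h5 : (4 : ℝ) ^ i ≤ 4 ^ l := pow_le_pow_right₀ (by norm_num) hi.2
              rw [hN]
              push_cast
              have : (n : ℝ) * 4 ^ l * -((Y.card : ℝ) / n) = - (4 ^ l * Y.card) := by field_simp
              rw [this]
              nlinarith
      refine le_trans (le_trans (le_of_eq (by congr)) h1) ?_
      rw [Fintype.card_fun, Nat.cast_pow, Fintype.card_fin, Fintype.card_fin]
      gcongr
      have h6 := Real.add_one_le_exp (1 : ℝ)
      have h7 : Real.exp (1 - 2 ^ i / 2) = Real.exp 1 * Real.exp (- 2 ^ i / 2) := by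
        rw [← Real.exp_add]; congr 1; ring
      have := Real.exp_pos (- 2 ^ i / 2)
      simp only
      nlinarith)
    (by
      rw [sum_sigma]
      refine geom_small 7 l _ fun i hi => ?_
      have hi1 := (mem_Icc.1 hi).1
      have hbig : (16 + 14 * i : ℝ) ≤ 2 ^ i := by exact_mod_cast two_pow_big i hi1
      have hi1' : (7 : ℝ) ≤ i := by exact_mod_cast hi1
      rw [sum_sigma]
      simp only [sum_const, nsmul_eq_mul]
      have hc := (choose_le n (xs n i) (4 ^ i) (one_le_pow₀ (by norm_num))).trans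
        (sets_le n i _ (by omega))
      have hd := (card_small_sets n (2 * xs n i) (4 ^ i) (one_le_pow₀ (by norm_num))).trans
        (sets_le n i _ (by omega))
      calc _ ≤ ∑ T ∈ univ.filter (fun T : Finset (Fin n) => T.card ≤ 2 * xs n i),
            Real.exp (2 * xs n i) * (Real.exp (2 * i * xs n i + xs n i)
              * Real.exp (1 - 2 ^ i / 2) ^ xs n i) := by
            refine sum_le_sum fun T hT => ?_
            gcongr
            have h1 : (T.powerset.filter (fun Y => T.card < Y.card * (2 * 2 ^ i))).card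
                ≤ 4 ^ xs n i := by
              refine (card_filter_le _ _).trans ?_
              rw [card_powerset, show 4 = 2 ^ 2 by norm_num, ← pow_mul]
              exact Nat.pow_le_pow_right (by norm_num) (mem_filter.1 hT).2
            refine le_trans (Nat.cast_le.2 h1) ?_
            push_cast
            exact four_pow_le _
        _ ≤ Real.exp (2 * i * (2 * xs n i : ℕ) + xs n i) * (Real.exp (2 * xs n i)
              * (Real.exp (2 * i * xs n i + xs n i) * Real.exp (1 - 2 ^ i / 2) ^ xs n i)) := by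
            rw [sum_const, nsmul_eq_mul]
            gcongr
        _ = Real.exp ((5 + 6 * i - 2 ^ i / 2) * xs n i) := by
            rw [← Real.exp_nat_mul, ← Real.exp_add, ← Real.exp_add, ← Real.exp_add]
            congr 1; push_cast; ring
        _ ≤ Real.exp (5 + 6 * i - 2 ^ i / 2) := exp_pow_le (xs_pos n i) (by linarith)
        _ ≤ _ := Real.exp_le_exp.2 (by linarith))
  refine ⟨fun q => List.ofFn (F q) ++ List.finRange n, fun q r => by simp,
    fun i hi hl T Y hYT hT hY => ?_⟩
  have := hF ⟨i, T, Y⟩ (mem_sigma.2 ⟨mem_Icc.2 ⟨hi, hl⟩, mem_sigma.2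
    ⟨mem_filter.2 ⟨mem_univ _, hT⟩, mem_filter.2 ⟨mem_powerset.2 hYT, hY⟩⟩⟩)
  refine lt_of_le_of_lt (card_le_card ?_) this
  intro q hq
  exact mem_filter.2 ⟨mem_univ _, mem_filter.2 ⟨mem_univ _,
    disjoint_of_subset_left (hits_append _ _ _ _) (mem_filter.1 hq).2⟩⟩

end Pool.Agent.P.MP_7e7371_lc
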