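import Pool.Agent.P.MP_7e7371_lc.Exist

/-! Gossip sequences whose windows hit large sets often and small sets rarely. -/

namespace Pool.Agent.P.MP_7e7371_lc

open Finset

/-- number of positions of window `w` of length `s` that lie in `Y` -/
def cntW {n : ℕ} (g : ℕ → Fin n) (s w : ℕ) (Y : Finset (Fin n)) : ℕ :=
  ((range s).filter (fun u => g (w * s + u) ∈ Y)).card

lemma moment {ι : Type} [Fintype ι] [DecidableEq ι] {n : ℕ} (hn : 0 < n) (P : Finset ι)
    (Y : Finset (Fin n)) {θ : ℝ} (hθ : 0 ≤ θ) :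
    ∑ f : ι → Fin n, θ ^ (P.filter (fun k => f k ∈ Y)).card ≤
      Real.exp ((θ - 1) * Y.card / n * P.card) * (n : ℝ) ^ Fintype.card ι := by
  have hnR : (0 : ℝ) < n := by exact_mod_cast hn
  have e1 : ∀ f : ι → Fin n, θ ^ (P.filter (fun k => f k ∈ Y)).card =
      ∏ k, (if k ∈ P ∧ f k ∈ Y then θ else 1) := by
    intro f
    rw [prod_ite, prod_const, prod_const_one, mul_one]
    congr 2
    ext k
    simp
  simp only [e1]
  rw [← Fintype.piFinset_univ,
    ← prod_univ_sum (fun _ => univ) (fun k (a : Fin n) => if k ∈ P ∧ a ∈ Y then θ else 1)]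
  calc _ ≤ ∏ k, ((if k ∈ P then Real.exp ((θ - 1) * Y.card / n) else 1) * (n : ℝ)) := by
        refine prod_le_prod (fun k _ => sum_nonneg fun a _ => by split_ifs <;> linarith)
          fun k _ => ?_
        by_cases hk : k ∈ P
        · have e2 : ∀ a : Fin n, (if k ∈ P ∧ a ∈ Y then θ else 1) =
              1 + (θ - 1) * (if a ∈ Y then 1 else 0) := by
            intro a
            by_cases h : a ∈ Y <;> simp [hk, h]
          simp only [e2, sum_add_distrib, ← mul_sum, if_pos hk]
          have h3 := Real.add_one_le_exp ((θ - 1) * Y.card / n)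
          have h4 : ((θ - 1) * Y.card / n + 1) * n = n + (θ - 1) * Y.card := by field_simp; ring
          simp only [sum_const, card_univ, Fintype.card_fin, nsmul_eq_mul, mul_one, sum_boole,
            filter_mem_eq_inter, univ_inter]
          nlinarith
        · simp [hk]
    _ = _ := by
        rw [prod_mul_distrib, prod_const, card_univ, prod_ite_mem, univ_inter, prod_const,
          ← Real.exp_nat_mul, mul_comm (P.card : ℝ)]

lemma win_bound {n N i : ℕ} (hn : 0 < n) (hN : (4 ^ i) ^ 5 ≤ N) (Y : Finset (Fin n)) {θ c : ℝ}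
    (hθ : 0 ≤ θ) (E : ℕ → Prop) [DecidablePred E] (hE : ∀ h, E h → Real.exp (-c) ≤ θ ^ h) :
    ((univ.filter (fun f : Fin (N + 1) → Fin n => ∃ w < (4 ^ i) ^ 4,
      E (cntW (fun k => f (Fin.ofNat (N + 1) k)) (4 ^ i) w Y))).card : ℝ) ≤
      Real.exp (8 * i + c + (θ - 1) * (Y.card * 4 ^ i / n)) *
        Fintype.card (Fin (N + 1) → Fin n) := by
  have hsub : univ.filter (fun f : Fin (N + 1) → Fin n => ∃ w < (4 ^ i) ^ 4,
      E (cntW (fun k => f (Fin.ofNat (N + 1) k)) (4 ^ i) w Y)) ⊆
      (range ((4 ^ i) ^ 4)).biUnion (fun w => univ.filter (fun f : Fin (N + 1) → Fin n =>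
        E (cntW (fun k => f (Fin.ofNat (N + 1) k)) (4 ^ i) w Y))) := by
    intro f hf
    obtain ⟨w, hw, hf⟩ := (mem_filter.1 hf).2
    exact mem_biUnion.2 ⟨w, mem_range.2 hw, mem_filter.2 ⟨mem_univ _, hf⟩⟩
  refine le_trans (Nat.cast_le.2 ((card_le_card hsub).trans card_biUnion_le)) ?_
  rw [Nat.cast_sum]
  calc _ ≤ ∑ w ∈ range ((4 ^ i) ^ 4), Real.exp (c + (θ - 1) * (Y.card * 4 ^ i / n)) *
        (Fintype.card (Fin (N + 1) → Fin n) : ℝ) := by
        refine sum_le_sum fun w hw => ?_
        have hinj : Set.InjOn (fun u => Fin.ofNat (N + 1) (w * 4 ^ i + u)) (range (4 ^ i)) := by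
          have h3 : (w + 1) * 4 ^ i ≤ (4 ^ i) ^ 4 * 4 ^ i := Nat.mul_le_mul_right _ (mem_range.1 hw)
          rw [← pow_succ, add_mul, one_mul] at h3
          replace h3 := h3.trans hN
          intro u hu v hv e
          have hu := mem_range.1 (mem_coe.1 hu)
          have hv := mem_range.1 (mem_coe.1 hv)
          have e' := congrArg Fin.val e
          simp only [Fin.val_ofNat] at e'
          rw [Nat.mod_eq_of_lt (by omega), Nat.mod_eq_of_lt (by omega)] at e'
          omega
        set P := (range (4 ^ i)).image (fun u => Fin.ofNat (N + 1) (w * 4 ^ i + u)) with hP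
        have h1 := moment hn P Y hθ
        have h2 : ∀ f : Fin (N + 1) → Fin n, (P.filter (fun k => f k ∈ Y)).card =
            cntW (fun k => f (Fin.ofNat (N + 1) k)) (4 ^ i) w Y := by
          intro f
          rw [hP, filter_image, card_image_of_injOn (hinj.mono (coe_subset.2 (filter_subset _ _)))]
          rfl
        have h3 : (P.card : ℝ) = 4 ^ i := by
          rw [hP, card_image_of_injOn hinj, card_range]
          push_cast
          rfl
        simp only [h2, h3] at h1
        have h4 : ((univ.filter (fun f : Fin (N + 1) → Fin n =>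
            E (cntW (fun k => f (Fin.ofNat (N + 1) k)) (4 ^ i) w Y))).card : ℝ) * Real.exp (-c) ≤
            ∑ f : Fin (N + 1) → Fin n,
              θ ^ cntW (fun k => f (Fin.ofNat (N + 1) k)) (4 ^ i) w Y := by
          rw [← nsmul_eq_mul, ← sum_const]
          exact (sum_le_sum fun f hf => hE _ (mem_filter.1 hf).2).trans
            (sum_le_sum_of_subset_of_nonneg (filter_subset _ _) fun _ _ _ => by positivity)
        have h5 := h4.trans h1
        rw [Real.exp_neg, ← div_eq_mul_inv, div_le_iff₀ (Real.exp_pos _)] at h5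
        rw [Fintype.card_fun, Nat.cast_pow, Fintype.card_fin n, Real.exp_add]
        refine h5.trans (le_of_eq ?_)
        rw [show (θ - 1) * Y.card / n * 4 ^ i = (θ - 1) * (Y.card * 4 ^ i / n) by ring]
        ring
    _ ≤ _ := by
        rw [sum_const, card_range, nsmul_eq_mul, ← mul_assoc, add_assoc, Real.exp_add (8 * i)]
        gcongr
        push_cast
        calc ((4 : ℝ) ^ i) ^ 4 ≤ (Real.exp (2 * i)) ^ 4 := by gcongr; exact four_pow_le i
          _ = _ := by rw [← Real.exp_nat_mul]; congr 1; push_cast; ring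

lemma geom_third (a b : ℕ) (t : ℕ → ℝ) (ht : ∀ i ∈ Icc a b, t i ≤ Real.exp (-4 - i)) :
    ∑ i ∈ Icc a b, t i < 1 / 3 := by
  have h := geom_small a b (fun i => 3 * t i) fun i hi => by
    have h1 := ht i hi
    have h2 : Real.exp (-2 - i) = Real.exp 2 * Real.exp (-4 - i) := by
      rw [← Real.exp_add]; congr 1; ring
    have h3 := Real.add_one_le_exp (2 : ℝ)
    have h4 := Real.exp_pos (-4 - i)
    nlinarith
  rw [← mul_sum] at h
  linarith

/-- the expansion factor required for a set of `t` registers -/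
def fac (φ x t : ℕ) : ℕ := if t * 2 ^ φ ≤ x then φ else 2

lemma sparse_term {n i φ t : ℕ} (hi : 1 ≤ i) (h2 : 2 ≤ φ) (hφ : φ ≤ i + 2) (ht : 1 ≤ t)
    (htx : t ≤ xs n i) :
    (n.choose t : ℝ) * ((n.choose (t / fac φ (xs n i) t + 1) : ℝ) *
      Real.exp (-114 * i - 150 * i * Real.log (xs n i / t)) ^ (t / fac φ (xs n i) t + 1)) ≤
      Real.exp (-4 - i) * Real.exp (-2 - t) := by
  set F := fac φ (xs n i) t with hF
  set z := t / F + 1 with hz
  set Λ := Real.log (xs n i / t) with hΛ
  have htR : (1 : ℝ) ≤ t := by exact_mod_cast ht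
  have hiR : (1 : ℝ) ≤ i := by exact_mod_cast hi
  have hxt : (1 : ℝ) ≤ xs n i / t := by
    rw [le_div_iff₀ (by linarith), one_mul]; exact_mod_cast htx
  have hΛ0 : 0 ≤ Λ := Real.log_nonneg hxt
  have hF2 : 2 ≤ F ∧ F ≤ i + 2 := by rw [hF, fac]; split_ifs <;> omega
  have hFΛ : (F : ℝ) ≤ 2 + 2 * Λ := by
    rw [hF, fac]
    split_ifs with h
    · have h3 : (2 : ℝ) ^ φ ≤ xs n i / t := by
        rw [le_div_iff₀ (by linarith), mul_comm]; exact_mod_cast h
      have h4 := Real.log_le_log (by positivity) h3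
      rw [Real.log_pow] at h4
      have := Real.log_two_gt_d9
      have : (0 : ℝ) ≤ φ := Nat.cast_nonneg _
      nlinarith
    · push_cast; linarith
  have htz : (t : ℝ) ≤ F * z := by
    have := (Nat.div_lt_iff_lt_mul (show 0 < F by omega)).1 (Nat.lt_succ_self (t / F))
    rw [mul_comm]
    exact_mod_cast this.le
  have hz1 : (1 : ℝ) ≤ z := by exact_mod_cast Nat.succ_pos _
  have hFi : (F : ℝ) ≤ 3 * i := by exact_mod_cast (by omega : F ≤ 3 * i)
  have hc : ∀ y : ℕ, (n.choose y : ℝ) ≤ Real.exp ((2 * i + Λ) * y + t) := by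
    intro y
    have h4 : (1 : ℝ) ≤ 4 ^ i := one_le_pow₀ (by norm_num)
    refine (choose_le n y (4 ^ i * (xs n i / t)) (by nlinarith)).trans ?_
    rw [Real.exp_add]
    gcongr
    · calc ((4 : ℝ) ^ i * (xs n i / t)) ^ y ≤ (Real.exp (2 * i) * Real.exp Λ) ^ y := by
            gcongr
            · exact four_pow_le i
            · rw [hΛ, Real.exp_log (by linarith)]
        _ = _ := by rw [← Real.exp_add, ← Real.exp_nat_mul, mul_comm]
    · rw [div_le_iff₀ (by positivity)]
      have h := xs_lower n i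
      have h5 : n ≤ xs n i * 4 ^ i := by nlinarith
      have h6 : (t : ℝ) * (4 ^ i * (xs n i / t)) = xs n i * 4 ^ i := by field_simp
      rw [h6]
      exact_mod_cast h5
  calc _ ≤ Real.exp ((2 * i + Λ) * t + t) * (Real.exp ((2 * i + Λ) * z + t) *
        Real.exp (-114 * i - 150 * i * Λ) ^ z) := by gcongr <;> exact hc _
    _ ≤ _ := by
      rw [← Real.exp_nat_mul, ← Real.exp_add, ← Real.exp_add, ← Real.exp_add]
      refine Real.exp_le_exp.2 ?_
      have a1 : (2 * i + Λ + 3) * t ≤ (2 * i + Λ + 3) * (F * z) :=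
        mul_le_mul_of_nonneg_left htz (by linarith)
      have a2 : (2 * i + 3) * F ≤ 5 * i * (2 + 2 * Λ) :=
        mul_le_mul (by linarith) hFΛ (by positivity) (by positivity)
      have a3 : Λ * F ≤ Λ * (3 * i) := mul_le_mul_of_nonneg_left hFi hΛ0
      have a4 : Λ * 1 ≤ Λ * i := mul_le_mul_of_nonneg_left hiR hΛ0
      have a5 : ((2 * i + Λ + 3) * F + (2 * i + Λ) + (-114 * i - 150 * i * Λ)) * z ≤
          (-100 * i) * z := mul_le_mul_of_nonneg_right (by nlinarith) (by linarith)
      have a6 : i * 1 ≤ (i : ℝ) * z := mul_le_mul_of_nonneg_left hz1 (by linarith)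
      nlinarith

theorem exists_gossip (n l : ℕ) (hn : 0 < n) (φ : ℕ → ℕ) (hφ : ∀ i, 2 ≤ φ i ∧ φ i ≤ i + 2) :
    ∃ g : Fin n → ℕ → Fin n, ∀ i, 1 ≤ i → i ≤ l → ∀ Y : Finset (Fin n),
      (xs n i ≤ Y.card → (univ.filter (fun q => ∃ w < (4 ^ i) ^ 4,
        cntW (g q) (4 ^ i) w Y = 0)).card < xs n i) ∧
      (30 * xs n i ≤ Y.card → (univ.filter (fun q => ∃ w < (4 ^ i) ^ 4,
        cntW (g q) (4 ^ i) w Y < 150 * i)).card < xs n i) ∧
      (4 ^ i ≤ 4 * n → Y.card ≤ xs n i → (univ.filter (fun q => ∃ w < (4 ^ i) ^ 4,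
        150 * i ≤ cntW (g q) (4 ^ i) w Y)).card * fac (φ i) (xs n i) Y.card ≤ Y.card) := by
  classical
  set N := (4 ^ l) ^ 5 with hN
  have : Nonempty (Fin n) := ⟨⟨0, hn⟩⟩
  have hnR : (0 : ℝ) < n := by exact_mod_cast hn
  let E : Fin 3 → ℕ → ℕ → Prop := ![fun _ h => h = 0, fun i h => h < 150 * i, fun i h => 150 * i ≤ h]
  let Ys : Fin 3 → ℕ → Finset (Finset (Fin n)) := ![fun i => powersetCard (xs n i) univ,
    fun i => powersetCard (30 * xs n i) univ,
    fun i => if 4 ^ i ≤ 4 * n then (Icc 1 (xs n i)).biUnion (fun t => powersetCard t univ) else ∅]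
  let X : Fin 3 → ℕ → ℕ → ℕ := ![fun i _ => xs n i, fun i _ => xs n i,
    fun i t => t / fac (φ i) (xs n i) t + 1]
  let p : Fin 3 → ℕ → ℕ → ℝ := ![fun i _ => -12 * i, fun i _ => -142 * i,
    fun i t => -114 * i - 150 * i * Real.log (xs n i / t)]
  obtain ⟨F, hF⟩ := exists_good (n := n)
    ((univ : Finset (Fin 3)).sigma fun c => (Icc 1 l).sigma (Ys c))
    (fun j => univ.filter (fun f : Fin (N + 1) → Fin n => ∃ w < (4 ^ j.2.1) ^ 4,
      E j.1 j.2.1 (cntW (fun k => f (Fin.ofNat (N + 1) k)) (4 ^ j.2.1) w j.2.2)))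
    (fun j => X j.1 j.2.1 j.2.2.card) (fun j => Real.exp (p j.1 j.2.1 j.2.2.card)) (by
      rintro ⟨c, i, Y⟩ hj
      obtain ⟨hi, hY⟩ := mem_sigma.1 (mem_sigma.1 hj).2
      simp only [mem_Icc] at hi hY
      have hiN : (4 ^ i) ^ 5 ≤ N :=
        Nat.pow_le_pow_left (Nat.pow_le_pow_right (by norm_num) hi.2) 5
      have hl : (20 * i : ℝ) ≤ xs n i * 4 ^ i / n := by
        rw [le_div_iff₀ hnR]; exact_mod_cast (xs_lower n i).le
      have hi0 : (0 : ℝ) ≤ i := Nat.cast_nonneg _
      fin_cases c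
      · have hc := (mem_powersetCard.1 hY).2
        refine le_trans (le_trans (le_of_eq (by congr)) (win_bound hn hiN Y (θ := 0) (c := 0) le_rfl
          (fun h => h = 0) (by rintro _ rfl; simp))) ?_
        gcongr
        change _ ≤ -12 * (i : ℝ)
        rw [hc]
        linarith
      · have hc := (mem_powersetCard.1 hY).2
        refine le_trans (le_trans (le_of_eq (by congr)) (win_bound hn hiN Y (θ := Real.exp (-1))
          (c := 150 * i) (Real.exp_pos _).le (fun h => h < 150 * i) (fun h hh => ?_))) ?_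
        · rw [← Real.exp_nat_mul]
          have : (h : ℝ) ≤ 150 * i := by exact_mod_cast hh.le
          exact Real.exp_le_exp.2 (by linarith)
        gcongr
        change _ ≤ -142 * (i : ℝ)
        have h2 : Real.exp (-1) ≤ 1 / 2 := by
          rw [Real.exp_neg, one_div]
          have := Real.add_one_le_exp (1 : ℝ)
          exact inv_anti₀ (by norm_num) (by linarith)
        rw [hc]
        push_cast
        rw [mul_assoc (30 : ℝ), mul_div_assoc (30 : ℝ)]
        nlinarith
      · have hY' : Y ∈ (if 4 ^ i ≤ 4 * n then (Icc 1 (xs n i)).biUnion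
            (fun t => powersetCard t (univ : Finset (Fin n))) else ∅) := hY
        split_ifs at hY' with h4
        swap
        · simp at hY'
        obtain ⟨t, ht, hc⟩ := mem_biUnion.1 hY'
        have hc := (mem_powersetCard.1 hc).2
        have ht := mem_Icc.1 ht
        have htR : (1 : ℝ) ≤ t := by exact_mod_cast ht.1
        have hxt : (1 : ℝ) ≤ xs n i / t := by
          rw [le_div_iff₀ (by linarith), one_mul]; exact_mod_cast ht.2
        have hΛ := Real.log_nonneg hxt
        refine le_trans (le_trans (le_of_eq (by congr)) (win_bound hn hiN Y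
          (θ := Real.exp (2 + Real.log (xs n i / t))) (c := -(150 * i * (2 + Real.log (xs n i / t))))
          (Real.exp_pos _).le (fun h => 150 * i ≤ h) (fun h hh => ?_))) ?_
        · rw [← Real.exp_nat_mul, neg_neg]
          have : (150 * i : ℝ) ≤ h := by exact_mod_cast hh
          exact Real.exp_le_exp.2 (by gcongr)
        gcongr
        change _ ≤ -114 * (i : ℝ) - 150 * i * Real.log (xs n i / Y.card)
        rw [hc, Real.exp_add, Real.exp_log (by linarith)]
        have h5 : Real.exp 2 ≤ 7.4 := by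
          have := Real.exp_one_lt_d9
          have e : Real.exp 2 = Real.exp 1 * Real.exp 1 := by rw [← Real.exp_add]; norm_num
          nlinarith [Real.exp_pos 1]
        have h6 : (xs n i * 4 ^ i / n : ℝ) ≤ 24 * i := by
          rw [div_le_iff₀ hnR]
          have a1 := xs_upper n i
          have a2 : n ≤ i * n := Nat.le_mul_of_pos_left _ hi.1
          exact_mod_cast (by nlinarith : xs n i * 4 ^ i ≤ 24 * i * n)
        have h7 : (Real.exp 2 * (xs n i / t) - 1) * (t * 4 ^ i / n) =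
            Real.exp 2 * (xs n i * 4 ^ i / n) - t * 4 ^ i / n := by field_simp
        have h8 : (0 : ℝ) ≤ t * 4 ^ i / n := by positivity
        have h9 : Real.exp 2 * (xs n i * 4 ^ i / n) ≤ 7.4 * (24 * i) := by gcongr
        rw [h7]
        nlinarith)
    (by
      have big : ∀ (a b : ℕ) (i : ℕ), 1 ≤ i → 2 * a + 9 ≤ b → (n.choose (a * xs n i) : ℝ) *
          ((n.choose (xs n i) : ℝ) * Real.exp (-b * i) ^ xs n i) ≤ Real.exp (-4 - i) := by
        intro a b i hi hab
        have hi' : (1 : ℝ) ≤ i := by exact_mod_cast hi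
        have hab' : (2 * a + 9 : ℝ) ≤ b := by exact_mod_cast hab
        have hc := fun y => (choose_le n y (4 ^ i) (one_le_pow₀ (by norm_num))).trans
          (sets_le n i y hi)
        calc _ ≤ Real.exp (2 * i * (a * xs n i : ℕ) + xs n i) * (Real.exp (2 * i * xs n i + xs n i)
              * Real.exp (-b * i) ^ xs n i) := by gcongr <;> exact hc _
          _ = Real.exp ((2 + (2 * a + 2 - b) * i) * xs n i) := by
              rw [← Real.exp_nat_mul, ← Real.exp_add, ← Real.exp_add]; congr 1; push_cast; ring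
          _ ≤ Real.exp (2 + (2 * a + 2 - b) * i) := exp_pow_le (xs_pos n i) (by nlinarith)
          _ ≤ _ := Real.exp_le_exp.2 (by nlinarith)
      rw [sum_sigma, Fin.sum_univ_three, sum_sigma, sum_sigma, sum_sigma]
      have s0 := geom_third 1 l (fun i => ∑ Y ∈ Ys 0 i, (n.choose (X 0 i Y.card) : ℝ) *
          Real.exp (p 0 i Y.card) ^ X 0 i Y.card) fun i hi => by
        have := big 1 12 i (mem_Icc.1 hi).1 (by norm_num)
        simpa [Ys, X, p] using this
      have s1 := geom_third 1 l (fun i => ∑ Y ∈ Ys 1 i, (n.choose (X 1 i Y.card) : ℝ) *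
          Real.exp (p 1 i Y.card) ^ X 1 i Y.card) fun i hi => by
        have := big 30 142 i (mem_Icc.1 hi).1 (by norm_num)
        simpa [Ys, X, p] using this
      have s2 := geom_third 1 l (fun i => ∑ Y ∈ Ys 2 i, (n.choose (X 2 i Y.card) : ℝ) *
          Real.exp (p 2 i Y.card) ^ X 2 i Y.card) fun i hi => by
        change ∑ Y ∈ (if 4 ^ i ≤ 4 * n then (Icc 1 (xs n i)).biUnion
          (fun t => powersetCard t (univ : Finset (Fin n))) else ∅), _ ≤ _
        split_ifs
        swap
        · simpa using (Real.exp_pos _).le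
        rw [sum_biUnion (fun a _ b _ hab => pairwise_disjoint_powersetCard _ hab)]
        have h1 := geom_small 1 (xs n i) (fun t => Real.exp (-2 - t)) fun _ _ => le_rfl
        refine le_trans (sum_le_sum fun t ht => ?_ : _ ≤ ∑ t ∈ Icc 1 (xs n i),
          Real.exp (-4 - i) * Real.exp (-2 - t)) ?_
        · refine le_trans (le_of_eq ?_) (sparse_term (mem_Icc.1 hi).1 (hφ i).1 (hφ i).2
            (mem_Icc.1 ht).1 (mem_Icc.1 ht).2)
          rw [sum_congr rfl (fun Y hY => by rw [(mem_powersetCard.1 hY).2]), sum_const,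
            card_powersetCard, card_univ, Fintype.card_fin, nsmul_eq_mul]
          rfl
        · rw [← mul_sum]
          exact mul_le_of_le_one_right (Real.exp_pos _).le h1.le
      linarith)
  have mono : ∀ (g : ℕ → Fin n) s w (Y Y' : Finset (Fin n)), Y' ⊆ Y → cntW g s w Y' ≤ cntW g s w Y :=
    fun g s w Y Y' h => card_le_card fun u hu =>
      mem_filter.2 ⟨(mem_filter.1 hu).1, h (mem_filter.1 hu).2⟩
  refine ⟨fun q k => F q (Fin.ofNat (N + 1) k), fun i hi hl Y =>
    ⟨fun hY => ?_, fun hY => ?_, fun h4 hY => ?_⟩⟩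
  · obtain ⟨Y', hY', hc⟩ := exists_subset_card_eq hY
    have := hF ⟨0, i, Y'⟩ (mem_sigma.2 ⟨mem_univ _, mem_sigma.2 ⟨mem_Icc.2 ⟨hi, hl⟩,
      mem_powersetCard.2 ⟨subset_univ _, hc⟩⟩⟩)
    refine lt_of_le_of_lt (card_le_card fun q hq => ?_) this
    obtain ⟨w, hw, hq⟩ := (mem_filter.1 hq).2
    exact mem_filter.2 ⟨mem_univ _, mem_filter.2 ⟨mem_univ _, w, hw,
      Nat.le_zero.1 ((mono _ _ _ _ _ hY').trans hq.le)⟩⟩
  · obtain ⟨Y', hY', hc⟩ := exists_subset_card_eq hY
    have := hF ⟨1, i, Y'⟩ (mem_sigma.2 ⟨mem_univ _, mem_sigma.2 ⟨mem_Icc.2 ⟨hi, hl⟩,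
      mem_powersetCard.2 ⟨subset_univ _, hc⟩⟩⟩)
    refine lt_of_le_of_lt (card_le_card fun q hq => ?_) this
    obtain ⟨w, hw, hq⟩ := (mem_filter.1 hq).2
    exact mem_filter.2 ⟨mem_univ _, mem_filter.2 ⟨mem_univ _, w, hw,
      (mono _ _ _ _ _ hY').trans_lt hq⟩⟩
  · rcases Y.eq_empty_or_nonempty with rfl | hne
    · rw [filter_false_of_mem, card_empty, zero_mul]
      rintro q _ ⟨w, _, hq⟩
      simp only [cntW, notMem_empty, filter_false, card_empty] at hq
      omega
    have hm : Y ∈ (if 4 ^ i ≤ 4 * n then (Icc 1 (xs n i)).biUnion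
        (fun t => powersetCard t (univ : Finset (Fin n))) else ∅) := by
      rw [if_pos h4]
      exact mem_biUnion.2 ⟨Y.card, mem_Icc.2 ⟨card_pos.2 hne, hY⟩,
        mem_powersetCard.2 ⟨subset_univ _, rfl⟩⟩
    have := hF ⟨2, i, Y⟩ (mem_sigma.2 ⟨mem_univ _, mem_sigma.2 ⟨mem_Icc.2 ⟨hi, hl⟩, hm⟩⟩)
    refine le_trans (Nat.mul_le_mul_right _ (Nat.le_of_lt_succ
      (lt_of_le_of_lt (card_le_card fun q hq => ?_) this))) (Nat.div_mul_le_self _ _)
    exact mem_filter.2 ⟨mem_univ _, mem_filter.2 ⟨mem_univ _, (mem_filter.1 hq).2⟩⟩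

end Pool.Agent.P.MP_7e7371_lc
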