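import Mathlib

/-! The layered spreading argument: a long chain of layers of active processes is impossible. -/

namespace Pool.Agent.P.MP_7e7371_lc

open Finset

/-- Abstract data of `m` consecutive layers at one scale. -/
structure Layers (n x f φ m : ℕ) where
  A : ℕ → Finset (Fin n)
  Win : ℕ → Fin n → Finset (Fin n)
  M : ℕ → Fin n → Finset (Fin n)
  F : ℕ → Fin n → Finset (Fin n)
  Hit : Fin n → Finset (Fin n) → Finset (Fin n)
  Hv : ℕ → Finset (Fin n) → Finset (Fin n)
  xpos : 0 < x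
  big : ∀ j < m, 31 * x ≤ (A j).card
  deg : ∀ j < m, ∀ Y : Finset (Fin n), 30 * x ≤ Y.card → (A j \ Hv j Y).card < x
  res : ∀ j q Y T, q ∈ Hv j Y → (∀ p ∈ Win j q, p ∈ Y → p ∈ T) → q ∈ Hv j T
  sp2 : ∀ j < m, ∀ T : Finset (Fin n), T.card ≤ x → (A j ∩ Hv j T).card * 2 ≤ T.card
  spf : ∀ j < m, ∀ T : Finset (Fin n), T.card * 2 ^ φ ≤ x → (A j ∩ Hv j T).card * φ ≤ T.card
  link : ∀ j, j + 1 < m → ∀ q ∈ A (j + 1), ∀ p ∈ A j, p ∈ Win (j + 1) q → F j p ⊆ M (j + 1) q
  winM : ∀ j < m, ∀ q ∈ A j, Win j q ⊆ M j q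
  MF : ∀ j < m, ∀ q ∈ A j, M j q ⊆ F j q
  Fne : ∀ j < m, ∀ q ∈ A j, F j q ≠ univ
  work : ∀ j < m, ∀ q ∈ A j, ∀ T, (M j q)ᶜ ⊆ T → Hit q T ⊆ F j q
  expand : ∀ j < m, ∀ Y : Finset (Fin n), x ≤ Y.card →
    ((A j).filter (fun q => Disjoint (Win j q) Y)).card < x
  cover : ∀ T Y : Finset (Fin n), Y ⊆ T → T.card ≤ 2 * x → T.card < Y.card * (2 * f) →
    (univ.filter (fun q => Disjoint (Hit q T) Y)).card < x

namespace Layers

variable {n x f φ m : ℕ} (L : Layers n x f φ m)

/-- members of layer `i` whose mid knowledge reaches some member of `X` at layer `j` -/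
def S (j i : ℕ) (X : Finset (Fin n)) : Finset (Fin n) :=
  (L.A i).filter (fun p => ∃ q ∈ X, L.M i p ⊆ L.M j q)

lemma exists_hit {j : ℕ} (hj : j < m) {B Y : Finset (Fin n)} (hB : B ⊆ L.A j) (hx : x ≤ B.card)
    (hY : x ≤ Y.card) : ∃ q ∈ B, ∃ p ∈ L.Win j q, p ∈ Y := by
  by_contra h
  push Not at h
  have : B ⊆ (L.A j).filter (fun q => Disjoint (L.Win j q) Y) := by
    intro q hq
    exact mem_filter.2 ⟨hB hq, disjoint_left.2 (h q hq)⟩
  have := card_le_card this
  have := L.expand j hj Y hY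
  omega

lemma step {j i : ℕ} (hi : i + 1 < m) (X : Finset (Fin n)) (h : x ≤ (L.S j (i + 1) X).card) :
    ((L.A i).filter (fun p => ¬ ∃ q ∈ X, L.F i p ⊆ L.M j q)).card < x := by
  by_contra hc
  rw [not_lt] at hc
  obtain ⟨q, hq, p, hp, hpY⟩ := L.exists_hit hi (filter_subset _ _) h hc
  obtain ⟨hqA, q', hq', hsub⟩ := mem_filter.1 hq
  obtain ⟨hpA, hn⟩ := mem_filter.1 hpY
  exact hn ⟨q', hq', (L.link i hi q hqA p hpA hp).trans hsub⟩

/-- the members of layer `j + e` that read many members of the core of the layer below -/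
def core (j : ℕ) : ℕ → Finset (Fin n)
  | 0 => L.A j
  | e + 1 => L.A (j + (e + 1)) ∩ L.Hv (j + (e + 1)) (core j e)

lemma core_sub (j e : ℕ) : L.core j e ⊆ L.A (j + e) := by
  cases e with
  | zero => exact Subset.refl _
  | succ e => exact inter_subset_left

lemma core_big (j : ℕ) : ∀ e, j + e < m →
    (L.A (j + e) \ L.core j e).card < x ∧ 30 * x ≤ (L.core j e).card := by
  intro e
  induction e with
  | zero =>
    intro h
    have := L.big j h
    have := L.xpos
    simp only [core, add_zero, sdiff_self, bot_eq_empty, card_empty]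
    omega
  | succ e ih =>
    intro h
    have h1 := L.deg _ h _ (ih (by omega)).2
    have h2 := L.big _ h
    have h3 := card_sdiff_add_card_inter (L.A (j + (e + 1))) (L.Hv (j + (e + 1)) (L.core j e))
    simp only [core, sdiff_inter_self_left]
    omega

/-- a member of the core has heard from many members of the bottom layer -/
lemma grow {j k1 : ℕ} (hk : x < φ ^ k1) (hm : j + (φ + k1) < m) {q : Fin n}
    (hq : q ∈ L.core j (φ + k1)) : x ≤ (L.S (j + (φ + k1)) j {q}).card := by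
  let Z : ℕ → Finset (Fin n) := fun e =>
    (L.core j e).filter (fun p => L.M (j + e) p ⊆ L.M (j + (φ + k1)) q)
  have h1 : ∀ e, j + (e + 1) < m → Z (e + 1) ⊆ L.A (j + (e + 1)) ∩ L.Hv (j + (e + 1)) (Z e) := by
    intro e he p hp
    obtain ⟨hp, hs⟩ := mem_filter.1 hp
    obtain ⟨a1, a2⟩ := mem_inter.1 hp
    refine mem_inter.2 ⟨a1, L.res _ _ _ _ a2 fun r hr hc => mem_filter.2 ⟨hc, ?_⟩⟩
    have a3 := L.core_sub j e hc
    exact (L.MF _ (by omega) r a3).trans ((L.link (j + e) he p a1 r a3 hr).trans hs)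
  by_contra hc
  have h0 : (Z 0).card ≤ x := by
    refine le_trans (card_le_card fun p hp => ?_) (not_le.1 hc).le
    exact mem_filter.2 ⟨(mem_filter.1 hp).1, q, mem_singleton_self q, (mem_filter.1 hp).2⟩
  have h2 : ∀ e, j + e < m → (Z e).card * 2 ^ e ≤ x := by
    intro e
    induction e with
    | zero => intro _; simpa using h0
    | succ e ih =>
      intro he
      have a1 := ih (by omega)
      have a2 := (Nat.mul_le_mul_right 2 (card_le_card (h1 e he))).trans
        (L.sp2 _ he (Z e) ((Nat.le_mul_of_pos_right _ (by positivity)).trans a1))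
      rw [pow_succ', ← mul_assoc]
      exact (Nat.mul_le_mul_right _ a2).trans a1
  have h3 : ∀ r, j + (φ + r) < m → (Z (φ + r)).card * φ ^ r ≤ x := by
    intro r
    induction r with
    | zero =>
      intro he
      rw [pow_zero, mul_one]
      exact (Nat.le_mul_of_pos_right _ (by positivity)).trans (h2 _ he)
    | succ r ih =>
      intro he
      have a1 := (Nat.mul_le_mul_left _ (Nat.pow_le_pow_right (by norm_num)
        (Nat.le_add_right φ r))).trans (h2 (φ + r) (by omega))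
      have a2 := (Nat.mul_le_mul_right φ (card_le_card (h1 (φ + r) he))).trans (L.spf _ he _ a1)
      rw [pow_succ', ← mul_assoc]
      exact (Nat.mul_le_mul_right _ a2).trans (ih (by omega))
  have h4 : 0 < (Z (φ + k1)).card := card_pos.2 ⟨q, mem_filter.2 ⟨hq, Subset.refl _⟩⟩
  have := (Nat.le_mul_of_pos_left _ h4).trans (h3 k1 hm)
  omega

/-- `q` (at layer `j'`) has heard from all but fewer than `x` members of layer `j` -/
def Good (j j' : ℕ) (q : Fin n) : Prop :=
  ((L.A j).filter (fun p => ¬ L.F j p ⊆ L.M j' q)).card < x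

instance (j j' : ℕ) : DecidablePred (L.Good j j') := fun _ => Nat.decLt _ _

lemma comm {k j : ℕ} (hk : ∃ k1, k = φ + k1 ∧ x < φ ^ k1) (hj : j + k + 1 < m) :
    ((L.A (j + k + 1)).filter (fun q => ¬ L.Good j (j + k + 1) q)).card < x := by
  obtain ⟨k1, rfl, hk⟩ := hk
  have e : j + (φ + k1) + 1 = j + 1 + (φ + k1) := by omega
  rw [e] at hj ⊢
  refine lt_of_le_of_lt (card_le_card fun q hq => ?_) (L.core_big (j + 1) _ hj).1
  refine mem_sdiff.2 ⟨(mem_filter.1 hq).1, fun hc => (mem_filter.1 hq).2 ?_⟩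
  have h2 := L.step (i := j) (by omega) {q} (L.grow hk hj hc)
  unfold Good
  simpa using h2

/-- most members of layer `j` end with at most `u` unknown registers -/
def Inv (j u : ℕ) : Prop :=
  ((L.A j).filter (fun q => ¬ (L.F j q)ᶜ.card ≤ u)).card < x

lemma inv_zero {k : ℕ} (hk : ∃ k1, k = φ + k1 ∧ x < φ ^ k1) (hm : k + 1 < m) : L.Inv (k + 1) x := by
  have h := L.comm (j := 0) hk (by omega)
  simp only [zero_add] at h
  refine lt_of_le_of_lt (card_le_card ?_) h
  intro q hq
  obtain ⟨hqA, hq⟩ := mem_filter.1 hq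
  refine mem_filter.2 ⟨hqA, fun hg => hq ?_⟩
  have h3 := card_filter_add_card_filter_not (s := L.A 0) (fun p => L.F 0 p ⊆ L.M (k + 1) q)
  have h2 := L.big 0 (by omega)
  unfold Good at hg
  by_contra hY
  have hY' : x ≤ (L.F (k + 1) q)ᶜ.card := by omega
  obtain ⟨p, hp, r, hr, hrY⟩ := L.exists_hit (j := 0) (by omega)
    (filter_subset (fun p => L.F 0 p ⊆ L.M (k + 1) q) _) (by omega) hY'
  obtain ⟨hpA, hs⟩ := mem_filter.1 hp
  exact (mem_compl.1 hrY) (L.MF _ hm q hqA (hs (L.MF 0 (by omega) p hpA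
    (L.winM 0 (by omega) p hpA hr))))

lemma inv_step {k j u : ℕ} (hk : ∃ k1, k = φ + k1 ∧ x < φ ^ k1) (hf : 0 < f) (hm : j + 2 * (k + 1) < m) (hu : u ≤ x)
    (h : L.Inv j u) : L.Inv (j + 2 * (k + 1)) (u / f) := by
  have hx := L.xpos
  set G := (L.A j).filter (fun q => (L.F j q)ᶜ.card ≤ u) with hG
  have hGc : 2 * x ≤ G.card := by
    have h3 := card_filter_add_card_filter_not (s := L.A j) (fun q => (L.F j q)ᶜ.card ≤ u)
    have h2 := L.big j (by omega)
    unfold Inv at h
    rw [← hG] at h3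
    omega
  set T := univ.filter (fun r => (G.filter (fun p => r ∈ L.F j p)).card < x) with hT
  have hTc : T.card ≤ 2 * u := by
    have h1 : ∑ p ∈ G, (T.filter (fun r => r ∉ L.F j p)).card
        = ∑ r ∈ T, (G.filter (fun p => r ∉ L.F j p)).card := by
      simp only [card_filter]
      exact sum_comm
    have h2 : ∑ p ∈ G, (T.filter (fun r => r ∉ L.F j p)).card ≤ G.card * u := by
      rw [← smul_eq_mul, ← sum_const]
      refine sum_le_sum fun p hp => le_trans (card_le_card ?_) (mem_filter.1 hp).2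
      intro r hr
      exact mem_compl.2 (mem_filter.1 hr).2
    have h3 : T.card * (G.card - x) ≤ ∑ r ∈ T, (G.filter (fun p => r ∉ L.F j p)).card := by
      rw [← smul_eq_mul, ← sum_const]
      refine sum_le_sum fun r hr => ?_
      have h4 := (mem_filter.1 hr).2
      have h5 := card_filter_add_card_filter_not (s := G) (fun p => r ∈ L.F j p)
      omega
    have h4 : T.card * (G.card - x) ≤ (2 * u) * (G.card - x) := by
      have : G.card ≤ 2 * (G.card - x) := by omega
      nlinarith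
    exact Nat.le_of_mul_le_mul_right h4 (by omega)
  have hc1 := L.comm (j := j) hk (by omega)
  have hc2 := L.comm (j := j + k + 1) hk (by omega)
  have e : j + k + 1 + k + 1 = j + 2 * (k + 1) := by omega
  rw [e] at hc2
  have hG1 : ∀ q, L.Good j (j + k + 1) q → (L.M (j + k + 1) q)ᶜ ⊆ T := by
    intro q hq r hr
    refine mem_filter.2 ⟨mem_univ _, lt_of_le_of_lt (card_le_card ?_) hq⟩
    intro p hp
    obtain ⟨hpG, hp⟩ := mem_filter.1 hp
    exact mem_filter.2 ⟨(mem_filter.1 hpG).1, fun hs => (mem_compl.1 hr) (hs hp)⟩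
  refine lt_of_le_of_lt (card_le_card ?_) hc2
  intro q hq
  obtain ⟨hqA, hq⟩ := mem_filter.1 hq
  refine mem_filter.2 ⟨hqA, fun hg => hq ?_⟩
  set B := (L.A (j + k + 1)).filter (fun p => L.Good j (j + k + 1) p ∧
    L.F (j + k + 1) p ⊆ L.M (j + 2 * (k + 1)) q) with hB
  have hBc : x ≤ B.card := by
    have h2 := L.big (j + k + 1) (by omega)
    have h3 : L.A (j + k + 1) ⊆ B ∪ ((L.A (j + k + 1)).filter (fun q => ¬ L.Good j (j + k + 1) q)
        ∪ (L.A (j + k + 1)).filter (fun p => ¬ L.F (j + k + 1) p ⊆ L.M (j + 2 * (k + 1)) q)) := by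
      intro p hp
      simp only [hB, mem_union, mem_filter]
      tauto
    have h4 := (card_le_card h3).trans ((card_union_le _ _).trans
      (Nat.add_le_add_left (card_union_le _ _) _))
    unfold Good at hg
    omega
  have hY : (L.M (j + 2 * (k + 1)) q)ᶜ ⊆ T := by
    obtain ⟨p, hp⟩ : B.Nonempty := card_pos.1 (by omega)
    obtain ⟨hpA, hp1, hp2⟩ := mem_filter.1 hp
    exact (compl_subset_compl.2 ((L.MF _ (by omega) p hpA).trans hp2)).trans (hG1 p hp1)
  have hsm : ¬ T.card < (L.M (j + 2 * (k + 1)) q)ᶜ.card * (2 * f) := by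
    intro hlt
    have h5 := L.cover T _ hY (by omega) hlt
    have h6 : B ⊆ univ.filter (fun p => Disjoint (L.Hit p T) (L.M (j + 2 * (k + 1)) q)ᶜ) := by
      intro p hp
      obtain ⟨hpA, hp1, hp2⟩ := mem_filter.1 hp
      refine mem_filter.2 ⟨mem_univ _, disjoint_left.2 fun r hr hr' => (mem_compl.1 hr') ?_⟩
      exact hp2 (L.work _ (by omega) p hpA T (hG1 p hp1) hr)
    have := card_le_card h6
    omega
  have h7 : (L.F (j + 2 * (k + 1)) q)ᶜ.card ≤ (L.M (j + 2 * (k + 1)) q)ᶜ.card :=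
    card_le_card (compl_subset_compl.2 (L.MF _ hm q hqA))
  rw [Nat.le_div_iff_mul_le hf]
  nlinarith

include L in
theorem bound {k t : ℕ} (hk : ∃ k1, k = φ + k1 ∧ x < φ ^ k1) (hf : 0 < f) (ht : x < f ^ t) :
    m ≤ (k + 1) * (2 * t + 1) := by
  by_contra hm
  push Not at hm
  have key : ∀ i ≤ t, L.Inv ((k + 1) * (2 * i + 1)) (x / f ^ i) := by
    intro i
    induction i with
    | zero => intro _; simpa using L.inv_zero hk (by nlinarith)
    | succ i ih =>
      intro hi
      have e : (k + 1) * (2 * (i + 1) + 1) = (k + 1) * (2 * i + 1) + 2 * (k + 1) := by ring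
      have h1 : (k + 1) * (2 * (i + 1) + 1) ≤ (k + 1) * (2 * t + 1) :=
        Nat.mul_le_mul_left _ (by omega)
      rw [e, pow_succ, ← Nat.div_div_eq_div_mul]
      exact L.inv_step hk hf (by omega) (Nat.div_le_self _ _) (ih (by omega))
  have h := key t le_rfl
  rw [Nat.div_eq_of_lt ht] at h
  have h2 := L.big _ hm
  have hx := L.xpos
  unfold Inv at h
  rw [filter_true_of_mem] at h
  · omega
  · intro q hq hc
    apply L.Fne _ hm q hq
    have : (L.F ((k + 1) * (2 * t + 1)) q)ᶜ = ∅ := card_eq_zero.1 (by omega)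
    simpa using this

end Layers

end Pool.Agent.P.MP_7e7371_lc
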