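import Pool.Agent.P.MP_7e7371_lc.OneShot

/-! Multi-scale accounting: one cooperative scan costs `O(n log^3 n / log log n)` steps. -/

namespace Pool.Agent.P.MP_7e7371_lc

open Finset

lemma exists_partition (H : ℕ → ℕ → Prop) (hirr : ∀ a, ¬ H a a) (N m : ℕ)
    (hch : ∀ (k : ℕ) (b : ℕ → ℕ),
      (∀ j < k, b j ≤ b (j + 1) ∧ b (j + 1) ≤ N ∧ H (b j) (b (j + 1))) → k ≤ m) :
    ∃ st : ℕ → ℕ, (∀ t, st t ≤ t) ∧ (∀ t, ¬ H (st t) t) ∧
      (∀ t u, st t ≤ u → u ≤ t → st u = st t) ∧ ((range (N + 1)).image st).card ≤ m + 1 := by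
  classical
  let st : ℕ → ℕ := fun t => Nat.rec 0 (fun t a => if H a (t + 1) then t + 1 else a) t
  have h0 : st 0 = 0 := rfl
  have hs : ∀ t, st (t + 1) = if H (st t) (t + 1) then t + 1 else st t := fun t => rfl
  have h1 : ∀ t, st t ≤ t := by
    intro t
    induction t with
    | zero => exact h0.le
    | succ t ih => rw [hs]; split_ifs <;> omega
  refine ⟨st, h1, ?_, ?_, ?_⟩
  · intro t
    cases t with
    | zero => exact hirr 0
    | succ t =>
      rw [hs]
      split_ifs with h
      · exact hirr _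
      · exact h
  · intro t
    induction t with
    | zero => intro u _ hu; rw [Nat.le_zero.1 hu]
    | succ t ih =>
      intro u h2 h3
      rcases h3.eq_or_lt with rfl | h3
      · rfl
      · rw [hs] at h2 ⊢
        split_ifs at h2 ⊢
        · omega
        · exact ih u h2 (by omega)
  · have key : ∀ t, ∃ k, ((range (t + 1)).image st).card ≤ k + 1 ∧ ∃ b : ℕ → ℕ, b k = st t ∧
        ∀ j < k, b j ≤ b (j + 1) ∧ b (j + 1) ≤ t ∧ H (b j) (b (j + 1)) := by
      intro t
      induction t with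
      | zero => exact ⟨0, by simp, fun _ => 0, rfl, by simp⟩
      | succ t ih =>
        obtain ⟨k, hk, b, hb, hb'⟩ := ih
        rw [range_add_one, image_insert]
        by_cases h : H (st t) (t + 1)
        · refine ⟨k + 1, (card_insert_le _ _).trans (by omega),
            fun j => if j ≤ k then b j else t + 1, by simp [hs, h], fun j hj => ?_⟩
          by_cases hjk : j = k
          · subst hjk
            have := h1 t
            simp only [le_refl, if_true, Nat.not_succ_le_self, if_false, hb]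
            exact ⟨by omega, trivial, h⟩
          · have := hb' j (by omega)
            simp only [show j ≤ k by omega, show j + 1 ≤ k by omega, if_true]
            exact ⟨this.1, by omega, this.2.2⟩
        · refine ⟨k, ?_, b, by simp [hs, h, hb], fun j hj => ?_⟩
          · rw [insert_eq_of_mem]
            · exact hk
            · exact mem_image.2 ⟨t, by simp, by simp [hs, h]⟩
          · have := hb' j hj
            exact ⟨this.1, by omega, this.2.2⟩
    obtain ⟨k, hk, b, _, hb⟩ := key N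
    have := hch k b hb
    omega

lemma card_steps_le {n : ℕ} (act : ℕ → Option (Fin n)) (S Bs : Finset ℕ)
    (Hq : ℕ → Finset (Fin n)) (X h : ℕ) (hX : ∀ b ∈ Bs, (Hq b).card ≤ X)
    (hS : ∀ t ∈ S, ∃ q, act t = some q ∧ ∃ b ∈ Bs, b ≤ t ∧ q ∈ Hq b ∧
      cntOf act q t < cntOf act q b + h) : S.card ≤ Bs.card * (X * h) := by
  have h1 : S ⊆ Bs.biUnion (fun b => (Hq b).biUnion (fun q => S.filter (fun t =>
      act t = some q ∧ b ≤ t ∧ cntOf act q t < cntOf act q b + h))) := by
    intro t ht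
    obtain ⟨q, hq, b, hb, h2, h3, h4⟩ := hS t ht
    exact mem_biUnion.2 ⟨b, hb, mem_biUnion.2 ⟨q, h3, mem_filter.2 ⟨ht, hq, h2, h4⟩⟩⟩
  refine (card_le_card h1).trans (card_biUnion_le_card_mul _ _ _ fun b hb => ?_)
  refine (card_biUnion_le_card_mul _ _ h fun q _ => ?_).trans
    (Nat.mul_le_mul_right _ (hX b hb))
  have : (Ico (cntOf act q b) (cntOf act q b + h)).card = h := by simp
  refine le_trans (card_le_card_of_injOn (cntOf act q) (fun t ht => ?_) ?_) this.le
  · have ht := (mem_filter.1 (mem_coe.1 ht)).2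
    exact mem_coe.2 (mem_Ico.2 ⟨cntOf_mono act q ht.2.1, ht.2.2⟩)
  · have aux : ∀ t u, act t = some q → t < u → cntOf act q t < cntOf act q u := by
      intro t u ht htu
      have h2 := cntOf_mono act q (show t + 1 ≤ u by omega)
      rw [cntOf_succ, if_pos ht] at h2
      omega
    intro t ht u hu e
    have ht := (mem_filter.1 (mem_coe.1 ht)).2.1
    have hu := (mem_filter.1 (mem_coe.1 hu)).2.1
    rcases lt_trichotomy t u with h | h | h
    · have := aux t u ht h; omega
    · exact h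
    · have := aux u t hu h; omega

/-- total number of steps before time `N` -/
def total {n : ℕ} (act : ℕ → Option (Fin n)) (N : ℕ) : ℕ :=
  ((range N).filter (fun t => act t ≠ none)).card

lemma sum_cnt {n : ℕ} (act : ℕ → Option (Fin n)) (N : ℕ) :
    ∑ q, cntOf act q N = total act N := by
  induction N with
  | zero => simp [cntOf, total]
  | succ N ih =>
    simp only [cntOf_succ, sum_add_distrib, ih]
    unfold total
    rw [range_add_one, filter_insert]
    cases h : act N with
    | none => simp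
    | some q => rw [if_pos (by simp), card_insert_of_notMem (by simp)]; simp

lemma total_succ_le {n : ℕ} (act : ℕ → Option (Fin n)) (N : ℕ) :
    total act (N + 1) ≤ total act N + 1 := by
  unfold total
  rw [range_add_one, filter_insert]
  split_ifs
  · exact card_insert_le _ _
  · omega

/-- steps made within the first `h` own steps of the current block -/
def light {n : ℕ} (act : ℕ → Option (Fin n)) (N : ℕ) (st : ℕ → ℕ) (h : ℕ) : Finset ℕ :=
  (range N).filter (fun t => ∃ q, act t = some q ∧ cntOf act q t < cntOf act q (st t) + h)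

lemma light_base {n : ℕ} (act : ℕ → Option (Fin n)) (N : ℕ) (st : ℕ → ℕ) (h : ℕ)
    (h1 : ∀ t, st t ≤ t) :
    (light act N st h).card ≤ ((range (N + 1)).image st).card * (n * h) := by
  refine card_steps_le act _ _ (fun _ => univ) n h (by simp) fun t ht => ?_
  obtain ⟨ht, q, hq, hc⟩ := mem_filter.1 ht
  exact ⟨q, hq, st t, mem_image.2 ⟨t, by simp at ht ⊢; omega, rfl⟩, h1 t, mem_univ _, hc⟩

lemma light_step {n : ℕ} (act : ℕ → Option (Fin n)) (N : ℕ) (st st' : ℕ → ℕ) (h h' X : ℕ)
    (h1 : ∀ t, st t ≤ t) (h1' : ∀ t, st' t ≤ t) (h2 : ∀ t u, st t ≤ u → u ≤ t → st u = st t)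
    (hX : ∀ t, (univ.filter (fun q => cntOf act q (st t) + h ≤ cntOf act q t)).card ≤ X) :
    (light act N st' h').card ≤ (light act N st h).card +
      (((range (N + 1)).image st).card + ((range (N + 1)).image st').card) * (X * h') := by
  have h3 := card_steps_le act (light act N st' h' \ light act N st h)
    ((range (N + 1)).image st ∪ (range (N + 1)).image st')
    (fun b => ((range (N + 1)).filter (fun t => st t = st b)).biUnion (fun t =>
      univ.filter (fun q : Fin n => cntOf act q (st t) + h ≤ cntOf act q t))) X h' (by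
      intro b hb
      have hbN : b ∈ range (N + 1) := by
        rcases mem_union.1 hb with hb | hb <;> obtain ⟨t, ht, rfl⟩ := mem_image.1 hb
        · have := h1 t; simp at ht ⊢; omega
        · have := h1' t; simp at ht ⊢; omega
      obtain ⟨u, hu, hmax⟩ := exists_max_image ((range (N + 1)).filter (fun t => st t = st b)) id
        ⟨b, mem_filter.2 ⟨hbN, rfl⟩⟩
      refine le_trans (card_le_card ?_) (hX u)
      intro q hq
      obtain ⟨t, ht, hc⟩ := mem_biUnion.1 hq
      obtain ⟨ht, e⟩ := mem_filter.1 ht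
      have hc := (mem_filter.1 hc).2
      have h4 := cntOf_mono act q (hmax t (mem_filter.2 ⟨ht, e⟩))
      refine mem_filter.2 ⟨mem_univ _, ?_⟩
      rw [(mem_filter.1 hu).2, ← e]
      exact hc.trans h4) (by
      intro t ht
      obtain ⟨ht, hn⟩ := mem_sdiff.1 ht
      obtain ⟨ht, q, hq, hc⟩ := mem_filter.1 ht
      have htN : t ∈ range (N + 1) := by simp at ht ⊢; omega
      have hh : cntOf act q (st t) + h ≤ cntOf act q t := by
        by_contra hh
        exact hn (mem_filter.2 ⟨ht, q, hq, by omega⟩)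
      refine ⟨q, hq, max (st t) (st' t), ?_, max_le (h1 t) (h1' t),
        mem_biUnion.2 ⟨t, mem_filter.2 ⟨htN, ?_⟩, mem_filter.2 ⟨mem_univ _, hh⟩⟩, ?_⟩
      · rcases max_choice (st t) (st' t) with e | e <;> rw [e]
        · exact mem_union_left _ (mem_image.2 ⟨t, htN, rfl⟩)
        · exact mem_union_right _ (mem_image.2 ⟨t, htN, rfl⟩)
      · exact (h2 t _ (le_max_left _ _) (max_le (h1 t) (h1' t))).symm
      · have := cntOf_mono act q (le_max_right (st t) (st' t))
        omega)
  have h4 := card_le_card_sdiff_add_card (s := light act N st' h') (t := light act N st h)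
  have h5 := Nat.mul_le_mul_right (X * h')
    (card_union_le ((range (N + 1)).image st) ((range (N + 1)).image st'))
  omega

/-- about half of the binary logarithm of `l` -/
def lg (l : ℕ) : ℕ := Nat.log 2 l / 2 + 1

/-- the expansion factor used at scale `i` -/
def ph (l i : ℕ) : ℕ := if 2 ^ lg l ≤ i then 2 ^ lg l else 2

/-- the number of layers that spread knowledge at scale `i` -/
def ka (l i : ℕ) : ℕ := if 2 ^ lg l ≤ i then 2 ^ lg l + (l / lg l + 1) + 1 else l + 3

lemma lg_pos (l : ℕ) : 0 < lg l := Nat.succ_pos _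

lemma ph_le (l i : ℕ) : 2 ≤ ph l i ∧ ph l i ≤ i + 2 := by
  have : 2 ^ 1 ≤ 2 ^ lg l := Nat.pow_le_pow_right (by norm_num) (lg_pos l)
  unfold ph
  split_ifs <;> omega

lemma lg_le {l : ℕ} (hl : 0 < l) : lg l ≤ l ∧ lg l * 2 ^ lg l ≤ 4 * l := by
  have h1 : Nat.log 2 l < l := Nat.log_lt_self 2 hl.ne'
  have h2 : 2 ^ Nat.log 2 l ≤ l := Nat.pow_log_le_self 2 hl.ne'
  have h3 : 2 ^ (lg l + lg l) ≤ 2 ^ (Nat.log 2 l + 2) :=
    Nat.pow_le_pow_right (by norm_num) (by unfold lg; omega)
  have h4 : lg l * 2 ^ lg l ≤ 2 ^ lg l * 2 ^ lg l :=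
    Nat.mul_le_mul_right _ (Nat.lt_pow_self (by norm_num)).le
  rw [pow_add, pow_add] at h3
  exact ⟨by unfold lg; omega, by omega⟩

lemma ka_big {l i : ℕ} (hl : 0 < l) (h : 2 ^ lg l ≤ i) : lg l * ka l i ≤ 7 * l := by
  obtain ⟨h1, h2⟩ := lg_le hl
  have h3 := Nat.mul_div_le l (lg l)
  rw [ka, if_pos h, mul_add, mul_add, mul_add]
  omega

lemma ka_le {l : ℕ} (hl : 0 < l) (i : ℕ) : ka l i ≤ 7 * l := by
  by_cases h : 2 ^ lg l ≤ i
  · exact (Nat.le_mul_of_pos_left _ (lg_pos l)).trans (ka_big hl h)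
  · rw [ka, if_neg h]; omega

/-- the combinatorial properties of the gossip sequences and work lists, up to scale `l` -/
structure GoodLists (n l : ℕ) (g : Fin n → ℕ → Fin n) (L : Fin n → List (Fin n)) : Prop where
  full : ∀ q r, r ∈ L q
  gos : ∀ i, 1 ≤ i → i ≤ l → ∀ Y : Finset (Fin n),
      (xs n i ≤ Y.card → (univ.filter (fun q => ∃ w < (4 ^ i) ^ 4,
        cntW (g q) (4 ^ i) w Y = 0)).card < xs n i) ∧
      (30 * xs n i ≤ Y.card → (univ.filter (fun q => ∃ w < (4 ^ i) ^ 4,
        cntW (g q) (4 ^ i) w Y < 150 * i)).card < xs n i) ∧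
      (4 ^ i ≤ 4 * n → Y.card ≤ xs n i → (univ.filter (fun q => ∃ w < (4 ^ i) ^ 4,
        150 * i ≤ cntW (g q) (4 ^ i) w Y)).card * fac (ph l i) (xs n i) Y.card ≤ Y.card)
  wrk : ∀ i, 7 ≤ i → i ≤ l → ∀ T Y : Finset (Fin n), Y ⊆ T → T.card ≤ 2 * xs n i →
      T.card < Y.card * (2 * 2 ^ i) →
      (univ.filter (fun q => Disjoint (hits (L q) (4 ^ i) T) Y)).card < xs n i

lemma exists_goodLists (n l : ℕ) (hn : 0 < n) : ∃ g L, GoodLists n l g L := by
  obtain ⟨g, hg⟩ := exists_gossip n l hn (ph l) (ph_le l)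
  obtain ⟨L, h1, h2⟩ := exists_work n l hn
  exact ⟨g, L, h1, hg, h2⟩

namespace Trace

variable {n : ℕ} {g : Fin n → ℕ → Fin n} {L : Fin n → List (Fin n)} (R : Trace n g L)

lemma scale {l i N : ℕ} (hg : GoodLists n l g L) (hn : n < 2 ^ l) (hl : 2 ^ 25 ≤ l)
    (hN : total R.act N ≤ 2 ^ 25 * (n * l ^ 3)) (hi : l ≤ 4 ^ i) (hil : i ≤ l)
    (hin : 4 ^ i ≤ 4 * n) :
    ∃ st : ℕ → ℕ, (∀ t, st t ≤ t) ∧ (∀ t u, st t ≤ u → u ≤ t → st u = st t) ∧
      (∀ t, (univ.filter (fun q => cntOf R.act q (st t) + 12 * 4 ^ i ≤ cntOf R.act q t)).card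
        ≤ 32 * xs n i) ∧ i * ((range (N + 1)).image st).card ≤ 6 * l * ka l i := by
  have hi7 : 7 ≤ i := by
    by_contra h
    have : 4 ^ i ≤ 4 ^ 6 := Nat.pow_le_pow_right (by norm_num) (by omega)
    omega
  have hx := xs_pos n i
  have hold : (univ.filter (fun q => (4 ^ i) ^ 5 ≤ cntOf R.act q N)).card ≤ xs n i := by
    have h1 : (univ.filter (fun q => (4 ^ i) ^ 5 ≤ cntOf R.act q N)).card * (4 ^ i) ^ 5
        ≤ total R.act N := by
      rw [← sum_cnt, ← smul_eq_mul, ← sum_const]
      exact (sum_le_sum fun q hq => (mem_filter.1 hq).2).trans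
        (sum_le_sum_of_subset (filter_subset _ _))
    have h2 : n ≤ xs n i * 4 ^ i := by have := xs_lower n i; nlinarith
    have h3 : 2 ^ 25 * (n * l ^ 3) ≤ xs n i * (4 ^ i) ^ 5 := by
      calc 2 ^ 25 * (n * l ^ 3) ≤ l * (n * l ^ 3) := Nat.mul_le_mul_right _ hl
        _ = n * l ^ 4 := by ring
        _ ≤ (xs n i * 4 ^ i) * (4 ^ i) ^ 4 := Nat.mul_le_mul h2 (Nat.pow_le_pow_left hi 4)
        _ = _ := by ring
    exact Nat.le_of_mul_le_mul_right (h1.trans (hN.trans h3)) (by positivity)
  have hpw : ∀ a, 0 < a → n < (2 ^ a) ^ (l / a + 1) := by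
    intro a ha
    rw [← pow_mul]
    refine hn.trans_le (Nat.pow_le_pow_right (by norm_num) ?_)
    have := (Nat.div_lt_iff_lt_mul ha).1 (Nat.lt_succ_self (l / a))
    rw [mul_comm]; exact this.le
  obtain ⟨k, hk, hka⟩ : ∃ k, n < ph l i ^ k ∧ ph l i + k + 1 = ka l i := by
    unfold ph ka
    split_ifs
    · exact ⟨_, hpw _ (lg_pos l), rfl⟩
    · exact ⟨l, hn, by omega⟩
  obtain ⟨st, h1, h2, h3, h4⟩ := exists_partition (fun a b => 32 * xs n i ≤
    (univ.filter (fun q => cntOf R.act q a + 12 * 4 ^ i ≤ cntOf R.act q b)).card)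
    (by
      intro a
      rw [filter_false_of_mem (fun q _ => by have : 0 < 4 ^ i := by positivity
                                             omega)]
      simp; omega) N ((ph l i + k + 1) * (2 * (l / i + 1) + 1))
    (fun k b hb => R.chain (by omega) hx (by positivity) (ph_le l i).1 hk (hpw i (by omega))
      (fun Y => (hg.gos i (by omega) hil Y).imp id (And.imp id fun h => h hin))
      (hg.wrk i hi7 hil) hold b hb)
  refine ⟨st, h1, h3, fun t => (not_le.1 (h2 t)).le, (Nat.mul_le_mul_left i h4).trans ?_⟩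
  have h5 : i * (l / i) ≤ l := Nat.mul_div_le l i
  have h8 : 1 ≤ ka l i := by omega
  rw [hka]
  have h6 : i * (ka l i * (2 * (l / i + 1) + 1) + 1) =
      ka l i * (2 * (i * (l / i)) + 3 * i) + i := by ring
  rw [h6]
  have h7 : ka l i * (2 * (i * (l / i)) + 3 * i) ≤ ka l i * (5 * l) :=
    Nat.mul_le_mul_left _ (by omega)
  nlinarith

lemma light_all (hL : ∀ q r, r ∈ L q) (N : ℕ) (st : ℕ → ℕ) {h : ℕ} (hh : 3 * n + 1 < h) :
    (light R.act N st h).card = total R.act N := by
  unfold light total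
  congr 1
  refine filter_congr fun t _ => ?_
  cases e : R.act t with
  | none => simp
  | some q =>
    have := R.solo hL q t
    simp; omega

lemma total_step {l N : ℕ} (hg : GoodLists n l g L) (hn : n < 2 ^ l) (hnl : l ≤ n)
    (hl : 2 ^ 25 ≤ l) (hN : total R.act N ≤ 2 ^ 25 * (n * l ^ 3)) :
    lg l * total R.act N ≤ 20000000 * (n * l ^ 3) := by
  have hex : ∃ i, l ≤ 4 ^ i := ⟨l, (Nat.lt_pow_self (by norm_num)).le⟩
  set i0 := Nat.find hex with hi0
  have h0 : l ≤ 4 ^ i0 := Nat.find_spec hex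
  have h0l : i0 ≤ l := Nat.find_min' hex (Nat.lt_pow_self (by norm_num)).le
  have hl0 : 0 < l := by omega
  have hpos : 0 < i0 := by
    by_contra h
    rw [show i0 = 0 by omega] at h0
    omega
  have h0u : 4 ^ i0 ≤ 4 * l := by
    have := Nat.find_min hex (show i0 - 1 < Nat.find hex by omega)
    rw [show i0 = (i0 - 1) + 1 by omega, pow_succ]
    omega
  have hsc : ∀ i, ∃ st : ℕ → ℕ, i0 ≤ i → i ≤ l → (∀ t, st t ≤ t) ∧ (4 ^ i ≤ 4 * n →
      (∀ t u, st t ≤ u → u ≤ t → st u = st t) ∧
      (∀ t, (univ.filter (fun q => cntOf R.act q (st t) + 12 * 4 ^ i ≤ cntOf R.act q t)).card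
        ≤ 32 * xs n i) ∧ i * ((range (N + 1)).image st).card ≤ 6 * l * ka l i) := by
    intro i
    by_cases h : i0 ≤ i ∧ i ≤ l ∧ 4 ^ i ≤ 4 * n
    · obtain ⟨st, hst⟩ := R.scale hg hn hl hN
        (h0.trans (Nat.pow_le_pow_right (by norm_num) h.1)) h.2.1 h.2.2
      exact ⟨st, fun _ _ => ⟨hst.1, fun _ => hst.2⟩⟩
    · exact ⟨id, fun h1 h2 => ⟨fun _ => le_rfl, fun h3 => absurd ⟨h1, h2, h3⟩ h⟩⟩
  choose st hst using hsc
  have key : ∀ d i, i + d = l → i0 ≤ i →
      lg l * total R.act N ≤ lg l * (light R.act N (st i) (12 * 4 ^ i)).card +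
        (d + (2 ^ lg l - i) * lg l) * (2709504 * (n * l ^ 2)) := by
    intro d
    induction d with
    | zero =>
      intro i hi _
      have : 2 ^ l ≤ 4 ^ i := by
        rw [← hi]; exact Nat.pow_le_pow_left (by norm_num) _
      rw [R.light_all hg.full N _ (by omega)]
      omega
    | succ d ih =>
      intro i hi hi'
      by_cases hc : n ≤ 4 ^ i
      · rw [R.light_all hg.full N _ (by omega)]
        omega
      obtain ⟨a1, a2⟩ := hst i hi' (by omega)
      obtain ⟨a2, a3, a4⟩ := a2 (by omega)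
      obtain ⟨b1, b2⟩ := hst (i + 1) (by omega) (by omega)
      obtain ⟨_, _, b4⟩ := b2 (by rw [pow_succ]; omega)
      have h1 := light_step R.act N (st i) (st (i + 1)) _ (12 * 4 ^ (i + 1)) _ a1 b1 a2 a3
      have h2 := ih (i + 1) (by omega) (by omega)
      have h3 : xs n i * 4 ^ i ≤ 21 * i * n := by
        have := xs_upper n i
        have : n ≤ i * n := Nat.le_mul_of_pos_left _ (by omega)
        nlinarith
      set A := ((range (N + 1)).image (st i)).card
      set B := ((range (N + 1)).image (st (i + 1))).card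
      have h4 : (A + B) * (32 * xs n i * (12 * 4 ^ (i + 1))) ≤
          193536 * (n * l) * (ka l i + ka l (i + 1)) := by
        calc (A + B) * (32 * xs n i * (12 * 4 ^ (i + 1))) = 1536 * (A + B) * (xs n i * 4 ^ i) := by
              ring
          _ ≤ 1536 * (A + B) * (21 * i * n) := Nat.mul_le_mul_left _ h3
          _ = 32256 * n * (i * A + i * B) := by ring
          _ ≤ 32256 * n * (6 * l * ka l i + 6 * l * ka l (i + 1)) :=
              Nat.mul_le_mul_left _ (by nlinarith)
          _ = _ := by ring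
      have h5 := Nat.mul_le_mul_left (lg l) (h1.trans (Nat.add_le_add_left h4 _))
      have h6 : ∃ e, lg l * (ka l i + ka l (i + 1)) ≤ e * (14 * l) ∧
          d + (2 ^ lg l - (i + 1)) * lg l + e ≤ d + 1 + (2 ^ lg l - i) * lg l := by
        by_cases c : 2 ^ lg l ≤ i
        · have c1 := ka_big hl0 c
          have c2 := ka_big (i := i + 1) hl0 (c.trans (Nat.le_succ i))
          refine ⟨1, by rw [mul_add]; omega, ?_⟩
          rw [Nat.sub_eq_zero_of_le (m := i + 1) (c.trans (Nat.le_succ i))]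
          omega
        · have c1 := ka_le hl0 i
          have c2 := ka_le hl0 (i + 1)
          refine ⟨lg l, Nat.mul_le_mul_left _ (by omega), ?_⟩
          rw [show 2 ^ lg l - i = 2 ^ lg l - (i + 1) + 1 by omega, add_mul]
          omega
      obtain ⟨e, h6, h7⟩ := h6
      have h8 := Nat.mul_le_mul_left (193536 * (n * l)) h6
      have h9 := Nat.mul_le_mul_right (2709504 * (n * l ^ 2)) h7
      rw [mul_add, mul_left_comm] at h5
      rw [add_mul _ e] at h9
      have h10 : 193536 * (n * l) * (e * (14 * l)) = e * (2709504 * (n * l ^ 2)) := by ring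
      omega
  have h1 := key (l - i0) i0 (by omega) le_rfl
  obtain ⟨a1, a2⟩ := hst i0 le_rfl h0l
  obtain ⟨_, _, a4⟩ := a2 (by omega)
  have h2 := Nat.mul_le_mul_left (lg l) (light_base R.act N (st i0) (12 * 4 ^ i0) a1)
  have h3 : lg l * ((range (N + 1)).image (st i0)).card ≤ 84 * l ^ 2 := by
    have c1 : Nat.log 2 l ≤ 2 * i0 := by
      have := Nat.log_mono_right (b := 2) h0
      rwa [show 4 = 2 ^ 2 by norm_num, ← pow_mul, Nat.log_pow (by norm_num)] at this
    have c2 : lg l ≤ 2 * i0 := by unfold lg; omega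
    have c3 := Nat.mul_le_mul_left (6 * l) (ka_le hl0 i0)
    nlinarith [Nat.mul_le_mul_right ((range (N + 1)).image (st i0)).card c2]
  have h4 : lg l * ((range (N + 1)).image (st i0)).card * (n * (12 * 4 ^ i0))
      ≤ (84 * l ^ 2) * (n * (12 * (4 * l))) := by gcongr
  have h5 : (l - i0 + (2 ^ lg l - i0) * lg l) * (2709504 * (n * l ^ 2)) ≤
      (5 * l) * (2709504 * (n * l ^ 2)) := by
    refine Nat.mul_le_mul_right _ ?_
    have c1 := (lg_le hl0).2
    have c2 := Nat.mul_le_mul_right (lg l) (Nat.sub_le (2 ^ lg l) i0)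
    rw [mul_comm] at c1
    omega
  nlinarith

end Trace

theorem total_le : ∃ Z : ℕ, ∀ {n l : ℕ} {g : Fin n → ℕ → Fin n} {L : Fin n → List (Fin n)},
    GoodLists n l g L → n < 2 ^ l → 2 ^ l ≤ 2 * n → ∀ (R : Trace n g L) N,
      lg l * total R.act N ≤ Z * (n * l ^ 3) := by
  obtain ⟨Y, hY⟩ : ∃ Y, ∀ l < 2 ^ 25, 2 ^ l ≤ Y :=
    ⟨2 ^ 2 ^ 25, fun l h => Nat.pow_le_pow_right (by norm_num) h.le⟩
  refine ⟨20000000 + 4 * Y, fun {n l g L} hg hn hnl R N => ?_⟩
  have hn0 : 0 < n := by
    have : 0 < 2 ^ l := by positivity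
    omega
  have hl0 : 0 < l := by
    by_contra h
    rw [show l = 0 by omega] at hn
    omega
  have hp : 0 < n * l ^ 3 := by positivity
  by_cases hl : 2 ^ 25 ≤ l
  · have hln : l ≤ n := by
      have : l - 1 < 2 ^ (l - 1) := Nat.lt_pow_self (by norm_num)
      rw [show l = l - 1 + 1 by omega, pow_succ] at hnl
      omega
    have key : ∀ N, lg l * total R.act N ≤ 20000000 * (n * l ^ 3) := by
      intro N
      induction N with
      | zero => simp [total]
      | succ N ih =>
        refine R.total_step hg hn hln hl ((total_succ_le _ _).trans ?_)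
        have := Nat.le_mul_of_pos_left (total R.act N) (lg_pos l)
        omega
    exact (key N).trans (Nat.mul_le_mul_right _ (Nat.le_add_right _ _))
  · have h1 : total R.act N ≤ n * (4 * n) := by
      rw [← sum_cnt]
      calc _ ≤ ∑ _q : Fin n, 4 * n := sum_le_sum fun q _ => by
              have := R.solo hg.full q N; omega
        _ = _ := by simp
    have h2 := hY l (not_le.1 hl)
    have h3 : l ≤ l ^ 3 := Nat.le_self_pow (by norm_num) l
    calc _ ≤ l ^ 3 * (n * (4 * Y)) := Nat.mul_le_mul ((lg_le hl0).1.trans h3)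
          (h1.trans (Nat.mul_le_mul_left _ (by omega)))
      _ = 4 * Y * (n * l ^ 3) := by ring
      _ ≤ _ := Nat.mul_le_mul_right _ (Nat.le_add_left _ _)

end Pool.Agent.P.MP_7e7371_lc
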