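import Pool.Agent.P.MP_7e7371_lc.Epochs
import Pool.Agent.P.MP_7e7371_lc.Total

/-! The competitive bound. -/

namespace Pool.Agent.P.MP_7e7371_lc

open Finset

variable {n : ℕ} {V : Type} (v0 : V) (g : Fin n → ℕ → Fin n) (L : Fin n → List (Fin n))

/-- configuration at time `t` -/
def cfg (σ : List (Event n V)) (t : ℕ) : Config (alg v0 g L) := (alg v0 g L).run v0 (σ.take t)

open Classical in
/-- the process making a scan step in epoch `k` at time `t` -/
noncomputable def actE (σ : List (Event n V)) (k t : ℕ) : Option (Fin n) :=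
  if h : ∃ q e, σ[t]? = some e ∧ IsScan (cfg v0 g L σ t) e q ∧ (lc (cfg v0 g L σ t) q).rc.ep = k
  then some h.choose else none

variable {v0 g L}

lemma cfg_succ_some {σ : List (Event n V)} {t : ℕ} {e : Event n V} (h : σ[t]? = some e) :
    cfg v0 g L σ (t + 1) = (alg v0 g L).exec (cfg v0 g L σ t) e := by
  unfold cfg
  rw [List.take_add_one, h, Option.toList_some, Alg.run_snoc]

lemma cfg_succ_none {σ : List (Event n V)} {t : ℕ} (h : σ[t]? = none) :
    cfg v0 g L σ (t + 1) = cfg v0 g L σ t := by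
  unfold cfg
  rw [List.take_add_one, h, Option.toList_none, List.append_nil]

lemma actE_iff {σ : List (Event n V)} {k t : ℕ} {q : Fin n} : actE v0 g L σ k t = some q ↔
    ∃ e, σ[t]? = some e ∧ IsScan (cfg v0 g L σ t) e q ∧ (lc (cfg v0 g L σ t) q).rc.ep = k := by
  unfold actE
  split_ifs with h
  · constructor
    · intro e
      rw [← Option.some.inj e]
      exact h.choose_spec
    · rintro ⟨e, h1, h2, _⟩
      obtain ⟨e', h1', h2', _⟩ := h.choose_spec
      have := h2'.1.symm.trans ((Option.some.inj (h1'.symm.trans h1)).trans h2.1)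
      simpa using this
  · simp only [false_iff]
    exact fun h' => h ⟨q, h'⟩

lemma cnt_eq (σ : List (Event n V)) (k : ℕ) (q : Fin n) : ∀ t,
    ((lc (cfg v0 g L σ t) q).rc.ep = k →
      cntOf (actE v0 g L σ k) q t = (lc (cfg v0 g L σ t) q).cnt) ∧
    ((lc (cfg v0 g L σ t) q).rc.ep < k → cntOf (actE v0 g L σ k) q t = 0) := by
  intro t
  induction t with
  | zero => exact ⟨fun _ => rfl, fun _ => rfl⟩
  | succ t ih =>
    rw [cntOf_succ]
    cases h : σ[t]? with
    | none =>
      rw [cfg_succ_none h, if_neg (by simp [actE_iff, h])]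
      exact ih
    | some e =>
      rw [cfg_succ_some h]
      have hi : actE v0 g L σ k t = some q ↔
          IsScan (cfg v0 g L σ t) e q ∧ (lc (cfg v0 g L σ t) q).rc.ep = k := by
        simp only [actE_iff, h, Option.some.injEq, exists_eq_left']
      rcases effect (cfg v0 g L σ t) e q with ⟨h0, _, h1, _⟩ | ⟨h0, h1, _⟩ | ⟨h0, _, h1, _⟩ |
        ⟨h0, _, h1, _⟩ | ⟨h0, _, h1, _⟩ <;> rw [h1]
      · rw [if_neg (fun h' => h0 (hi.1 h').1)]; exact ih
      · rw [if_neg (fun h' => by simpa [h0] using (hi.1 h').1.1)]; exact ih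
      · rw [if_neg (fun h' => h0 (hi.1 h').1)]; exact ih
      · simp only
        constructor <;> intro hk
        · rw [if_pos (hi.2 ⟨h0, hk⟩), ih.1 hk]
        · rw [if_neg (fun h' => hk.ne (hi.1 h').2), ih.2 hk]
      · have hm : (lc (cfg v0 g L σ t) q).rc.ep ≤ (newRec (cfg v0 g L σ t) q).ep :=
          (Rec.absorb_know _ _ _ _).1
        simp only
        constructor <;> intro hk
        · by_cases h2 : (lc (cfg v0 g L σ t) q).rc.ep = k
          · rw [if_pos (hi.2 ⟨h0, h2⟩), if_pos (by omega), ih.1 h2]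
          · rw [if_neg (fun h' => h2 (hi.1 h').2), if_neg (by omega), ih.2 (by omega)]
        · rw [if_neg (fun h' => by have := (hi.1 h').2; omega), ih.2 (by omega)]

lemma scan_read {σ : List (Event n V)} {k t : ℕ} {q : Fin n} (h : actE v0 g L σ k t = some q)
    (h3 : cntOf (actE v0 g L σ k) q t % 3 ≠ 2) :
    (lc (cfg v0 g L σ t) q).rc.ep = k ∧
    cntOf (actE v0 g L σ k) q t = (lc (cfg v0 g L σ t) q).cnt ∧
    (lc (cfg v0 g L σ (t + 1)) q).rc = newRec (cfg v0 g L σ t) q := by
  obtain ⟨e, h1, h2, hk⟩ := actE_iff.1 h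
  have hc := (cnt_eq (v0 := v0) (g := g) (L := L) σ k q t).1 hk
  refine ⟨hk, hc, ?_⟩
  rw [cfg_succ_some h1]
  rcases effect (cfg v0 g L σ t) e q with ⟨h0, _⟩ | ⟨h0, _⟩ | ⟨h0, _⟩ | ⟨_, h0, _⟩ | ⟨_, _, h0, _⟩
  · exact absurd h2 h0
  · simpa [h0] using h2.1
  · exact absurd h2 h0
  · omega
  · rw [h0]

variable (v0 g L)

/-- the scan of epoch `k` as an abstract trace -/
noncomputable def trace (hn : n ≠ 0) (σ : List (Event n V)) (k : ℕ) : Trace n g L where
  act := actE v0 g L σ k
  loc := fun q t => (lc (cfg v0 g L σ t) q).rc.know k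
  reg := fun q t => (ax (cfg v0 g L σ t) q).2.know k
  loc_step := by
    intro q t
    cases h : σ[t]? with
    | none => rw [cfg_succ_none h]
    | some e =>
      rw [cfg_succ_some h]
      rcases effect (cfg v0 g L σ t) e q with ⟨_, _, h1, _⟩ | ⟨_, h1, _⟩ | ⟨_, _, h1, _⟩ |
        ⟨_, _, h1, _⟩ | ⟨_, _, h1, _⟩ <;> rw [h1]
      exact (Rec.absorb_know _ _ _ _).2.1 k
  reg_step := by
    intro q t
    cases h : σ[t]? with
    | none => rw [cfg_succ_none h]
    | some e =>
      rw [cfg_succ_some h]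
      have := (inv_run (v0 := v0) (g := g) (L := L) (σ.take t)).le q k
      rcases effect (cfg v0 g L σ t) e q with ⟨_, _, _, h1, _⟩ | ⟨_, _, h1⟩ | ⟨_, _, _, h1, _⟩ |
        ⟨_, _, _, h1⟩ | ⟨_, _, _, h1, _⟩ <;> rw [h1]
      · exact this
      · exact this
  ne := by
    intro t q h
    obtain ⟨e, _, _, hk⟩ := actE_iff.1 h
    simp only [Rec.know, hk, lt_irrefl, if_false, if_true]
    exact fun hd => hn ((inv_run (v0 := v0) (g := g) (L := L) (σ.take t)).ne _ ⟨q, Or.inl rfl⟩ hd)
  gos := by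
    intro t q h h3
    obtain ⟨h1, h2, h4⟩ := scan_read h (by omega)
    have ht : target g L q (lc (cfg v0 g L σ t) q) = g q (cntOf (actE v0 g L σ k) q t / 3) := by
      unfold target; rw [← h2, if_pos h3]
    rw [h4, ← ht, ← h1]
    exact (Rec.absorb_know _ _ _ _).2.2
  wrk := by
    intro t q h h3 r hr
    obtain ⟨h1, h2, h4⟩ := scan_read h (by omega)
    have ht : target g L q (lc (cfg v0 g L σ t) q) = r := by
      simp only [Rec.know, h1, lt_irrefl, if_false, if_true] at hr
      unfold target; rw [← h2, if_neg (by omega), hr]; rfl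
    rw [h4, ← ht, ← h1]
    exact (Rec.absorb_know _ _ _ _).2.2.1
  wri := by
    intro t q h h3
    obtain ⟨e, h1, h2, hk⟩ := actE_iff.1 h
    have hc := (cnt_eq (v0 := v0) (g := g) (L := L) σ k q t).1 hk
    rw [cfg_succ_some h1]
    rcases effect (cfg v0 g L σ t) e q with ⟨h0, _⟩ | ⟨h0, _⟩ | ⟨h0, _⟩ | ⟨_, _, _, h0⟩ |
      ⟨_, h0, _⟩
    · exact absurd h2 h0
    · simpa [h0] using h2.1
    · exact absurd h2 h0
    · rw [h0]
    · omega

lemma cost_take_succ (A : Alg n V) (σ : List (Event n V)) (t : ℕ) :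
    A.cost v0 (σ.take (t + 1)) = A.cost v0 (σ.take t) +
      (σ[t]?.map (A.charge (A.run v0 (σ.take t)))).getD 0 := by
  rw [List.take_add_one]
  cases σ[t]? with
  | none => simp
  | some e => simp [Alg.cost, Alg.run, Alg.costFrom_snoc]

lemma total_succ (act : ℕ → Option (Fin n)) (N : ℕ) :
    total act (N + 1) = total act N + if act N = none then 0 else 1 := by
  unfold total
  rw [range_add_one, filter_insert]
  by_cases h : act N = none
  · rw [if_neg (by simp [h]), if_pos h]; rfl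
  · rw [if_pos h, if_neg h, card_insert_of_notMem (by simp)]

lemma cost_split (B : Alg n V) (σ : List (Event n V)) (E : ℕ)
    (hE : ∀ t, EpLe (cfg v0 g L σ t) E) : ∀ t, (alg v0 g L).cost v0 (σ.take t) ≤
      B.cost v0 (σ.take t) + ∑ k ∈ range (E + 1), total (actE v0 g L σ k) t := by
  intro t
  induction t with
  | zero => simp [Alg.cost, Alg.costFrom]
  | succ t ih =>
    rw [cost_take_succ, cost_take_succ]
    simp only [total_succ, sum_add_distrib]
    cases h : σ[t]? with
    | none => simp only [Option.map_none, Option.getD_none]; omega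
    | some e =>
      simp only [Option.map_some, Option.getD_some]
      cases e with
      | start q => simp only [Alg.charge]; omega
      | write q w => simp only [Alg.charge]; omega
      | step q =>
        simp only [Alg.charge]
        by_cases hb : ((alg v0 g L).run v0 (σ.take t)).busy q = true
        swap
        · rw [if_neg hb]; omega
        rw [if_pos hb]
        by_cases hf : (lc ((alg v0 g L).run v0 (σ.take t)) q).flag = true
        · rw [if_pos (Alg.Fresh_busy (flag_fresh _ q hf))]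
          omega
        · have h1 : actE v0 g L σ (lc (cfg v0 g L σ t) q).rc.ep t = some q :=
            actE_iff.2 ⟨_, h, ⟨rfl, hb, Bool.eq_false_iff.2 hf⟩, rfl⟩
          have h2 := single_le_sum (f := fun k => if actE v0 g L σ k t = none then 0 else 1)
            (fun _ _ => Nat.zero_le _)
            (mem_range.2 (Nat.lt_add_one_of_le (hE t _ ⟨q, Or.inl rfl⟩)))
          simp only [h1, reduceCtorEq, if_false] at h2
          omega

theorem cost_le [Nontrivial V] (hn : 2 ≤ n) {W : ℕ} (hW : ∀ (R : Trace n g L) N, total R.act N ≤ W)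
    (B : Alg n V) (σ : List (Event n V)) (hB : B.Champ v0 σ) :
    (alg v0 g L).cost v0 σ ≤ B.cost v0 σ + (4 * (B.cost v0 σ / (n - 1)) + 4) * W := by
  have h := cost_split v0 g L B σ (4 * (B.cost v0 σ / (n - 1)) + 3) (fun t => by
    refine epochs_le (B := B) hn _ _ ?_ ?_
    · exact Alg.Champ.init (γ := σ.drop t) (by rw [List.take_append_drop]; exact hB)
    · have h1 : B.cost v0 (σ.take t) ≤ B.cost v0 σ := by
        conv_rhs => rw [← List.take_append_drop t σ]
        unfold Alg.cost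
        rw [Alg.costFrom_append]
        omega
      exact h1.trans_lt ((Nat.div_lt_iff_lt_mul (by omega)).1 (Nat.lt_succ_self _))) σ.length
  rw [List.take_length] at h
  refine h.trans (Nat.add_le_add_left ?_ _)
  calc _ ≤ ∑ _k ∈ range (4 * (B.cost v0 σ / (n - 1)) + 3 + 1), W :=
        sum_le_sum fun k _ => hW (trace v0 g L (by omega) σ k) _
    _ = _ := by simp

theorem main : ∃ C : ℝ, 0 ≤ C ∧ ∀ n : ℕ, 2 ≤ n → ∀ (V : Type) [Nontrivial V] (v0 : V),
    ∃ A : Alg n V, A.Correct v0 ∧ ∃ c : ℝ, ∀ (B : Alg n V) (σ : List (Event n V)),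
      B.Champ v0 σ → (A.cost v0 σ : ℝ) ≤
        C * (Real.log n ^ 3 / Real.log (2 + Real.log n)) * B.cost v0 σ + c := by
  obtain ⟨Z, hZ⟩ := total_le
  refine ⟨192 * (1 + 8 * Z), by positivity, fun n hn V _ v0 => ?_⟩
  set l := Nat.log 2 n + 1 with hl
  obtain ⟨g, L, hg⟩ := exists_goodLists n l (by omega)
  have h1 : n < 2 ^ l := Nat.lt_pow_succ_log_self (by norm_num) n
  have h2' : 2 ^ Nat.log 2 n ≤ n := Nat.pow_log_le_self 2 (by omega)
  have h2 : 2 ^ l ≤ 2 * n := by rw [hl, pow_succ]; omega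
  set W := Z * (n * l ^ 3) / lg l with hW
  refine ⟨alg v0 g L, alg_correct, (4 * W : ℕ), fun B σ hB => ?_⟩
  have h3 := cost_le v0 g L hn (W := W) (fun R N => (Nat.le_div_iff_mul_le (lg_pos l)).2
    ((mul_comm _ _).le.trans (hZ hg h1 h2 R N))) B σ hB
  set b := B.cost v0 σ
  have h4 : b / (n - 1) * n ≤ 2 * b := by
    have a1 := Nat.div_mul_le_self b (n - 1)
    have a2 : n ≤ 2 * (n - 1) := by omega
    nlinarith [Nat.mul_le_mul_left (b / (n - 1)) a2]
  have hl1 : lg l ≤ l ^ 3 := (lg_le (by omega)).1.trans (Nat.le_self_pow (by norm_num) l)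
  have h5 : lg l * (b + 4 * (b / (n - 1)) * W) ≤ (1 + 8 * Z) * l ^ 3 * b := by
    have a1 : lg l * b ≤ l ^ 3 * b := Nat.mul_le_mul_right _ hl1
    have a2 : 4 * (Z * l ^ 3) * (b / (n - 1) * n) ≤ 4 * (Z * l ^ 3) * (2 * b) :=
      Nat.mul_le_mul_left _ h4
    have a3 := Nat.mul_le_mul_left (4 * (b / (n - 1))) (Nat.mul_div_le (Z * (n * l ^ 3)) (lg l))
    rw [← hW] at a3
    nlinarith
  have hn0 : (2 : ℝ) ≤ n := by exact_mod_cast hn
  have a3 := Real.log_two_gt_d9
  have a4 := Real.log_two_lt_d9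
  have h6 : (l : ℝ) ≤ 4 * Real.log n := by
    have a1 : (Nat.log 2 n : ℝ) * Real.log 2 ≤ Real.log n := by
      rw [← Real.log_pow]
      exact Real.log_le_log (by positivity) (by exact_mod_cast h2')
    have a2 : (1 : ℝ) ≤ Nat.log 2 n := by exact_mod_cast Nat.log_pos (by norm_num) hn
    rw [hl]
    push_cast
    nlinarith
  have h7 : (l : ℝ) ^ 3 ≤ 64 * Real.log n ^ 3 := by
    calc (l : ℝ) ^ 3 ≤ (4 * Real.log n) ^ 3 := by gcongr
      _ = _ := by ring
  have hL : 0 ≤ Real.log n := Real.log_nonneg (by linarith)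
  have h8 : Real.log (2 + Real.log n) ≤ 3 * lg l := by
    have a1 : Real.log n ≤ l := by
      have := Real.log_le_log (by linarith) (show (n : ℝ) ≤ 2 ^ l by exact_mod_cast h1.le)
      rw [Real.log_pow] at this
      have : (0 : ℝ) ≤ l := Nat.cast_nonneg _
      nlinarith
    have a2 : 2 + l ≤ 2 ^ (3 * lg l) := by
      have b1 : l < 2 ^ (Nat.log 2 l + 1) := Nat.lt_pow_succ_log_self (by norm_num) l
      have b2 : 2 ^ (Nat.log 2 l + 1 + 1) ≤ 2 ^ (3 * lg l) :=
        Nat.pow_le_pow_right (by norm_num) (by unfold lg; omega)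
      rw [pow_succ] at b2
      omega
    have a5 : (2 + l : ℝ) ≤ 2 ^ (3 * lg l) := by exact_mod_cast a2
    have a6 := Real.log_le_log (by linarith) (show 2 + Real.log n ≤ 2 ^ (3 * lg l) by linarith)
    rw [Real.log_pow] at a6
    push_cast at a6
    have : (0 : ℝ) ≤ lg l := Nat.cast_nonneg _
    nlinarith
  have h9 : 0 < Real.log (2 + Real.log n) := Real.log_pos (by linarith)
  have h10 : ((b + 4 * (b / (n - 1)) * W : ℕ) : ℝ) ≤
      192 * (1 + 8 * Z) * (Real.log n ^ 3 / Real.log (2 + Real.log n)) * b := by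
    have c1 : (lg l : ℝ) * (b + 4 * (b / (n - 1)) * W : ℕ) ≤ (1 + 8 * Z) * (l : ℝ) ^ 3 * b := by
      exact_mod_cast h5
    have c2 : (1 + 8 * (Z : ℝ)) * (l : ℝ) ^ 3 * b ≤ (1 + 8 * Z) * (64 * Real.log n ^ 3) * b := by
      gcongr
    have c3 := mul_le_mul_of_nonneg_right h8 (Nat.cast_nonneg (b + 4 * (b / (n - 1)) * W))
    rw [← mul_div_assoc, div_mul_eq_mul_div, le_div_iff₀ h9]
    linarith
  have h11 : ((alg v0 g L).cost v0 σ : ℝ) ≤ (b + 4 * (b / (n - 1)) * W : ℕ) + (4 * W : ℕ) := by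
    rw [add_mul, ← add_assoc] at h3
    exact_mod_cast h3
  linarith

end Pool.Agent.P.MP_7e7371_lc
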