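import Pool.Agent.P.MP_7e7371_lc.Gossip
import Pool.Agent.P.MP_7e7371_lc.Level

/-! Work bound for one asynchronous cooperative scan of all registers. -/

namespace Pool.Agent.P.MP_7e7371_lc

open Finset

/-- number of steps of `q` before time `t` -/
def cntOf {n : ℕ} (act : ℕ → Option (Fin n)) (q : Fin n) (t : ℕ) : ℕ :=
  ((range t).filter (fun u => act u = some q)).card

/-- An abstract timed run of the three-phase loop (gossip read, work read, write). -/
structure Trace (n : ℕ) (g : Fin n → ℕ → Fin n) (L : Fin n → List (Fin n)) where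
  act : ℕ → Option (Fin n)
  loc : Fin n → ℕ → Finset (Fin n)
  reg : Fin n → ℕ → Finset (Fin n)
  loc_step : ∀ q t, loc q t ⊆ loc q (t + 1)
  reg_step : ∀ q t, reg q t ⊆ reg q (t + 1)
  ne : ∀ t q, act t = some q → loc q t ≠ univ
  gos : ∀ t q, act t = some q → cntOf act q t % 3 = 0 →
    g q (cntOf act q t / 3) ∈ loc q (t + 1) ∧ reg (g q (cntOf act q t / 3)) t ⊆ loc q (t + 1)
  wrk : ∀ t q, act t = some q → cntOf act q t % 3 = 1 →
    ∀ r, (L q).find? (fun r => decide (r ∉ loc q t)) = some r → r ∈ loc q (t + 1)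
  wri : ∀ t q, act t = some q → cntOf act q t % 3 = 2 → loc q t ⊆ reg q (t + 1)

lemma cntOf_succ {n : ℕ} (act : ℕ → Option (Fin n)) (q : Fin n) (t : ℕ) :
    cntOf act q (t + 1) = cntOf act q t + if act t = some q then 1 else 0 := by
  unfold cntOf
  rw [range_add_one, filter_insert]
  split_ifs
  · rw [card_insert_of_notMem (by simp)]
  · rfl

lemma cntOf_mono {n : ℕ} (act : ℕ → Option (Fin n)) (q : Fin n) : Monotone (cntOf act q) :=
  monotone_nat_of_le_succ fun t => by rw [cntOf_succ]; omega

lemma exists_tm {n : ℕ} (act : ℕ → Option (Fin n)) (q : Fin n) (c : ℕ) :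
    ∀ t, c < cntOf act q t → ∃ u, act u = some q ∧ cntOf act q u = c := by
  intro t
  induction t with
  | zero => simp [cntOf]
  | succ t ih =>
    intro h
    rw [cntOf_succ] at h
    by_cases h1 : c < cntOf act q t
    · exact ih h1
    · split_ifs at h with h2
      · exact ⟨t, h2, by omega⟩
      · omega

lemma hits_next {n : ℕ} (K T : Finset (Fin n)) (hK : Kᶜ ⊆ T) : ∀ (l : List (Fin n)) (j : ℕ),
    hits l j T ⊆ K → ∀ r ∈ hits l (j + 1) T,
      r ∈ K ∨ l.find? (fun r => decide (r ∉ K)) = some r := by
  intro l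
  induction l with
  | nil => intro j _ r hr; simp [hits] at hr
  | cons a l ih =>
    intro j hj r hr
    by_cases haT : a ∈ T
    · have e : ∀ j, hits (a :: l) (j + 1) T = insert a (hits l j T) := by
        intro j; simp [hits, haT]
      rw [e, mem_insert] at hr
      by_cases haK : a ∈ K
      · rcases hr with rfl | hr
        · exact Or.inl haK
        · cases j with
          | zero => simp [hits] at hr
          | succ j =>
            rw [e] at hj
            have := ih j ((subset_insert _ _).trans hj) r hr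
            simpa [haK] using this
      · cases j with
        | zero =>
          rcases hr with rfl | hr
          · right; simp [haK]
          · simp [hits] at hr
        | succ j =>
          rw [e] at hj
          exact absurd (hj (mem_insert_self _ _)) haK
    · have e : ∀ j, hits (a :: l) j T = hits l j T := by
        intro j; simp [hits, haT]
      have haK : a ∈ K := by
        by_contra h
        exact haT (hK (mem_compl.2 h))
      rw [e] at hj hr
      simpa [haK] using ih j hj r hr

namespace Trace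

variable {n : ℕ} {g : Fin n → ℕ → Fin n} {L : Fin n → List (Fin n)} (R : Trace n g L)

lemma loc_mono (q : Fin n) : Monotone (R.loc q) := monotone_nat_of_le_succ (R.loc_step q)
lemma reg_mono (q : Fin n) : Monotone (R.reg q) := monotone_nat_of_le_succ (R.reg_step q)

/-- time of step number `c` of `q` -/
noncomputable def tm (q : Fin n) (c : ℕ) : ℕ :=
  Classical.epsilon (fun u => R.act u = some q ∧ cntOf R.act q u = c)

lemma tm_spec {q : Fin n} {c t : ℕ} (h : c < cntOf R.act q t) :
    R.act (R.tm q c) = some q ∧ cntOf R.act q (R.tm q c) = c :=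
  Classical.epsilon_spec (exists_tm R.act q c t h)

lemma tm_lt {q : Fin n} {c t : ℕ} (h : c < cntOf R.act q t) : R.tm q c + 1 ≤ t := by
  by_contra hc
  have := cntOf_mono R.act q (show t ≤ R.tm q c by omega)
  have := (R.tm_spec h).2
  omega

lemma le_tm {q : Fin n} {c t b : ℕ} (h : c < cntOf R.act q t) (hb : cntOf R.act q b ≤ c) :
    b ≤ R.tm q c := by
  by_contra hc
  have h1 := cntOf_mono R.act q (show R.tm q c + 1 ≤ b by omega)
  have h2 := R.tm_spec h
  rw [cntOf_succ, if_pos h2.1] at h1
  omega

/-- knowledge of `q` just before its step number `c` -/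
noncomputable def K (q : Fin n) (c : ℕ) : Finset (Fin n) := R.loc q (R.tm q c)

lemma after_sub {q : Fin n} {c c' t : ℕ} (h : c' < cntOf R.act q t) (hc : c < c') :
    R.loc q (R.tm q c + 1) ⊆ R.K q c' :=
  R.loc_mono q (R.tm_lt (by rw [(R.tm_spec h).2]; exact hc))

lemma K_mono {q : Fin n} {c c' t : ℕ} (h : c' < cntOf R.act q t) (hc : c ≤ c') :
    R.K q c ⊆ R.K q c' := by
  rcases hc.eq_or_lt with rfl | hc
  · exact Subset.refl _
  · exact (R.loc_step q _).trans (R.after_sub h hc)

lemma solo (hL : ∀ q r, r ∈ L q) (q : Fin n) (t : ℕ) : cntOf R.act q t ≤ 3 * n + 1 := by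
  have key : ∀ r, 3 * r + 1 < cntOf R.act q t → r ≤ (R.K q (3 * r + 1)).card := by
    intro r
    induction r with
    | zero => simp
    | succ r ih =>
      intro h
      have h0 : 3 * r + 1 < cntOf R.act q t := by omega
      obtain ⟨h1, h2⟩ := R.tm_spec h0
      obtain ⟨y, hy⟩ : ∃ y, y ∉ R.K q (3 * r + 1) := by
        by_contra hh
        push Not at hh
        exact R.ne _ _ h1 (eq_univ_iff_forall.2 hh)
      obtain ⟨z, hz⟩ : ∃ z, (L q).find? (fun y => decide (y ∉ R.K q (3 * r + 1))) = some z := by
        rw [← Option.isSome_iff_exists, List.find?_isSome]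
        exact ⟨y, hL q y, by simpa using hy⟩
      have hz1 : z ∉ R.K q (3 * r + 1) := by simpa using List.find?_some hz
      have hz2 := R.after_sub h (show 3 * r + 1 < _ by omega) (R.wrk _ q h1 (by omega) z hz)
      have h3 : insert z (R.K q (3 * r + 1)) ⊆ R.K q (3 * (r + 1) + 1) :=
        insert_subset hz2 (R.K_mono h (by omega))
      have := card_le_card h3
      rw [card_insert_of_notMem hz1] at this
      have := ih h0
      omega
  by_contra hc
  have h := key n (by omega)
  apply R.ne _ _ (R.tm_spec (show 3 * n + 1 < cntOf R.act q t by omega)).1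
  exact (card_eq_iff_eq_univ _).1 (le_antisymm (card_le_univ _) (by rw [Fintype.card_fin]; exact h))

lemma work_hits {q : Fin n} {a t : ℕ} {T : Finset (Fin n)} (hT : (R.K q (3 * a))ᶜ ⊆ T) :
    ∀ j, 3 * (a + j) + 1 < cntOf R.act q t → hits (L q) j T ⊆ R.K q (3 * (a + j) + 1) := by
  intro j
  induction j with
  | zero => intro _; simp [hits]
  | succ j ih =>
    intro h r hr
    have h0 : 3 * (a + j) + 1 < cntOf R.act q t := by omega
    obtain ⟨h1, h2⟩ := R.tm_spec h0
    rcases hits_next (R.K q (3 * (a + j) + 1)) T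
      ((compl_subset_compl.2 (R.K_mono h0 (by omega))).trans hT) (L q) j (ih h0) r hr with h3 | h3
    · exact R.K_mono h (by omega) h3
    · exact R.after_sub h (by omega) (R.wrk _ q h1 (by omega) r h3)

theorem chain {s x f φ δ k t m N : ℕ} (hs : 2 ≤ s) (hx : 0 < x) (hf : 0 < f) (hφ : 2 ≤ φ)
    (hk : n < φ ^ k) (ht : n < f ^ t)
    (hG : ∀ Y : Finset (Fin n),
      (x ≤ Y.card → (univ.filter (fun q => ∃ w < s ^ 4, cntW (g q) s w Y = 0)).card < x) ∧
      (30 * x ≤ Y.card → (univ.filter (fun q => ∃ w < s ^ 4, cntW (g q) s w Y < δ)).card < x) ∧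
      (Y.card ≤ x → (univ.filter (fun q => ∃ w < s ^ 4, δ ≤ cntW (g q) s w Y)).card *
        fac φ x Y.card ≤ Y.card))
    (hW : ∀ T Y : Finset (Fin n), Y ⊆ T → T.card ≤ 2 * x → T.card < Y.card * (2 * f) →
      (univ.filter (fun q => Disjoint (hits (L q) s T) Y)).card < x)
    (hold : (univ.filter (fun q => s ^ 5 ≤ cntOf R.act q N)).card ≤ x)
    (b : ℕ → ℕ) (hb : ∀ j < m, b j ≤ b (j + 1) ∧ b (j + 1) ≤ N ∧
      32 * x ≤
        (univ.filter (fun q => cntOf R.act q (b j) + 12 * s ≤ cntOf R.act q (b (j + 1)))).card) :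
    m ≤ (φ + k + 1) * (2 * t + 1) := by
  rcases Nat.eq_zero_or_pos m with rfl | hm
  · exact Nat.zero_le _
  have hxn : 32 * x ≤ n := (hb 0 hm).2.2.trans ((card_le_univ _).trans (Fintype.card_fin n).le)
  let w : ℕ → Fin n → ℕ := fun j q => cntOf R.act q (b j) / (3 * s) + 1
  have hw1 : ∀ j q, cntOf R.act q (b j) ≤ 3 * (w j q * s) := by
    intro j q
    have := (Nat.div_lt_iff_lt_mul (show 0 < 3 * s by omega)).1
      (Nat.lt_succ_self (cntOf R.act q (b j) / (3 * s)))
    simp only [w]
    nlinarith
  have hw2 : ∀ j q, 3 * (w j q * s) ≤ cntOf R.act q (b j) + 3 * s := by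
    intro j q
    have := Nat.div_mul_le_self (cntOf R.act q (b j)) (3 * s)
    simp only [w]
    nlinarith
  let A : ℕ → Finset (Fin n) := fun j => univ.filter (fun q =>
    cntOf R.act q (b j) + 12 * s ≤ cntOf R.act q (b (j + 1)) ∧ cntOf R.act q N < s ^ 5)
  have hA : ∀ j q, q ∈ A j → 3 * (w j q * s) + 9 * s ≤ cntOf R.act q (b (j + 1)) := by
    intro j q hq
    have := (mem_filter.1 hq).2.1
    have := hw2 j q
    omega
  have hgos : ∀ j q, q ∈ A j → ∀ u < s, g q (w j q * s + u) ∈ R.K q (3 * (w j q * s + s)) ∧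
      R.reg (g q (w j q * s + u)) (b j) ⊆ R.K q (3 * (w j q * s + s)) := by
    intro j q hq u hu
    have h0 := hA j q hq
    have h1 : 3 * (w j q * s + u) < cntOf R.act q (b (j + 1)) := by omega
    obtain ⟨h2, h3⟩ := R.tm_spec h1
    have h4 := R.gos _ q h2 (by omega)
    rw [h3, show 3 * (w j q * s + u) / 3 = w j q * s + u by omega] at h4
    have h5 := R.after_sub (show 3 * (w j q * s + s) < cntOf R.act q (b (j + 1)) by omega)
      (show 3 * (w j q * s + u) < _ by omega)
    have h6 := hw1 j q
    exact ⟨h5 h4.1, (R.reg_mono _ (R.le_tm h1 (by omega))).trans (h4.2.trans h5)⟩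
  have hwin : ∀ j < m, ∀ q ∈ A j, w j q < s ^ 4 := by
    intro j hj q hqA
    have h1 := (mem_filter.1 hqA).2.2
    have h2 := hA j q hqA
    have h3 := cntOf_mono R.act q (hb j hj).2.1
    have h4 : w j q * s < s ^ 4 * s := by
      have : s ^ 4 * s = s ^ 5 := by ring
      omega
    exact Nat.lt_of_mul_lt_mul_right h4
  have hsp : ∀ j < m, ∀ T : Finset (Fin n), T.card ≤ x → (A j ∩ univ.filter
      (fun q => δ ≤ cntW (g q) s (w j q) T)).card * fac φ x T.card ≤ T.card := by
    intro j hj T hT
    refine (Nat.mul_le_mul_right _ (card_le_card fun q hq => ?_)).trans ((hG T).2.2 hT)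
    obtain ⟨h1, h2⟩ := mem_inter.1 hq
    exact mem_filter.2 ⟨mem_univ _, w j q, hwin j hj q h1, (mem_filter.1 h2).2⟩
  let Λ : Layers n x f φ m :=
    { A := A
      Hv := fun j Y => univ.filter (fun q => δ ≤ cntW (g q) s (w j q) Y)
      deg := by
        intro j hj Y hY
        refine lt_of_le_of_lt (card_le_card fun q hq => ?_) ((hG Y).2.1 hY)
        obtain ⟨h1, h2⟩ := mem_sdiff.1 hq
        exact mem_filter.2 ⟨mem_univ _, w j q, hwin j hj q h1,
          not_le.1 fun h => h2 (mem_filter.2 ⟨mem_univ _, h⟩)⟩
      res := by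
        intro j q Y T hq h
        refine mem_filter.2 ⟨mem_univ _, (mem_filter.1 hq).2.trans (card_le_card fun u hu => ?_)⟩
        obtain ⟨h1, h2⟩ := mem_filter.1 hu
        exact mem_filter.2 ⟨h1, h _ (mem_image.2 ⟨u, h1, rfl⟩) h2⟩
      sp2 := by
        intro j hj T hT
        refine (Nat.mul_le_mul_left _ ?_).trans (hsp j hj T hT)
        unfold fac
        split_ifs <;> omega
      spf := by
        intro j hj T hT
        have := hsp j hj T ((Nat.le_mul_of_pos_right _ (by positivity)).trans hT)
        rwa [fac, if_pos hT] at this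
      Win := fun j q => (range s).image (fun u => g q (w j q * s + u))
      M := fun j q => R.K q (3 * (w j q * s + s))
      F := fun j q => R.K q (3 * (w j q * s + s + s) + 2)
      Hit := fun q T => hits (L q) s T
      xpos := hx
      big := by
        intro j hj
        have h1 := (hb j hj).2.2
        have h2 : univ.filter (fun q => cntOf R.act q (b j) + 12 * s ≤ cntOf R.act q (b (j + 1)))
            ⊆ A j ∪ univ.filter (fun q => s ^ 5 ≤ cntOf R.act q N) := by
          intro q hq
          simp only [A, mem_union, mem_filter, mem_univ, true_and] at hq ⊢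
          omega
        have := (card_le_card h2).trans (card_union_le _ _)
        omega
      link := by
        intro j _ q hq p hp hw
        obtain ⟨u, hu, rfl⟩ := mem_image.1 hw
        refine Subset.trans ?_ (hgos (j + 1) q hq u (mem_range.1 hu)).2
        set p := g q (w (j + 1) q * s + u)
        have h0 := hA j p hp
        have h1 : 3 * (w j p * s + s + s) + 2 < cntOf R.act p (b (j + 1)) := by omega
        obtain ⟨h2, h3⟩ := R.tm_spec h1
        exact (R.wri _ p h2 (by omega)).trans (R.reg_mono p (R.tm_lt h1))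
      winM := by
        intro j _ q hq p hw
        obtain ⟨u, hu, rfl⟩ := mem_image.1 hw
        exact (hgos j q hq u (mem_range.1 hu)).1
      MF := by
        intro j _ q hq
        have h0 := hA j q hq
        exact R.K_mono (t := b (j + 1)) (by omega) (by omega)
      Fne := by
        intro j _ q hq
        have h0 := hA j q hq
        exact R.ne _ _ (R.tm_spec (t := b (j + 1)) (by omega)).1
      work := by
        intro j _ q hq T hT
        have h0 := hA j q hq
        exact (R.work_hits (t := b (j + 1)) hT s (by omega)).trans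
          (R.K_mono (t := b (j + 1)) (by omega) (by omega))
      expand := by
        intro j hj Y hY
        refine lt_of_le_of_lt (card_le_card ?_) ((hG Y).1 hY)
        intro q hq
        obtain ⟨hqA, hd⟩ := mem_filter.1 hq
        refine mem_filter.2 ⟨mem_univ _, w j q, hwin j hj q hqA, card_eq_zero.2
          (filter_false_of_mem fun u hu hY => ?_)⟩
        exact disjoint_left.1 hd (mem_image.2 ⟨u, hu, rfl⟩) hY
      cover := hW }
  exact Λ.bound ⟨k, rfl, by omega⟩ hf (by omega)

end Trace

end Pool.Agent.P.MP_7e7371_lc
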