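import Pool.Agent.P.MP_7e7371_lc.Main

/-! The earlier hand-in: competitive latency `O(log^3 n)`. -/

namespace Pool.Agent.P.MP_7e7371_lc.VariantLogCube

theorem result : ∃ C : ℝ, ∀ n : ℕ, 2 ≤ n → ∀ (V : Type) [Nontrivial V] (v0 : V),
    ∃ A : Alg n V, A.Correct v0 ∧ ∃ c : ℝ, ∀ (B : Alg n V) (σ : List (Event n V)),
      (B.Correct v0 ∨ (B.SeqCorrect v0 ∧ B.Seq v0 σ)) →
        (A.cost v0 σ : ℝ) ≤ C * Real.log n ^ 3 * B.cost v0 σ + c := by
  obtain ⟨C, hC, h⟩ := main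
  refine ⟨C / Real.log 2, fun n hn V _ v0 => ?_⟩
  obtain ⟨A, h1, c, h2⟩ := h n hn V v0
  refine ⟨A, h1, c, fun B σ hB => (h2 B σ hB).trans ?_⟩
  have h3 : 0 ≤ Real.log n := Real.log_natCast_nonneg n
  have h4 : 0 < Real.log 2 := Real.log_pos (by norm_num)
  have h5 : Real.log 2 ≤ Real.log (2 + Real.log n) := Real.log_le_log (by norm_num) (by linarith)
  rw [div_mul_eq_mul_div, mul_div_assoc]
  gcongr

end Pool.Agent.P.MP_7e7371_lc.VariantLogCube
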